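import Pool.Agent.RTS.Core

set_option autoImplicit false

/-!
# RAD: an NP-complete set which is adaptively but not disjunctively self-reducible

The oracle is that of RDS. The instances of the universal set carry the beginning of a certificate,
so that it is disjunctively self-reducible; the complete set contains the values of `R` at its
members, and the information which is needed to invert `R` bit by bit.
-/

namespace Pool.Agent.RAD

open Pool.Agent.DSR (Lang PolyTime encPair encBool Ans Letter encAns)
open Pool.Agent.RDS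
open Pool.Agent.RTS (Cer SS)

/-- the instance with the base `χ` and the beginning `p` of the certificate: `χ p 1 0^k 1` -/
def fmt (χ p : Str) : Str :=
  χ ++ (p ++ true :: (List.replicate (χ.length - p.length) false ++ [true]))

/-- the code of a certificate -/
def cd (c : Str × List Str) : Str := Pool.Agent.DSR.cod (Pool.Agent.PT.Dat.enc c)

/-- the string `c` codes an accepting computation for `χ` -/
def Val (E : ℕ → Ver) (U : Str → Bool) (R : Str → Str) (χ c : Str) : Prop :=
  ∃ (w : Str) (vs : List Str), cd (w, vs) = c ∧ tsz w vs ≤ χ.length ∧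
    Chk E χ w vs (vs.map (orc U R))

/-- the universal set -/
def K3 (E : ℕ → Ver) (U : Str → Bool) (R : Str → Str) : Set Str :=
  {ψ | ∃ χ p c : Str, ψ = fmt χ p ∧ p <+: c ∧ c.length ≤ χ.length ∧ Val E U R χ c}

/-- the parts `(y, p)` of `1^|p| 0 p y` -/
def pv (v : Str) : Str × Str :=
  ((v.drop ((v.takeWhile id).length + 1)).drop (v.takeWhile id).length,
    (v.drop ((v.takeWhile id).length + 1)).take (v.takeWhile id).length)

/-- the string `1^|p| 0 p y` -/
def pq (y p : Str) : Str := List.replicate p.length true ++ false :: (p ++ y)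

theorem pv_pq (y p : Str) : pv (pq y p) = (y, p) := by
  have h : ((pq y p).takeWhile id).length = p.length := by
    unfold pq
    rw [List.takeWhile_append_of_pos (by simp), List.takeWhile_cons]
    simp
  unfold pv
  rw [h]
  have h1 : (pq y p).drop (p.length + 1) = p ++ y := by
    unfold pq
    have : (List.replicate p.length true ++ false :: (p ++ y)) =
        (List.replicate p.length true ++ [false]) ++ (p ++ y) := by simp
    rw [this, List.drop_left' (by simp)]
  rw [h1]
  simp

/-- the complete set: `0 y` for the values `y = R ψ`, `ψ ∈ K R`, and `1 v`, where `v` codes `(y, p)`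
such that `y = R ψ` for some `ψ` which extends `p` -/
def AD (K : (Str → Str) → Set Str) (R : Str → Str) : Lang :=
  {x | match x with
    | [] => False
    | false :: y => ∃ ψ ∈ K R, R ψ = y
    | true :: v => ∃ ψ, (pv v).2 <+: ψ ∧ R ψ = (pv v).1}

theorem nil_AD (K : (Str → Str) → Set Str) (R : Str → Str) : ([] : Str) ∉ AD K R := fun h => h

theorem false_AD (K : (Str → Str) → Set Str) (R : Str → Str) (y : Str) :
    false :: y ∈ AD K R ↔ ∃ ψ ∈ K R, R ψ = y := Iff.rfl

theorem true_AD (K : (Str → Str) → Set Str) (R : Str → Str) (v : Str) :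
    true :: v ∈ AD K R ↔ ∃ ψ, (pv v).2 <+: ψ ∧ R ψ = (pv v).1 := Iff.rfl

/-- what is used about the universal set -/
structure KOkD (K : (Str → Str) → Set Str) : Prop where
  cert : ∀ (R : Str → Str) (ψ : Str), ψ ∈ K R → ∃ S, Cer K R ψ S
  last : ∀ (R : Str → Str) (ψ : Str), ψ ∈ K R → ∃ ψ', ψ = ψ' ++ [true]
  many : ∃ c : ℕ, ∀ n, c ≤ n → ∃ W : Finset Str, 2 ^ (n - c) ≤ W.card ∧
    ∀ w ∈ W, w.length = 2 * n + 2 ∧ ∀ R, w ∈ K R

theorem SS_spec {K : (Str → Str) → Set Str} (hK : KOkD K) {R : Str → Str} {ψ : Str}
    (h : ψ ∈ K R) : Cer K R ψ (SS K R ψ) := by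
  have h1 := hK.cert R ψ h
  unfold SS
  rw [dif_pos h1]
  exact h1.choose_spec

/-- the algorithm `G` with the bound `q` for the chains is a self-reduction for the oracle `R` -/
def CorrD (K : (Str → Str) → Set Str) (G : Alg) (q : Polynomial ℕ) (R : Str → Str) : Prop :=
  (∀ x, ∃ a, G.g R x = some a ∧ Right (AD K R) x a) ∧
  ∀ (c : ℕ → Str) (k : ℕ), Chn G R c k →
    k ≤ q.eval (c 0).length ∧ (c k).length ≤ q.eval (c 0).length

/-- the hypothesis which will be refuted -/
def HHD (K : (Str → Str) → Set Str) (G : Alg) (q : Polynomial ℕ) (R₀ : Str → Str) (m₀ : ℕ) : Prop :=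
  ∀ R, Reg R → Agr m₀ R₀ R → CorrD K G q R

/-- the strings which are nearly given by the computation at `0 y` -/
def TD (G : Alg) (R : Str → Str) (e : ℕ) (y : Str) : Set Str :=
  {ψ | ψ ∈ G.T R (false :: y) ∨ ∃ l v, G.g R (false :: y) = some (.ask l) ∧ true :: v ∈ l ∧
    (pv v).2 <+: ψ ∧ ψ.length ≤ (pv v).2.length + e}

/-- the questions of the adaptive self-reduction: `x'` is asked at `x` -/
def Nxt (R : Str → Str) (x x' : Str) : Prop :=
  (∃ (y p : Str) (b : Bool), x' = true :: pq y (p ++ [b]) ∧ 10 * p.length + 1 < y.length ∧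
    (x = false :: y ∨ ∃ v, x = true :: v ∧ pv v = (y, p))) ∨
  ∃ (χ p : Str) (b : Bool), p.length < χ.length ∧ x = false :: R (fmt χ p) ∧
    x' = false :: R (fmt χ (p ++ [b]))

end Pool.Agent.RAD
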