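import Pool.Agent.RAD.Targets
import Pool.Agent.RDS.Targets

set_option autoImplicit false

/-!
# RAD, block CORE: the hypothesis HHD is refuted (assembly)
-/

namespace Pool.Agent.RAD

open Pool.Agent.RDS

namespace CORE_

/-- the numerical estimate -/
theorem num (s c n N i w : ℕ) (h : s * s + 6 * s + c + 8 ≤ n) (hN : N ≤ 2 ^ s)
    (hi : i ≤ 2 ^ (3 * s + 4)) (hw : 2 ^ (n - c) ≤ w) :
    (s + 1 + 1) * (N ^ (s + 1) * i) < w := by
  have h1 : s + 1 + 1 ≤ 2 ^ (s + 1) := (s + 1).lt_two_pow_self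
  have h2 : N ^ (s + 1) ≤ 2 ^ (s * (s + 1)) := by
    rw [pow_mul]
    exact Nat.pow_le_pow_left hN _
  have h3 : (s + 1 + 1) * (N ^ (s + 1) * i) ≤
      2 ^ (s + 1) * (2 ^ (s * (s + 1)) * 2 ^ (3 * s + 4)) :=
    Nat.mul_le_mul h1 (Nat.mul_le_mul h2 hi)
  refine lt_of_le_of_lt h3 (lt_of_lt_of_le ?_ hw)
  rw [← pow_add, ← pow_add]
  apply Nat.pow_lt_pow_right (by norm_num)
  have h5 : s * (s + 1) = s * s + s := by ring
  rw [h5]
  omega

theorem eval_mono (p : Polynomial ℕ) {a b : ℕ} (h : a ≤ b) : p.eval a ≤ p.eval b := by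
  rw [Polynomial.eval_eq_sum, Polynomial.eval_eq_sum]
  exact Finset.sum_le_sum fun i _ => Nat.mul_le_mul_left _ (Nat.pow_le_pow_left h i)

end CORE_

open CORE_ in
theorem p_CORE (hSED : T_SED) (hLND : T_LND) (hCND : T_CND) (hASY : Pool.Agent.RDS.T_ASY) :
    T_CORE := by
  classical
  intro K hK G q R₀ m₀ hR₀ H
  obtain ⟨c, hc⟩ := hK.many
  obtain ⟨n, s, hm₀, hn1, hcn, hq, hP, hs⟩ := hASY (G.P.comp (Polynomial.X + 1))
    (q.comp (2 * Polynomial.X + 20)) c m₀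
  obtain ⟨W, hW, hW'⟩ := hc n hcn
  obtain ⟨N, hN⟩ : ∃ N, N = q.eval (10 * (2 * n + 2) + 2) := ⟨_, rfl⟩
  have hN' : (q.comp (2 * Polynomial.X + 20)).eval (10 * n + 1) = N := by
    rw [Polynomial.eval_comp, hN]
    congr 1
    simp only [Polynomial.eval_add, Polynomial.eval_mul, Polynomial.eval_ofNat, Polynomial.eval_X]
    ring
  rw [hN'] at hq hP
  have hP' : ∀ l, l ≤ 10 * N + 2 → G.P.eval l ≤ 2 ^ s := by
    intro l hl
    have h1 := hP (l - 1) (by omega)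
    rw [Polynomial.eval_comp, Polynomial.eval_add, Polynomial.eval_X, Polynomial.eval_one] at h1
    exact (eval_mono G.P (by omega)).trans h1
  obtain ⟨R, hR, hRa, hI⟩ := hSED G R₀ hR₀ (2 * n + 1) N s (by omega) hq (by nlinarith) hP'
  have hRa₀ : Agr m₀ R₀ R := fun u hu => hRa u (by omega)
  have hC : CorrD K G q R := H R hR hRa₀
  set I : Finset Str := (FF (2 * n + 1) N).filter fun ψ => ψ ∈ TD G R (s + 1) (R ψ) with hIdef
  have hIc : I.card ≤ 2 ^ (3 * s + 4) := by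
    have h1 : {ψ | ψ ∈ FF (2 * n + 1) N ∧ ψ ∈ TD G R (s + 1) (R ψ)} = (I : Set Str) := by
      ext ψ
      simp [hIdef]
    rw [h1, Set.ncard_coe_finset] at hI
    exact hI
  have h := hCND K G q R hR hC (2 * n + 2) N (s + 1) I W hN.symm
    (lt_of_le_of_lt hq (Nat.pow_lt_pow_right (by norm_num) (by omega))) (by omega)
    (fun w hw => ⟨(hW' w hw).1, (hW' w hw).2 R⟩)
    (fun ψ hψ => (mem_FF.1 (Finset.mem_filter.1 hψ).1).2)
    (fun ψ hψ h1 h2 h3 => hLND K hK G q R₀ m₀ H R hR hRa₀ ψ (s + 1) (by omega)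
      (lt_of_le_of_lt (hP' _ (by omega)) (Nat.pow_lt_pow_right (by norm_num) (by omega))) hψ
      (fun h4 => h3 (Finset.mem_filter.2 ⟨mem_FF.2 ⟨by omega, h2⟩, h4⟩)))
  exact absurd h (not_le.2 (num s c n N I.card W.card hs hq hIc hW))

end Pool.Agent.RAD
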