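import Pool.Agent.RAD.Targets

/-!
# FMT: the format of the instances

Project RAD (owner helper35), `MP_f8b4c8_lc`; block by helper21.
-/

set_option autoImplicit false

namespace Pool.Agent.RAD

open Pool.Agent.RDS

namespace FMT_

theorem rep_inj : ∀ (a b : ℕ) (u v : Str),
    List.replicate a false ++ true :: u = List.replicate b false ++ true :: v → u = v
  | 0, 0, u, v, h => by simpa using h
  | 0, b + 1, u, v, h => by
    rw [List.replicate_succ, List.replicate_zero] at h
    simp at h
  | a + 1, 0, u, v, h => by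
    rw [List.replicate_succ, List.replicate_zero] at h
    simp at h
  | a + 1, b + 1, u, v, h => by
    rw [List.replicate_succ, List.replicate_succ] at h
    exact rep_inj a b u v (by simpa using h)

theorem fmt_length (χ p : Str) (h : p.length ≤ χ.length) :
    (fmt χ p).length = 2 * χ.length + 2 := by
  unfold fmt
  simp only [List.length_append, List.length_cons, List.length_replicate, List.length_nil]
  omega

theorem rev_tail (p : Str) (a : ℕ) :
    (p ++ true :: (List.replicate a false ++ [true])).reverse =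
      true :: (List.replicate a false ++ true :: p.reverse) := by
  simp [List.reverse_append, List.reverse_replicate]

theorem inj (χ p χ' p' : Str) (h : p.length ≤ χ.length) (h' : p'.length ≤ χ'.length)
    (e : fmt χ p = fmt χ' p') : χ = χ' ∧ p = p' := by
  have h1 : χ.length = χ'.length := by
    have := congrArg List.length e
    rw [fmt_length χ p h, fmt_length χ' p' h'] at this
    omega
  unfold fmt at e
  obtain ⟨h2, h3⟩ := List.append_inj e h1
  refine ⟨h2, ?_⟩
  have h4 := congrArg List.reverse h3
  rw [rev_tail, rev_tail, List.cons.injEq] at h4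
  exact List.reverse_injective (rep_inj _ _ _ _ h4.2)

theorem mem (E : ℕ → Ver) (U : Str → Bool) (R : Str → Str) (χ p : Str)
    (h : p.length ≤ χ.length) :
    fmt χ p ∈ K3 E U R ↔ ∃ c : Str, p <+: c ∧ c.length ≤ χ.length ∧ Val E U R χ c := by
  constructor
  · rintro ⟨χ', p', c, e, hp, hc, hv⟩
    obtain ⟨rfl, rfl⟩ := inj χ p χ' p' h (hp.length_le.trans hc) e
    exact ⟨c, hp, hc, hv⟩
  · rintro ⟨c, hp, hc, hv⟩
    exact ⟨χ, p, c, rfl, hp, hc, hv⟩

theorem key2 (p : Str) (b : Bool) (c : Str) (h : p ++ [b] <+: c) : p <+: c := by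
  obtain ⟨t, rfl⟩ := h
  exact ⟨b :: t, by simp⟩

end FMT_

theorem p_FMT : T_FMT := by
  refine ⟨fun χ p χ' p' h h' e => FMT_.inj χ p χ' p' h h' e, fun E U R χ p h => ?_⟩
  rw [FMT_.mem E U R χ p h]
  constructor
  · rintro ⟨c, ⟨t, rfl⟩, hc, hv⟩
    cases t with
    | nil => exact Or.inl (by simpa using hv)
    | cons b t =>
      have hl : p.length < χ.length := by
        rw [List.length_append, List.length_cons] at hc
        omega
      have hb : ∀ b' : Bool, b' = b → fmt χ (p ++ [b']) ∈ K3 E U R := by
        intro b' hb'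
        rw [FMT_.mem E U R χ _ (by simpa using hl), hb']
        exact ⟨p ++ b :: t, ⟨t, by simp⟩, hc, hv⟩
      cases b with
      | false => exact Or.inr ⟨hl, Or.inl (hb _ rfl)⟩
      | true => exact Or.inr ⟨hl, Or.inr (hb _ rfl)⟩
  · have key : ∀ b : Bool, p.length < χ.length → fmt χ (p ++ [b]) ∈ K3 E U R →
        ∃ c : Str, p <+: c ∧ c.length ≤ χ.length ∧ Val E U R χ c := by
      intro b hl hm
      rw [FMT_.mem E U R χ _ (by simpa using hl)] at hm
      obtain ⟨c, hp, hc, hv⟩ := hm
      exact ⟨c, FMT_.key2 p b c hp, hc, hv⟩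
    rintro (hv | ⟨hl, hm | hm⟩)
    · exact ⟨p, ⟨[], by simp⟩, h, hv⟩
    · exact key _ hl hm
    · exact key _ hl hm

end Pool.Agent.RAD
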