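import Pool.Agent.RAD.Targets
import Pool.Agent.RDS.P_HRD

set_option autoImplicit false

/-!
# RAD: HRE, the complete set is hard (after RDS/P_HRD)
-/

namespace Pool.Agent.RAD

open Pool.Agent.DSR (Lang PolyTime encPair encBool Ans Letter encAns)
open Pool.Agent.PT (Dat PolyF Core)
open Pool.Agent.RDS

namespace HRE_

/-! ### Sizes of codes -/

theorem sz_str (w : Str) : (Dat.enc w).size ≤ 1 + 4 * w.length := by
  induction w with
  | nil => simp [Pool.Agent.PT.enc_nil, Pool.Agent.PT.D.size]
  | cons b w ih =>
    rw [Pool.Agent.PT.enc_cons, Pool.Agent.PT.D.size, List.length_cons]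
    have h : (Dat.enc b).size ≤ 3 := by
      cases b
      · simp [Pool.Agent.PT.enc_false, Pool.Agent.PT.D.size]
      · simp [Pool.Agent.PT.enc_true, Pool.Agent.PT.D.size]
    omega

theorem sz_strs (vs : List Str) : (Dat.enc vs).size ≤
    1 + 4 * (vs.map fun v => v.length + 1).sum := by
  induction vs with
  | nil => simp [Pool.Agent.PT.enc_nil, Pool.Agent.PT.D.size]
  | cons v vs ih =>
    rw [Pool.Agent.PT.enc_cons, Pool.Agent.PT.D.size, List.map_cons, List.sum_cons]
    have h := sz_str v
    omega

theorem length_cd (w : Str) (vs : List Str) : (cd (w, vs)).length ≤ 4 * tsz w vs + 3 := by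
  unfold cd tsz
  rw [Pool.Agent.DSR.cod_length, Pool.Agent.PT.enc_pair, Pool.Agent.PT.D.size]
  have h1 := sz_str w
  have h2 := sz_strs vs
  simp only
  omega

theorem length_fmt_nil (χ : Str) : (fmt χ []).length = 2 * χ.length + 2 := by
  unfold fmt
  simp only [List.length_append, List.length_cons, List.length_replicate, List.length_nil]
  omega

/-! ### Reading a value of `R` -/

/-- The algorithm which computes `0 R (f x)`. -/
def rde (f : Str → Str) (p : Str × List Bool) : Bool × Str × Str :=
  ((HRD_.rd f p).1, (HRD_.rd f p).2.1, false :: p.2)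

theorem rde_pt {f : Str → Str} (hf : PolyF f) : PolyF (rde f) := by
  have hC : Fact Core := ⟨Pool.Agent.PT.core⟩
  have h := HRD_.rd_pt hf
  unfold rde
  exact PolyF.pair (PolyF.fst h) (PolyF.pair (PolyF.fst (PolyF.snd h))
    (PolyF.cons (PolyF.const _) (PolyF.snd PolyF.id)))

theorem rde_run (U : Str → Bool) (R : Str → Str) (hR : Reg R) (f : Str → Str) (x : Str) :
    ∀ (m : ℕ) (h : List Bool), h.length + m = 10 * (f x).length + 1 →
      h = (R (f x)).take h.length →
      run (orc U R) (fun p => mvOf (rde f p)) x (m + 1) h = some (false :: R (f x)) := by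
  have hl := hR.len (f x)
  intro m
  induction m with
  | zero =>
    intro h hm he
    have h1 : h = R (f x) := by
      rw [he]
      exact List.take_of_length_le (by omega)
    rw [run]
    have h2 : rde f (x, h) = (false, qst h.length (f x), false :: h) := by
      unfold rde HRD_.rd
      simp only [Prod.mk.injEq, and_true, decide_eq_false_iff_not]
      omega
    simp only [h2]
    unfold mvOf
    simp only [cond_false]
    rw [h1]
  | succ m ih =>
    intro h hm he
    rw [run]
    have h2 : rde f (x, h) = (true, qst h.length (f x), false :: h) := by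
      unfold rde HRD_.rd
      simp only [Prod.mk.injEq, and_true, decide_eq_true_eq]
      omega
    simp only [h2]
    unfold mvOf
    simp only [cond_true]
    rw [HRD_.orc_qst]
    have h3 : h.length < (R (f x)).length := by omega
    refine ih _ ?_ ?_
    · rw [List.length_append, List.length_singleton]
      omega
    · rw [List.length_append, List.length_singleton, List.take_add_one, ← he,
        List.getD_eq_getElem _ _ h3, List.getElem?_eq_getElem h3]
      rfl

end HRE_

open HRE_ in
open Pool.Agent.RDS.HRD_ in
theorem p_HRE (h1 : Pool.Agent.RDS.T_CNV) (h2 : Pool.Agent.RDS.T_OUTL) (h3 : T_FMT) : T_HRE := by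
  intro E hE R hR B ⟨q, V, ⟨G, r, hG, hrun⟩, hB⟩
  obtain ⟨i, hi⟩ := hE (G, q) hG
  obtain ⟨s, hs⟩ := h2 (encH encPair) (encMv encBool) G hG
  have hC : Fact Core := ⟨Pool.Agent.PT.core⟩
  -- the bound for the size of a computation
  obtain ⟨e, he⟩ : ∃ e : Polynomial ℕ, e = Polynomial.X + q := ⟨_, rfl⟩
  obtain ⟨t0, ht0⟩ : ∃ t : Polynomial ℕ, t = q + (r.comp e) * (s.comp (e + r.comp e)) := ⟨_, rfl⟩
  obtain ⟨t, ht⟩ : ∃ t : Polynomial ℕ, t = 4 * t0 + 3 := ⟨_, rfl⟩
  have htt : ∀ n, t.eval n = 4 * t0.eval n + 3 := by
    intro n
    rw [ht]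
    simp
  obtain ⟨L, hL, hLl⟩ := Pool.Agent.CookLevin.tLEN (Γ := Bool) t
  obtain ⟨g, hg⟩ : ∃ g : Str → Str, g = fun x => ins i (t.eval x.length) x := ⟨_, rfl⟩
  have hgx : ∀ x, g x = ins i (t.eval x.length) x := fun x => by rw [hg]
  have hgp : PolyF g := by
    have h4 : PolyF (fun x : Str => List.replicate i true ++ false ::
        ((L x).map (fun _ => true) ++ false :: x)) := by
      refine PolyF.append (PolyF.const _) (PolyF.cons (PolyF.const _) (PolyF.append ?_
        (PolyF.cons (PolyF.const _) PolyF.id)))
      exact PolyF.map (f := fun (_ : Str) (_ : Unit) => true) (PolyF.const _) hL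
    refine h4.congr fun x => ?_
    rw [hgx, List.map_const', hLl]
    rfl
  obtain ⟨f, hf⟩ : ∃ f : Str → Str, f = fun x => fmt (g x) [] := ⟨_, rfl⟩
  have hfx : ∀ x, f x = fmt (ins i (t.eval x.length) x) [] := fun x => by rw [hf, ← hgx]
  have hfp : PolyF f := by
    have h4 : PolyF (fun x : Str => g x ++ true :: ((g x).map (fun _ => false) ++ [true])) := by
      refine PolyF.append hgp (PolyF.cons (PolyF.const _) (PolyF.append ?_ (PolyF.const _)))
      exact PolyF.map (f := fun (_ : Str) (_ : Bool) => false) (PolyF.const _) hgp
    refine h4.congr fun x => ?_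
    rw [hf, List.map_const']
    unfold fmt
    simp
  refine ⟨fun x => false :: R (f x), ⟨fun p => mvOf (rde f p),
    10 * (2 * (Polynomial.C (i + 2) + t + Polynomial.X) + 2) + 2, h1.2 _ (rde_pt hfp),
    fun x => ?_⟩, fun x => ?_⟩
  · have h5 := rde_run (UU E) R hR f x (10 * (f x).length + 1) [] (by simp) (by simp)
    refine run_mono _ _ _ _ _ _ h5 _ ?_
    simp only [Polynomial.eval_add, Polynomial.eval_mul, Polynomial.eval_ofNat,
      Polynomial.eval_C, Polynomial.eval_X, id_eq]
    rw [hfx, length_fmt_nil, length_ins]
    omega
  · -- the equivalence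
    have hAA : false :: R (f x) ∈ AD (K3 E (UU E)) R ↔ f x ∈ K3 E (UU E) R := by
      rw [false_AD]
      constructor
      · rintro ⟨ψ, hψ, hψ'⟩
        rw [← hR.inj hψ']
        exact hψ
      · intro h
        exact ⟨f x, h, rfl⟩
    rw [hAA, hB]
    constructor
    · rintro ⟨w, hw, hVw⟩
      have h5 := hrun (x, w)
      rw [hVw] at h5
      obtain ⟨vs, h6, h7, h8⟩ := run_tran _ _ _ _ _ _ h5
      simp only [List.nil_append] at h7 h8
      have hts : tsz w vs ≤ t0.eval x.length := by
        have ha : (encPair (x, w)).length ≤ e.eval x.length := by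
          rw [length_encPair, he, Polynomial.eval_add, Polynomial.eval_X]
          omega
        have hr : r.eval (encPair (x, w)).length ≤ (r.comp e).eval x.length := by
          rw [Polynomial.eval_comp]
          exact eval_mono r ha
        have hv : ∀ v ∈ vs, v.length + 1 ≤ (s.comp (e + r.comp e)).eval x.length := by
          intro v hv
          obtain ⟨j, hj, rfl⟩ := List.getElem_of_mem hv
          have h9 := hs ((x, w), (vs.map (orc (UU E) R)).take j)
          rw [h7 j hj] at h9
          have h10 : (encMv encBool (Mv.ask vs[j])).length = vs[j].length + 1 := by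
            unfold encMv
            simp
          have h11 : (encH encPair ((x, w), (vs.map (orc (UU E) R)).take j)).length ≤
              (e + r.comp e).eval x.length := by
            unfold encH
            rw [List.length_append, List.length_map, List.length_map, List.length_take,
              List.length_map, Polynomial.eval_add]
            have h12 : min j vs.length ≤ vs.length := min_le_right _ _
            simp only
            omega
          rw [h10] at h9
          rw [Polynomial.eval_comp]
          exact h9.trans (eval_mono s h11)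
        have hsum : (vs.map fun v => v.length + 1).sum ≤
            vs.length * (s.comp (e + r.comp e)).eval x.length := by
          have h13 := List.sum_le_card_nsmul (vs.map fun v : Str => v.length + 1)
            ((s.comp (e + r.comp e)).eval x.length) (by
              intro a ha
              obtain ⟨v, hv', rfl⟩ := List.mem_map.1 ha
              exact hv v hv')
          simpa using h13
        unfold tsz
        rw [ht0, Polynomial.eval_add, Polynomial.eval_mul]
        refine Nat.add_le_add hw (hsum.trans (Nat.mul_le_mul_right _ ?_))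
        omega
      have hti := htt x.length
      have hcd := length_cd w vs
      have hil := length_ins i (t.eval x.length) x
      refine ⟨ins i (t.eval x.length) x, [], cd (w, vs), hfx x, ⟨cd (w, vs), rfl⟩, ?_, w, vs, rfl,
        ?_, i, t.eval x.length, x, rfl, ?_⟩
      · omega
      · omega
      · rw [hi]
        exact ⟨hw, by simp, h7, h8⟩
    · rintro ⟨χ, p, c, hfc, hpc, hcl, w, vs, -, -, i', t', x', hx', hT⟩
      rw [hfx] at hfc
      have hpl : p.length ≤ χ.length := hpc.length_le.trans hcl
      obtain ⟨h4, -⟩ := h3.1 _ _ _ _ (by simp) hpl hfc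
      rw [← h4] at hx'
      obtain ⟨rfl, -, rfl⟩ := ins_inj hx'
      rw [hi] at hT
      obtain ⟨hw, -, h7, h8⟩ := hT
      refine ⟨w, hw, ?_⟩
      have h9 := tran_run (orc (UU E) R) G (x, w) vs [] true
        (fun j hj => by rw [List.nil_append]; exact h7 j hj)
        (by rw [List.nil_append]; exact h8)
      have h10 := hrun (x, w)
      have h11 := run_mono _ _ _ _ _ _ h9 (max (vs.length + 1)
        (r.eval (encPair (x, w)).length)) (le_max_left _ _)
      have h12 := run_mono _ _ _ _ _ _ h10 (max (vs.length + 1)
        (r.eval (encPair (x, w)).length)) (le_max_right _ _)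
      rw [h11] at h12
      exact (Option.some.inj h12).symm

end Pool.Agent.RAD
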