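import Pool.Agent.RAD.Targets
import Pool.Agent.RDS.P_INVC

set_option autoImplicit false

/-!
# RAD: target IND

Few strings are nearly given by the computation at their own value: double counting at the index
`ψ`, then a sum over the strings `ψ` of one length.
-/

namespace Pool.Agent.RAD

open Pool.Agent.DSR (Lang PolyTime encPair encBool Ans Letter encAns)
open Pool.Agent.RDS

namespace IND_

open Pool.Agent.RDS.INVC_ (SL mem_SL ncard_vec card_SL mem_T_up ex_update)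

/-- changing the value at `ψ` does not change whether `ψ` is nearly given -/
theorem mem_TD_up (G : Alg) (R : Str → Str) (e : ℕ) (ψ z y : Str) :
    ψ ∈ TD G (up R ψ z) e y ↔ ψ ∈ TD G R e y := by
  by_cases h : ψ ∈ G.T R (false :: y)
  · have h' : ψ ∈ G.T (up R ψ z) (false :: y) := (mem_T_up G R ψ z (false :: y)).2 h
    exact ⟨fun _ => Or.inl h, fun _ => Or.inl h'⟩
  · have hl := G.loc R (up R ψ z) (false :: y) (fun u hu => by
      rw [up_ne]
      rintro rfl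
      exact h hu)
    unfold TD
    simp only [Set.mem_ofPred_eq]
    rw [hl.1, hl.2]

open Classical in
/-- one string -/
theorem one (h1 : T_UPD) (G : Alg) (R₀ : Str → Str) (m N e : ℕ) (ψ : Str) (h : ψ ∈ FF m N) :
    {ω : Om m N | ψ ∈ TD G (ex R₀ ω) e (ex R₀ ω ψ)}.ncard * 2 ^ (10 * ψ.length + 1) =
      ∑ ω : Om m N, ((SL (10 * ψ.length + 1)).filter fun y => ψ ∈ TD G (ex R₀ ω) e y).card := by
  have hU := h1 {u : Str // u ∈ FF m N} (fun u => List.Vector Bool (10 * u.1.length + 1)) ⟨ψ, h⟩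
    (fun ω => ψ ∈ TD G (ex R₀ ω) e (ex R₀ ω ψ))
  have hc : Fintype.card (List.Vector Bool (10 * ψ.length + 1)) = 2 ^ (10 * ψ.length + 1) := by
    rw [card_vector, Fintype.card_bool]
  have hU' : {ω : Om m N | ψ ∈ TD G (ex R₀ ω) e (ex R₀ ω ψ)}.ncard *
      Fintype.card (List.Vector Bool (10 * ψ.length + 1)) =
      ∑ ω : Om m N, {y : List.Vector Bool (10 * ψ.length + 1) |
        ψ ∈ TD G (ex R₀ (Function.update ω ⟨ψ, h⟩ y)) e
          (ex R₀ (Function.update ω ⟨ψ, h⟩ y) ψ)}.ncard := by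
    convert hU using 1
  rw [hc] at hU'
  rw [hU']
  refine Finset.sum_congr rfl fun ω _ => ?_
  rw [← ncard_vec (10 * ψ.length + 1) (fun y => ψ ∈ TD G (ex R₀ ω) e y)]
  congr 1
  ext y
  simp only [Set.mem_ofPred_eq]
  rw [ex_update, up_self, mem_TD_up]

open Classical in
/-- all strings of one length, one oracle -/
theorem lev (h2 : T_TOD) (G : Alg) (R : Str → Str) (F : Finset Str) (l s e : ℕ)
    (hP : G.P.eval (10 * l + 2) ≤ 2 ^ s) :
    ∑ ψ ∈ F, ((SL (10 * l + 1)).filter fun y => ψ ∈ TD G R e y).card ≤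
      2 ^ (10 * l + 1) * (2 ^ s * (1 + 2 ^ (e + 1))) := by
  have h : ∑ ψ ∈ F, ((SL (10 * l + 1)).filter fun y => ψ ∈ TD G R e y).card =
      ∑ y ∈ SL (10 * l + 1), (F.filter fun ψ => ψ ∈ TD G R e y).card := by
    simp only [Finset.card_filter]
    exact Finset.sum_comm
  rw [h]
  calc ∑ y ∈ SL (10 * l + 1), (F.filter fun ψ => ψ ∈ TD G R e y).card
      ≤ ∑ _y ∈ SL (10 * l + 1), 2 ^ s * (1 + 2 ^ (e + 1)) := by
        refine Finset.sum_le_sum fun y hy => ?_
        obtain ⟨hfin, hcard⟩ := h2 G R e y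
        rw [← Set.ncard_coe_finset]
        refine le_trans (Set.ncard_le_ncard ?_ hfin) (le_trans hcard ?_)
        · intro ψ hψ
          exact (Finset.mem_filter.1 (Finset.mem_coe.1 hψ)).2
        · rw [mem_SL.1 hy]
          exact Nat.mul_le_mul_right _ hP
    _ = 2 ^ (10 * l + 1) * (2 ^ s * (1 + 2 ^ (e + 1))) := by
        rw [Finset.sum_const, card_SL, smul_eq_mul]

/-- all strings of one length -/
theorem lenl (h1 : T_UPD) (h2 : T_TOD) (G : Alg) (R₀ : Str → Str) (m N s e : ℕ)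
    (hP : ∀ l, l ≤ 10 * N + 2 → G.P.eval l ≤ 2 ^ s) (l : ℕ) (hl : l ≤ N) :
    ∑ ψ ∈ FF m N with ψ.length = l, {ω : Om m N | ψ ∈ TD G (ex R₀ ω) e (ex R₀ ω ψ)}.ncard ≤
      2 ^ s * (1 + 2 ^ (e + 1)) * Fintype.card (Om m N) := by
  classical
  refine Nat.le_of_mul_le_mul_right (c := 2 ^ (10 * l + 1)) ?_ (by positivity)
  rw [Finset.sum_mul]
  have hs : ∀ ψ ∈ (FF m N).filter (fun ψ => ψ.length = l),
      {ω : Om m N | ψ ∈ TD G (ex R₀ ω) e (ex R₀ ω ψ)}.ncard * 2 ^ (10 * l + 1) =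
      ∑ ω : Om m N, ((SL (10 * l + 1)).filter fun y => ψ ∈ TD G (ex R₀ ω) e y).card := by
    intro ψ hψ
    obtain ⟨hF, hlen⟩ := Finset.mem_filter.1 hψ
    have := one h1 G R₀ m N e ψ hF
    rw [hlen] at this
    exact this
  rw [Finset.sum_congr rfl hs, Finset.sum_comm]
  calc ∑ ω : Om m N, ∑ ψ ∈ (FF m N).filter (fun ψ => ψ.length = l),
        ((SL (10 * l + 1)).filter fun y => ψ ∈ TD G (ex R₀ ω) e y).card
      ≤ ∑ _ω : Om m N, 2 ^ (10 * l + 1) * (2 ^ s * (1 + 2 ^ (e + 1))) := by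
        refine Finset.sum_le_sum fun ω _ => ?_
        exact lev h2 G (ex R₀ ω) _ l s e (hP _ (by omega))
    _ = 2 ^ s * (1 + 2 ^ (e + 1)) * Fintype.card (Om m N) * 2 ^ (10 * l + 1) := by
        rw [Finset.sum_const, Finset.card_univ, smul_eq_mul]
        ring

end IND_

open IND_ in
theorem p_IND (h1 : Pool.Agent.RDS.T_UPD) (h2 : T_TOD) : T_IND := by
  classical
  intro G R₀ m N s e hP
  have hmaps : ∀ ψ ∈ FF m N, ψ.length ∈ Finset.Ioc m N := by
    intro ψ hψ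
    rw [Finset.mem_Ioc]
    exact mem_FF.1 hψ
  rw [← Finset.sum_fiberwise_of_maps_to hmaps]
  calc ∑ l ∈ Finset.Ioc m N, ∑ ψ ∈ FF m N with ψ.length = l,
        {ω : Om m N | ψ ∈ TD G (ex R₀ ω) e (ex R₀ ω ψ)}.ncard
      ≤ ∑ _l ∈ Finset.Ioc m N, 2 ^ s * (1 + 2 ^ (e + 1)) * Fintype.card (Om m N) := by
        refine Finset.sum_le_sum fun l hl => ?_
        exact lenl h1 h2 G R₀ m N s e hP l (Finset.mem_Ioc.1 hl).2
    _ = (N - m) * (2 ^ s * (1 + 2 ^ (e + 1)) * Fintype.card (Om m N)) := by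
        rw [Finset.sum_const, Nat.card_Ioc, smul_eq_mul]
    _ ≤ N * (2 ^ s * (1 + 2 ^ (e + 1)) * Fintype.card (Om m N)) :=
        Nat.mul_le_mul_right _ (Nat.sub_le _ _)
    _ = N * (2 ^ s * (1 + 2 ^ (e + 1))) * Fintype.card (Om m N) := by ring

end Pool.Agent.RAD
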