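import Pool.Agent.RAD.Targets
import Pool.Agent.RTS.P_KOT

set_option autoImplicit false

/-!
# RAD, target KOD: certificates of the universal set
-/

namespace Pool.Agent.RAD

open Pool.Agent.DSR (Lang PolyTime encPair encBool Ans Letter encAns)
open Pool.Agent.RDS
open Pool.Agent.RTS (Cer SS)

namespace KOD_

theorem fmt_len (χ p : Str) : 2 * χ.length + 2 ≤ (fmt χ p).length := by
  unfold fmt
  simp only [List.length_append, List.length_cons, List.length_replicate, List.length_nil]
  omega

theorem fmt_nil_len (χ : Str) : (fmt χ []).length = 2 * χ.length + 2 := by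
  unfold fmt
  simp only [List.length_append, List.length_cons, List.length_replicate, List.length_nil]
  omega

theorem fmt_nil_inj {χ χ' : Str} (hl : χ.length = χ'.length) (h : fmt χ [] = fmt χ' []) :
    χ = χ' := by
  unfold fmt at h
  exact (List.append_inj h hl).1

end KOD_

theorem p_KOD : T_KOD := by
  classical
  intro E U hE
  obtain ⟨i, hi⟩ := hE
  refine ⟨fun R ψ hψ => ?_, fun R ψ hψ => ?_, i + 2 + (cd ([], [])).length, fun n hn => ?_⟩
  · obtain ⟨χ, p, c, hf, hp, hc, w, vs, hcd, h1, h2⟩ := hψ
    have hlen := KOD_.fmt_len χ p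
    rw [← hf] at hlen
    have h1' := h1
    unfold tsz at h1'
    refine ⟨(vs.map fun v => key v.tail).toFinset, ?_, ?_, ?_⟩
    · have h3 := List.toFinset_card_le (vs.map fun v => key v.tail)
      rw [List.length_map] at h3
      have h4 := Pool.Agent.RTS.KOT_.len_sum vs
      omega
    · intro u hu
      rw [List.mem_toFinset, List.mem_map] at hu
      obtain ⟨v, hv, rfl⟩ := hu
      have h3 := Pool.Agent.RTS.KOT_.key_len v.tail
      have h4 := Pool.Agent.RTS.KOT_.mem_sum hv
      rw [List.length_tail] at h3
      omega
    · intro R' hR'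
      refine ⟨χ, p, c, hf, hp, hc, w, vs, hcd, h1, ?_⟩
      have h3 : vs.map (orc U R') = vs.map (orc U R) := by
        refine List.map_congr_left fun v hv => Pool.Agent.RTS.KOT_.orc_eq U (hR' _ ?_)
        rw [List.mem_toFinset, List.mem_map]
        exact ⟨v, hv, rfl⟩
      rw [h3]
      exact h2
  · obtain ⟨χ, p, c, hf, -⟩ := hψ
    refine ⟨χ ++ (p ++ true :: List.replicate (χ.length - p.length) false), ?_⟩
    rw [hf]
    unfold fmt
    simp
  · refine ⟨(Finset.univ : Finset (List.Vector Bool (n - (i + 2)))).image
      (fun v => fmt (ins i 0 v.toList) []), ?_, ?_⟩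
    · have hinj : Function.Injective fun v : List.Vector Bool (n - (i + 2)) =>
          fmt (ins i 0 v.toList) [] := by
        intro v v' h
        have hl : (ins i 0 v.toList).length = (ins i 0 v'.toList).length := by
          rw [Pool.Agent.RTS.KOT_.ins_len, Pool.Agent.RTS.KOT_.ins_len, List.Vector.toList_length,
            List.Vector.toList_length]
        exact List.Vector.toList_injective
          (Pool.Agent.RTS.KOT_.ins_inj i (KOD_.fmt_nil_inj hl h))
      rw [Finset.card_image_of_injective _ hinj, Finset.card_univ, card_vector, Fintype.card_bool]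
      exact Nat.pow_le_pow_right (by norm_num) (by omega)
    · intro w hw
      obtain ⟨v, -, rfl⟩ := Finset.mem_image.1 hw
      have hl : (ins i 0 v.toList).length = n := by
        rw [Pool.Agent.RTS.KOT_.ins_len, List.Vector.toList_length]
        omega
      refine ⟨?_, fun R => ?_⟩
      · rw [KOD_.fmt_nil_len, hl]
      · refine ⟨ins i 0 v.toList, [], cd ([], []), rfl, List.nil_prefix, ?_, [], [], rfl, ?_, i, 0,
          v.toList, rfl, ?_⟩
        · rw [hl]
          omega
        · simp [tsz]
        · rw [hi]
          exact ⟨by simp, rfl, fun j h => absurd h (by simp), rfl⟩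

end Pool.Agent.RAD
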