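import Pool.Agent.RAD.Targets

set_option autoImplicit false

/-!
# RAD-LND: the next string of the chain
-/

namespace Pool.Agent.RAD

open Pool.Agent.RDS
open Pool.Agent.RTS (Cer SS)

namespace LND_

/-- a new value which is not a value of `R` -/
theorem exists_val (R : Str → Str) (hR : Reg R) (l : ℕ) :
    ∃ y : List.Vector Bool (10 * l + 1), ∀ u, R u ≠ y.toList := by
  classical
  set f : List.Vector Bool l → List.Vector Bool (10 * l + 1) := fun v =>
    ⟨R v.toList, by rw [hR.len, List.Vector.toList_length]⟩ with hf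
  have h2 : (Finset.univ.image f).card ≤ 2 ^ l := by
    refine Finset.card_image_le.trans ?_
    rw [Finset.card_univ, card_vector, Fintype.card_bool]
  have h3 : (Finset.univ.image f).card <
      (Finset.univ : Finset (List.Vector Bool (10 * l + 1))).card := by
    rw [Finset.card_univ (α := List.Vector Bool (10 * l + 1)), card_vector, Fintype.card_bool]
    have h4 : 2 * 2 ^ l ≤ 2 ^ (10 * l + 1) := by
      rw [← pow_succ']
      exact Nat.pow_le_pow_right (by norm_num) (by omega)
    have h5 : 0 < 2 ^ l := by positivity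
    omega
  obtain ⟨y, -, hy⟩ := Finset.exists_mem_notMem_of_card_lt_card h3
  refine ⟨y, fun u hu => hy ?_⟩
  rw [Finset.mem_image]
  have h5 : u.length = l := by
    have h6 := congrArg List.length hu
    rw [hR.len, List.Vector.toList_length] at h6
    omega
  refine ⟨⟨u, h5⟩, Finset.mem_univ _, ?_⟩
  apply List.Vector.toList_injective
  exact hu

/-- a string of length `n` with the beginning `p` and the last bit `0` outside a small set -/
theorem exists_ext (p : Str) (n e : ℕ) (T : Finset Str) (hT : T.card < 2 ^ e)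
    (hn : p.length + e < n) :
    ∃ u : Str, u.length = n ∧ p <+: u ∧ u ∉ T ∧ ∃ w, u = w ++ [false] := by
  classical
  set f : List.Vector Bool (n - p.length - 1) → Str := fun v => p ++ v.toList ++ [false] with hf
  have hinj : Function.Injective f := by
    intro v v' h
    simp only [hf, List.append_left_inj, List.append_right_inj] at h
    exact List.Vector.toList_injective h
  have h1 : T.card < (Finset.univ.image f).card := by
    rw [Finset.card_image_of_injective _ hinj, Finset.card_univ, card_vector, Fintype.card_bool]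
    exact hT.trans_le (Nat.pow_le_pow_right (by norm_num) (by omega))
  obtain ⟨u, hu, hu'⟩ := Finset.exists_mem_notMem_of_card_lt_card h1
  rw [Finset.mem_image] at hu
  obtain ⟨v, -, hv⟩ := hu
  refine ⟨u, ?_, ?_, hu', ⟨p ++ v.toList, hv.symm⟩⟩
  · rw [← hv]
    simp only [hf, List.length_append, List.Vector.toList_length, List.length_singleton]
    omega
  · rw [← hv]
    exact ⟨v.toList ++ [false], by simp only [hf, List.append_assoc]⟩

end LND_

open LND_ in
theorem p_LND : T_LND := by
  intro K hK G q R₀ m₀ hH R hR hA ψ e hm hP hψ hTD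
  obtain ⟨z, hz⟩ := exists_val R hR ψ.length
  set R' : Str → Str := up R ψ z.toList with hR'
  have hzl : z.toList.length = 10 * ψ.length + 1 := List.Vector.toList_length z
  have hreg : Reg R' := up_reg hR hzl (fun u _ => hz u)
  have hagr : Agr m₀ R₀ R' := fun u hu => (hA u hu).trans (up_agr R z.toList hm u hu)
  have hc := hH R hR hA
  have hc' := hH R' hreg hagr
  have hself : R' ψ = z.toList := up_self R ψ z.toList
  have hoth : ∀ u, u ≠ ψ → R' u = R u := fun u hu => up_ne R z.toList hu
  have hnv : ∀ u, R' u ≠ R ψ := by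
    intro u hu
    by_cases h1 : u = ψ
    · rw [h1, hself] at hu
      exact hz ψ hu.symm
    · rw [hoth u h1] at hu
      exact h1 (hR.inj hu)
  have hx : false :: R ψ ∈ AD K R := ⟨ψ, hψ, rfl⟩
  have hx' : false :: R ψ ∉ AD K R' := by
    rintro ⟨u, -, hu⟩
    exact hnv u hu
  have hT : ψ ∉ G.T R (false :: R ψ) := fun h => hTD (Or.inl h)
  have hloc := G.loc R R' (false :: R ψ) (fun u hu => by
    refine (hoth u ?_).symm
    rintro rfl
    exact hT hu)
  obtain ⟨a, ha, hr⟩ := hc.1 (false :: R ψ)
  obtain ⟨a', ha', hr'⟩ := hc'.1 (false :: R ψ)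
  have haa : a' = a := by
    rw [hloc.1, ha, Option.some.injEq] at ha'
    exact ha'.symm
  subst haa
  cases a' with
  | accept => exact absurd hr' hx'
  | reject => exact absurd hx hr
  | ask l =>
    have hr1 : false :: R ψ ∈ AD K R ↔ ∃ y ∈ l, y ∈ AD K R := hr
    have hr2 : false :: R ψ ∈ AD K R' ↔ ∃ y ∈ l, y ∈ AD K R' := hr'
    obtain ⟨x₁, hl, hx₁⟩ := hr1.1 hx
    have hn : x₁ ∉ AD K R' := fun h => hx' (hr2.2 ⟨x₁, hl, h⟩)
    match x₁, hl, hx₁, hn with
    | [], _, h, _ => exact absurd h (nil_AD K R)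
    | false :: y₁, hl, hx₁, hn =>
      obtain ⟨ψ₁, h3, h4⟩ := (false_AD K R y₁).1 hx₁
      subst h4
      have h5 : ψ₁ ≠ ψ := by
        rintro rfl
        have h7 := (hc.2 (fun _ => false :: R ψ₁) (q.eval (false :: R ψ₁).length + 1)
          (fun i _ => ⟨l, ha, hl⟩)).1
        omega
      have h6 : ψ₁ ∉ K R' := fun h => hn ⟨ψ₁, h, hoth ψ₁ h5⟩
      refine ⟨ψ₁, h3, ?_, l, ha, hl⟩
      by_contra h8
      exact h6 ((SS_spec hK h3).2.2 R' (fun u hu => hoth u (fun h => h8 (h ▸ hu))))
    | true :: v, hl, hx₁, hn =>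
      exfalso
      obtain ⟨ψ₁, hp, hv⟩ := (true_AD K R v).1 hx₁
      have h5 : ψ₁ = ψ := by
        by_contra h
        exact hn ⟨ψ₁, hp, by rw [hoth ψ₁ h]; exact hv⟩
      subst h5
      have hlen : (pv v).2.length + e < ψ₁.length := by
        by_contra h
        exact hTD (Or.inr ⟨l, v, ha, hl, hp, by omega⟩)
      have hcard : (G.T R (false :: R ψ₁)).card < 2 ^ e := by
        refine (G.cardT R (false :: R ψ₁)).trans_lt ?_
        rw [List.length_cons, hR.len]
        exact hP
      obtain ⟨ψ₂, h6, h7, h8, w, h9⟩ := exists_ext (pv v).2 ψ₁.length e _ hcard hlen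
      set R'' : Str → Str := up R' ψ₂ (R ψ₁) with hR''
      have hreg' : Reg R'' := up_reg hreg (by rw [hR.len, h6]) (fun u _ => hnv u)
      have hagr' : Agr m₀ R₀ R'' := fun u hu => (hagr u hu).trans
        (up_agr R' (R ψ₁) (by omega) u hu)
      have hc'' := hH R'' hreg' hagr'
      have hself' : R'' ψ₂ = R ψ₁ := up_self R' ψ₂ (R ψ₁)
      have hoth' : ∀ u, u ≠ ψ₂ → R'' u = R' u := fun u hu => up_ne R' (R ψ₁) hu
      have hloc' := G.loc R R'' (false :: R ψ₁) (fun u hu => by
        have h10 : u ≠ ψ₂ := by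
          rintro rfl
          exact h8 hu
        have h11 : u ≠ ψ₁ := by
          rintro rfl
          exact hT hu
        rw [hoth' u h10, hoth u h11])
      obtain ⟨b, hb, hs⟩ := hc''.1 (false :: R ψ₁)
      have hbb : b = Pool.Agent.DSR.Ans.ask l := by
        rw [hloc'.1, ha, Option.some.injEq] at hb
        exact hb.symm
      subst hbb
      have hs1 : false :: R ψ₁ ∈ AD K R'' ↔ ∃ y ∈ l, y ∈ AD K R'' := hs
      obtain ⟨u, hu1, hu2⟩ := (false_AD K R'' _).1
        (hs1.2 ⟨true :: v, hl, ⟨ψ₂, h7, by rw [hself']; exact hv⟩⟩)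
      by_cases h12 : u = ψ₂
      · subst h12
        obtain ⟨w', hw'⟩ := hK.last R'' u hu1
        rw [h9] at hw'
        have h13 := (List.append_inj' hw' rfl).2
        simp at h13
      · rw [hoth' u h12] at hu2
        exact hnv u hu2

end Pool.Agent.RAD
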