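import Pool.Agent.RAD.Targets
import Pool.Agent.RDS.P_MEM

set_option autoImplicit false
set_option linter.unusedSectionVars false

/-!
# RAD: the complete set is in NP relative to the oracle
-/

namespace Pool.Agent.RAD

open Pool.Agent.DSR (Lang PolyTime encPair encBool Ans Letter encAns tree toStr toStrs toStr_enc
  toStrs_enc cod tree_cod cod_length pt_tree pt_toStr pt_toStrs pt_fst pt_snd codF_pair codF_list
  codF_bool CodF)
open Pool.Agent.PT (Dat PolyF PolyB D Core sz sz_pair sz_cons sz_nil sz_pos sz_drop
  sz_bits_le length_lt_sz sz_bool)
open Pool.Agent.PT.Dat (enc)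
open Pool.Agent.RDS
open Pool.Agent.RDS.MEM_ (hst hst_length run_eq orc_qst UU_cde pX pW pV dr dr_eq pt_pX pt_pW pt_pV
  pt_dr pt_cde pt_tsz tree_cde pX_cde pW_cde pV_cde sz_strs)

namespace MED_

/-! ### Elementary functions on strings -/

/-- the beginning of `c` of the length of `p` -/
def tk (p c : Str) : Str := (dr (dr p c) c.reverse).reverse

theorem tk_eq (p c : Str) : tk p c = c.take p.length := by
  unfold tk
  rw [dr_eq, dr_eq, List.length_drop, List.drop_reverse, List.reverse_reverse]
  by_cases h : p.length ≤ c.length
  · congr 1
    omega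
  · rw [List.take_of_length_le (i := p.length) (by omega)]
    exact List.take_of_length_le (by omega)

theorem tk_iff (p c : Str) : tk p c = p ↔ p <+: c := by
  rw [tk_eq, List.prefix_iff_eq_take]
  exact eq_comm

/-- without the first ones -/
def dw (v : Str) : Str := v.foldl (fun s _ => cond (s.headD false) s.tail s) v

theorem dw_aux (l : List Bool) (s : Str) (h : (s.takeWhile id).length ≤ l.length) :
    l.foldl (fun (s : Str) (_ : Bool) => cond (s.headD false) s.tail s) s = s.dropWhile id := by
  induction l generalizing s with
  | nil =>
    cases s with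
    | nil => rfl
    | cons b s =>
      cases b with
      | false => rfl
      | true => simp at h
  | cons a l ih =>
    rw [List.foldl_cons]
    cases s with
    | nil => exact ih [] (by simp)
    | cons b s =>
      cases b with
      | false =>
        have := ih (false :: s) (by simp)
        simpa using this
      | true =>
        have h1 : (s.takeWhile id).length ≤ l.length := by
          simp at h
          exact h
        have := ih s h1
        simpa using this

theorem dw_eq (v : Str) : dw v = v.dropWhile id :=
  dw_aux v v (List.takeWhile_prefix id).length_le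

/-- a string of the length of the first block of ones -/
def tw (v : Str) : Str := dr (dw v) v

theorem dw_drop (v : Str) : v.dropWhile id = v.drop (v.takeWhile id).length := by
  conv_rhs => rw [← List.takeWhile_append_dropWhile (p := id) (l := v)]
  rw [List.drop_left' (by
    rw [List.takeWhile_append_dropWhile])]

theorem tw_length (v : Str) : (tw v).length = (v.takeWhile id).length := by
  unfold tw
  rw [dr_eq, List.length_drop, dw_eq]
  have h := congrArg List.length (List.takeWhile_append_dropWhile (p := id) (l := v))
  rw [List.length_append] at h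
  omega

/-- the parts of a question of the second kind -/
def qv (v : Str) : Str × Str := (dr (tw v) (dw v).tail, tk (tw v) (dw v).tail)

theorem qv_eq (v : Str) : qv v = pv v := by
  unfold qv pv
  have h : (dw v).tail = v.drop ((v.takeWhile id).length + 1) := by
    rw [dw_eq, dw_drop, List.tail_drop]
  rw [dr_eq, tk_eq, tw_length, h]

theorem fmt_eq (χ p : Str) : fmt χ p =
    χ ++ (p ++ true :: ((dr p χ).map (fun _ => false) ++ [true])) := by
  unfold fmt
  rw [dr_eq, List.map_const', List.length_drop]

theorem fmt_length {χ p : Str} (h : p.length ≤ χ.length) :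
    (fmt χ p).length = 2 * χ.length + 2 := by
  unfold fmt
  simp only [List.length_append, List.length_cons, List.length_replicate, List.length_nil]
  omega

/-! ### The algorithm -/

/-- the fourth component of the witness -/
def pP (W : Str) : Str := toStr (tree W).snd.snd.snd

/-- the string which must be a value of `R` -/
def YY (z : Str) : Str := cond (z.headD false) (qv z.tail).1 z.tail

/-- the string at which it must be the value -/
def PS (z W : Str) : Str := cond (z.headD false) (pX W)
  (pX W ++ (pP W ++ true :: ((dr (pP W) (pX W)).map (fun _ => false) ++ [true])))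

/-- the number of the questions -/
def NN (z W : Str) : ℕ := (YY z).length + (pV W).length + 1

/-- the questions -/
def QQ (z W h : Str) : Str :=
  cond (decide (h.length < (YY z).length)) (false :: (h.map (fun _ => true) ++ false :: PS z W))
    (cond (decide ((dr (YY z) h).length < (pV W).length))
      ((pV W).getD (dr (YY z) h).length [])
      (true :: cde (pX W, pW W, pV W, dr (YY z) h)))

/-- the result -/
def FF' (z W h : Str) : Bool :=
  decide ((YY z).length = 10 * (PS z W).length + 1) && (decide (YY z ++ dr (YY z) h = h) &&
    cond (z.headD false) (decide (tk (qv z.tail).2 (pX W) = (qv z.tail).2))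
      (decide (tk (pP W) (cd (pW W, pV W)) = pP W) &&
        (decide ((cd (pW W, pV W)).length ≤ (pX W).length) &&
          (decide (tsz (pW W) (pV W) ≤ (pX W).length) &&
            (dr (YY z) h).getD (pV W).length false))))

/-- the algorithm -/
def AL (p : (Str × Str) × List Bool) : Bool × Str × Bool :=
  (decide (p.2.length < NN p.1.1 p.1.2), QQ p.1.1 p.1.2 p.2, FF' p.1.1 p.1.2 p.2)

section
variable [hC : Fact Core]

theorem pt_pP : PolyF pP := pt_toStr (pt_snd (pt_snd (pt_snd pt_tree)))

theorem pt_tk {γ : Type} [Dat γ] {f g : γ → Str} (hf : PolyF f) (hg : PolyF g) :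
    PolyF (fun x => tk (f x) (g x)) := by
  unfold tk
  exact PolyF.reverse (pt_dr (pt_dr hf hg) (PolyF.reverse hg))

theorem pt_dw : PolyF dw := by
  have h : PolyF (fun v : Str => v.foldl (fun (s : Str) (_ : Bool) =>
      cond (s.headD false) s.tail s) v) := by
    refine PolyF.foldl (f := fun (_ : Str) (s : Str) (_ : Bool) =>
      cond (s.headD false) s.tail s) (by fun_prop) (by fun_prop) (by fun_prop) (fun p => sz p)
      (PolyB.sz (α := Str)) ?_
    intro v l _
    have e : ∀ (l : List Bool) (s : Str), sz (l.foldl (fun (s : Str) (_ : Bool) =>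
        cond (s.headD false) s.tail s) s) ≤ sz s := by
      intro l
      induction l with
      | nil => intro s; exact le_rfl
      | cons a l ih =>
        intro s
        rw [List.foldl_cons]
        refine (ih _).trans ?_
        cases s.headD false with
        | false => exact le_rfl
        | true =>
          rw [cond_true, ← List.drop_one]
          exact sz_drop _ _
    exact e l v
  exact h

theorem pt_tw : PolyF tw := by
  unfold tw
  exact pt_dr pt_dw PolyF.id

theorem pt_qv : PolyF qv := by
  unfold qv
  exact (pt_dr pt_tw (PolyF.tail pt_dw)).pair (pt_tk pt_tw (PolyF.tail pt_dw))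

theorem pt_cd {γ : Type} [Dat γ] {f : γ → Str} {g : γ → List Str} (hf : PolyF f)
    (hg : PolyF g) : PolyF (fun x => cd (f x, g x)) := by
  have h : PolyF cd := codF_pair (codF_list codF_bool) (codF_list (codF_list codF_bool))
  exact h.comp (hf.pair hg)

theorem pt_YY : PolyF YY := by
  unfold YY
  refine PolyF.cond (by fun_prop) ?_ (by fun_prop)
  exact PolyF.fst (pt_qv.comp (by fun_prop))

theorem pt_AL : PolyF AL := by
  have hz : PolyF (fun p : (Str × Str) × List Bool => p.1.1) := by fun_prop
  have hh : PolyF (fun p : (Str × Str) × List Bool => p.2) := by fun_prop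
  have hb : PolyF (fun p : (Str × Str) × List Bool => p.1.1.headD false) := by fun_prop
  have hX : PolyF (fun p : (Str × Str) × List Bool => pX p.1.2) := pt_pX.comp (by fun_prop)
  have hW : PolyF (fun p : (Str × Str) × List Bool => pW p.1.2) := pt_pW.comp (by fun_prop)
  have hV : PolyF (fun p : (Str × Str) × List Bool => pV p.1.2) := pt_pV.comp (by fun_prop)
  have hP : PolyF (fun p : (Str × Str) × List Bool => pP p.1.2) := pt_pP.comp (by fun_prop)
  have hY : PolyF (fun p : (Str × Str) × List Bool => YY p.1.1) := pt_YY.comp (by fun_prop)
  have hq : PolyF (fun p : (Str × Str) × List Bool => (qv p.1.1.tail).2) :=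
    PolyF.snd (pt_qv.comp (by fun_prop))
  have hS : PolyF (fun p : (Str × Str) × List Bool => PS p.1.1 p.1.2) := by
    unfold PS
    refine PolyF.cond hb hX (PolyF.append hX (PolyF.append hP (PolyF.cons (PolyF.const _)
      (PolyF.append ?_ (PolyF.const _)))))
    exact PolyF.map (f := fun _ (_ : Bool) => false) (by fun_prop) (pt_dr hP hX)
  have hd : PolyF (fun p : (Str × Str) × List Bool => dr (YY p.1.1) p.2) := pt_dr hY hh
  have ht : PolyF (fun p : (Str × Str) × List Bool => tsz (pW p.1.2) (pV p.1.2)) := pt_tsz hW hV
  have hcd : PolyF (fun p : (Str × Str) × List Bool => cd (pW p.1.2, pV p.1.2)) := pt_cd hW hV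
  have hc : PolyF (fun p : (Str × Str) × List Bool =>
      cde (pX p.1.2, pW p.1.2, pV p.1.2, dr (YY p.1.1) p.2)) :=
    pt_cde.comp (hX.pair (hW.pair (hV.pair hd)))
  unfold AL
  refine PolyF.pair ?_ (PolyF.pair ?_ ?_)
  · unfold NN
    exact PolyF.nat_lt hh.length (PolyF.nat_add (PolyF.nat_add hY.length hV.length)
      (PolyF.const _))
  · unfold QQ
    refine PolyF.cond (PolyF.nat_lt hh.length hY.length) ?_ (PolyF.cond
      (PolyF.nat_lt hd.length hV.length) (PolyF.getD hV hd.length (PolyF.const _))
      (PolyF.cons (PolyF.const _) hc))
    refine PolyF.cons (PolyF.const _) (PolyF.append ?_ (PolyF.cons (PolyF.const _) hS))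
    exact PolyF.map (f := fun _ (_ : Bool) => true) (by fun_prop) hh
  · unfold FF'
    refine PolyF.and ?_ (PolyF.and (PolyF.eq (PolyF.append hY hd) hh) (PolyF.cond hb
      (PolyF.eq (pt_tk hq hX) hq) (PolyF.and (PolyF.eq (pt_tk hP hcd) hP) (PolyF.and
        (PolyF.nat_le hcd.length hX.length) (PolyF.and (PolyF.nat_le ht hX.length)
          (PolyF.getD hd hV.length (PolyF.const _)))))))
    have h10 : PolyF (fun p : (Str × Str) × List Bool =>
        ((PS p.1.1 p.1.2).flatMap fun _ => List.replicate 10 true).length + 1) := by
      refine PolyF.nat_add (PolyF.length ?_) (PolyF.const _)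
      exact PolyF.flatMap (f := fun _ (_ : Bool) => List.replicate 10 true) (by fun_prop) hS
    refine (PolyF.eq_nat hY.length h10).congr fun p => ?_
    have e : ((PS p.1.1 p.1.2).flatMap fun _ => List.replicate 10 true).length =
        10 * (PS p.1.1 p.1.2).length := by
      rw [List.length_flatMap]
      simp [mul_comm]
    rw [e]

end

/-! ### The run -/

theorem QQ_one {z W h : Str} (hh : h.length < (YY z).length) :
    QQ z W h = qst h.length (PS z W) := by
  unfold QQ qst
  rw [decide_eq_true hh, cond_true, List.map_const']

theorem QQ_two {z W h : Str} (h1 : (YY z).length ≤ h.length)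
    (h2 : (dr (YY z) h).length < (pV W).length) :
    QQ z W h = (pV W)[(dr (YY z) h).length] := by
  unfold QQ
  rw [decide_eq_false (by omega), cond_false, decide_eq_true h2, cond_true,
    List.getD_eq_getElem _ _ h2]

theorem QQ_three {z W h : Str} (h1 : (YY z).length ≤ h.length)
    (h2 : (pV W).length ≤ (dr (YY z) h).length) :
    QQ z W h = true :: cde (pX W, pW W, pV W, dr (YY z) h) := by
  unfold QQ
  rw [decide_eq_false (by omega), cond_false, decide_eq_false (by omega), cond_false]

section
variable (U : Str → Bool) (R : Str → Str) (z W : Str)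

theorem hst_one : ∀ k, k ≤ (YY z).length → hst (orc U R) (QQ z W) k =
    (List.range k).map fun i => (R (PS z W)).getD i false := by
  intro k
  induction k with
  | zero => intro _; rfl
  | succ k ih =>
    intro hk
    have h1 : QQ z W (hst (orc U R) (QQ z W) k) = qst k (PS z W) := by
      rw [QQ_one (by rw [hst_length]; omega), hst_length]
    rw [hst, h1, orc_qst, ih (by omega), List.range_succ, List.map_append]
    rfl

theorem hst_two : ∀ j, j ≤ (pV W).length → hst (orc U R) (QQ z W) ((YY z).length + j) =
    hst (orc U R) (QQ z W) (YY z).length ++ ((pV W).take j).map (orc U R) := by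
  intro j
  induction j with
  | zero => intro _; simp
  | succ j ih =>
    intro hj
    have e := ih (by omega)
    have hl : j < (pV W).length := by omega
    have h1 : QQ z W (hst (orc U R) (QQ z W) ((YY z).length + j)) = (pV W)[j] := by
      have e2 : (dr (YY z) (hst (orc U R) (QQ z W) ((YY z).length + j))).length = j := by
        rw [dr_eq, List.length_drop, hst_length]
        omega
      rw [QQ_two (by rw [hst_length]; omega) (by rw [e2]; exact hl)]
      simp only [e2]
    rw [← Nat.add_assoc, hst, h1, e, List.append_assoc]
    congr 1
    rw [List.take_add_one, List.map_append, List.getElem?_eq_getElem hl]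
    rfl

theorem hst_three : hst (orc U R) (QQ z W) (NN z W) =
    ((List.range (YY z).length).map fun i => (R (PS z W)).getD i false) ++
      ((pV W).map (orc U R) ++ [U (cde (pX W, pW W, pV W, (pV W).map (orc U R)))]) := by
  have e := hst_two U R z W (pV W).length le_rfl
  rw [List.take_length] at e
  have e1 := hst_one U R z W (YY z).length le_rfl
  have hl := hst_length (orc U R) (QQ z W) (YY z).length
  have e3 : dr (YY z) (hst (orc U R) (QQ z W) ((YY z).length + (pV W).length)) =
      (pV W).map (orc U R) := by
    rw [dr_eq, e, List.drop_append, hl, Nat.sub_self, List.drop_zero,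
      List.drop_eq_nil_of_le hl.le, List.nil_append]
  have h1 : QQ z W (hst (orc U R) (QQ z W) ((YY z).length + (pV W).length)) =
      true :: cde (pX W, pW W, pV W, (pV W).map (orc U R)) := by
    rw [QQ_three (by rw [hst_length]; omega) (by rw [e3, List.length_map]), e3]
  unfold NN
  rw [hst, h1, e, e1, List.append_assoc]
  rfl

theorem FF_iff (hR : Reg R) : FF' z W (hst (orc U R) (QQ z W) (NN z W)) = true ↔
    R (PS z W) = YY z ∧ (cond (z.headD false) (decide (tk (qv z.tail).2 (pX W) = (qv z.tail).2))
      (decide (tk (pP W) (cd (pW W, pV W)) = pP W) &&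
        (decide ((cd (pW W, pV W)).length ≤ (pX W).length) &&
          (decide (tsz (pW W) (pV W) ≤ (pX W).length) &&
            U (cde (pX W, pW W, pV W, (pV W).map (orc U R))))))) = true := by
  have hl : ((List.range (YY z).length).map fun i => (R (PS z W)).getD i false).length =
      (YY z).length := by
    rw [List.length_map, List.length_range]
  have hd : dr (YY z) (hst (orc U R) (QQ z W) (NN z W)) = (pV W).map (orc U R) ++
      [U (cde (pX W, pW W, pV W, (pV W).map (orc U R)))] := by
    rw [dr_eq, hst_three, List.drop_append, hl, Nat.sub_self, List.drop_zero,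
      List.drop_eq_nil_of_le hl.le, List.nil_append]
  have hg : ((pV W).map (orc U R) ++ [U (cde (pX W, pW W, pV W, (pV W).map (orc U R)))]).getD
      (pV W).length false = U (cde (pX W, pW W, pV W, (pV W).map (orc U R))) := by
    rw [List.getD_append_right _ _ _ _ (by rw [List.length_map]), List.length_map, Nat.sub_self]
    rfl
  unfold FF'
  rw [hd, hg, hst_three]
  rw [Bool.and_eq_true, Bool.and_eq_true, decide_eq_true_eq, decide_eq_true_eq]
  rw [List.append_cancel_right_eq]
  constructor
  · rintro ⟨a, b, c⟩
    refine ⟨?_, c⟩
    rw [b]
    refine List.ext_getElem ?_ ?_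
    · rw [List.length_map, List.length_range, a, hR.len]
    · intro i h1 h2
      rw [List.getElem_map, List.getElem_range, List.getD_eq_getElem _ _ h1]
  · rintro ⟨b, c⟩
    refine ⟨?_, ?_, c⟩
    · rw [← b, hR.len]
    · rw [b]
      refine List.ext_getElem ?_ ?_
      · rw [List.length_map, List.length_range]
      · intro i h1 h2
        rw [List.getElem_map, List.getElem_range, List.getD_eq_getElem _ _ h1]

end

/-! ### The witness -/

theorem pP_cde (ψ w : Str) (vs : List Str) (p : Str) : pP (cde (ψ, w, vs, p)) = p := by
  unfold pP
  rw [tree_cde]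
  exact toStr_enc p

theorem cde_len (ψ w : Str) (vs : List Str) (p : Str) :
    (cde (ψ, w, vs, p)).length ≤ 4 * ψ.length + 4 * tsz w vs + 4 * p.length + 20 := by
  unfold cde
  rw [cod_length]
  change sz (ψ, w, vs, p) ≤ _
  rw [sz_pair, sz_pair, sz_pair]
  have h1 := sz_strs w vs
  have h2 := sz_bits_le ψ
  have h3 := sz_bits_le p
  omega

theorem pv_len (v : Str) : (pv v).1.length ≤ v.length := by
  unfold pv
  simp only [List.length_drop]
  omega

theorem PS_false (y W : Str) : PS (false :: y) W = fmt (pX W) (pP W) := by
  rw [fmt_eq]
  rfl

theorem YY_true (v : Str) : YY (true :: v) = (pv v).1 := by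
  rw [← qv_eq]
  rfl

end MED_

open MED_ in
theorem p_MED (h1 : Pool.Agent.RDS.T_CNV) : T_MED := by
  intro E R hR
  have : Fact Core := ⟨Pool.Agent.PT.core⟩
  obtain ⟨c, hc⟩ := (pt_pV).bound
  refine ⟨Polynomial.C 12 * Polynomial.X + Polynomial.C 20,
    fun p => FF' p.1 p.2 (hst (orc (UU E) R) (QQ p.1 p.2) (NN p.1 p.2)),
    ⟨fun p => mvOf (AL p), (Polynomial.C 4 * Polynomial.X + Polynomial.C 3) ^ c +
      Polynomial.X + Polynomial.C 2, h1.1 AL pt_AL, ?_⟩, ?_⟩
  · rintro ⟨z, W⟩
    have e := run_eq (orc (UU E) R) (fun p => mvOf (AL p)) (z, W) (NN z W) (QQ z W)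
      (fun h => FF' z W h) (fun h hh => by
        simp only [AL, mvOf, decide_eq_true hh, cond_true]) (fun h hh => by
        simp only [AL, mvOf, decide_eq_false (Nat.not_lt.2 hh.ge), cond_false])
      (NN z W) 0 (((Polynomial.C 4 * Polynomial.X + Polynomial.C 3) ^ c +
        Polynomial.X + Polynomial.C 2).eval (encPair (z, W)).length) (by omega) ?_
    · exact e
    · have hl : (encPair (z, W)).length = z.length + W.length := by
        unfold encPair
        rw [List.length_append, List.length_map, List.length_map]
      rw [hl]
      simp only [Polynomial.eval_pow, Polynomial.eval_add, Polynomial.eval_mul,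
        Polynomial.eval_C, Polynomial.eval_X]
      have e1 : sz (pV W) ≤ (sz W + 2) ^ c := hc W
      have e2 := sz_bits_le W
      have e3 := length_lt_sz (pV W)
      have e4 : (sz W + 2) ^ c ≤ (4 * (z.length + W.length) + 3) ^ c :=
        Nat.pow_le_pow_left (by omega) c
      have e5 : (YY z).length ≤ z.length := by
        cases z with
        | nil => exact le_rfl
        | cons b z =>
          cases b with
          | false => exact Nat.le_succ _
          | true =>
            rw [YY_true]
            exact (pv_len z).trans (Nat.le_succ _)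
      unfold NN
      omega
  · intro z
    constructor
    · intro hz
      cases z with
      | nil => exact absurd hz (nil_AD _ _)
      | cons b y =>
        cases b with
        | false =>
          obtain ⟨ψ, ⟨χ, p, c', rfl, hpc, hcl, w, vs, hcd, ht, hk⟩, hy⟩ := hz
          have hpl : p.length ≤ χ.length := hpc.length_le.trans hcl
          refine ⟨cde (χ, w, vs, p), ?_, ?_⟩
          · simp only [Polynomial.eval_add, Polynomial.eval_mul, Polynomial.eval_C,
              Polynomial.eval_X]
            have e1 := cde_len χ w vs p
            have e2 := hR.len (fmt χ p)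
            rw [fmt_length hpl, hy] at e2
            rw [List.length_cons]
            omega
          · change FF' (false :: y) (cde (χ, w, vs, p)) _ = true
            rw [FF_iff _ _ _ _ hR, PS_false, pX_cde, pW_cde, pV_cde, pP_cde, hcd]
            refine ⟨hy, ?_⟩
            change (decide _ && (decide _ && (decide _ && _))) = true
            simp only [Bool.and_eq_true, decide_eq_true_eq]
            exact ⟨(tk_iff _ _).2 hpc, hcl, ht, (UU_cde E _ _ _ _).2 hk⟩
        | true =>
          obtain ⟨ψ, hp, hy⟩ := hz
          refine ⟨cde (ψ, [], [], []), ?_, ?_⟩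
          · simp only [Polynomial.eval_add, Polynomial.eval_mul, Polynomial.eval_C,
              Polynomial.eval_X]
            have e1 := cde_len ψ [] [] []
            have e2 := hR.len ψ
            rw [hy] at e2
            have e3 := pv_len y
            have e4 : tsz [] [] = 0 := rfl
            rw [e4, List.length_nil] at e1
            rw [List.length_cons]
            omega
          · change FF' (true :: y) (cde (ψ, [], [], [])) _ = true
            rw [FF_iff _ _ _ _ hR, YY_true]
            have e1 : PS (true :: y) (cde (ψ, [], [], [])) = ψ := pX_cde ψ [] [] []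
            rw [e1, pX_cde]
            refine ⟨hy, ?_⟩
            change decide (tk (qv y).2 ψ = (qv y).2) = true
            rw [decide_eq_true_eq, qv_eq]
            exact (tk_iff _ _).2 hp
    · rintro ⟨W, _, hW⟩
      change FF' z W _ = true at hW
      rw [FF_iff _ _ _ _ hR] at hW
      obtain ⟨h2, h3⟩ := hW
      cases z with
      | nil =>
        have := congrArg List.length h2
        rw [hR.len] at this
        change _ = 0 at this
        omega
      | cons b y =>
        cases b with
        | false =>
          rw [PS_false] at h2
          change (decide _ && (decide _ && (decide _ && _))) = true at h3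
          simp only [Bool.and_eq_true, decide_eq_true_eq] at h3
          exact ⟨_, ⟨pX W, pP W, cd (pW W, pV W), rfl, (tk_iff _ _).1 h3.1, h3.2.1,
            pW W, pV W, rfl, h3.2.2.1, (UU_cde E _ _ _ _).1 h3.2.2.2⟩, h2⟩
        | true =>
          rw [YY_true] at h2
          change decide (tk (qv y).2 (pX W) = (qv y).2) = true at h3
          rw [decide_eq_true_eq, qv_eq] at h3
          exact ⟨pX W, (tk_iff _ _).1 h3, h2⟩

end Pool.Agent.RAD
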