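import Pool.Agent.RAD.Targets

set_option autoImplicit false

/-! # RAD, PRD: a failure depends on finitely many values -/

namespace Pool.Agent.RAD

open Pool.Agent.DSR (Lang PolyTime encPair encBool Ans Letter encAns)
open Pool.Agent.RDS
open Pool.Agent.RTS (Cer SS)

namespace PRD_

theorem agr_mono {R R' : Str → Str} {m n : ℕ} (h : Agr n R R') (hmn : m ≤ n) : Agr m R R' :=
  fun u hu => h u (lt_of_lt_of_le hu hmn)

theorem agr_symm {R R' : Str → Str} {m : ℕ} (h : Agr m R R') : Agr m R' R :=
  fun u hu => (h u hu).symm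

theorem pv_fst_len (v : Str) : (pv v).1.length ≤ v.length := by
  unfold pv
  simp only [List.length_drop]
  omega

theorem AD_imp {K : (Str → Str) → Set Str} (hK : KOkD K) {R R' : Str → Str} (hR : Reg R)
    {z : Str} (h : Agr z.length R R') (hz : z ∈ AD K R) : z ∈ AD K R' := by
  rcases z with _ | ⟨b, v⟩
  · exact absurd hz (nil_AD K R)
  cases b with
  | false =>
    rw [false_AD] at hz ⊢
    obtain ⟨ψ, h1, h2⟩ := hz
    have h3 : ψ.length < (false :: v).length := by
      rw [List.length_cons, ← h2, hR.len]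
      omega
    obtain ⟨S, -, h4, h5⟩ := hK.cert R ψ h1
    refine ⟨ψ, h5 R' fun u hu => ?_, by rw [← h ψ h3, h2]⟩
    have h6 := h4 u hu
    exact (h u (by omega)).symm
  | true =>
    rw [true_AD] at hz ⊢
    obtain ⟨ψ, h1, h2⟩ := hz
    have h3 : ψ.length < (true :: v).length := by
      have h4 := pv_fst_len v
      rw [← h2, hR.len] at h4
      rw [List.length_cons]
      omega
    exact ⟨ψ, h1, by rw [← h ψ h3, h2]⟩

theorem AD_iff {K : (Str → Str) → Set Str} (hK : KOkD K) {R R' : Str → Str} (hR : Reg R)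
    (hR' : Reg R') {z : Str} {m : ℕ} (h : Agr m R R') (hz : z.length ≤ m) :
    z ∈ AD K R ↔ z ∈ AD K R' :=
  ⟨AD_imp hK hR (agr_mono h hz), AD_imp hK hR' (agr_mono (agr_symm h) hz)⟩

/-- a bound for the lengths of the members of a finite set -/
def bd (s : Finset Str) : ℕ := s.sup List.length

theorem le_bd {s : Finset Str} {u : Str} (h : u ∈ s) : u.length ≤ bd s :=
  Finset.le_sup (f := List.length) h

theorem g_eq (G : Alg) {R R' : Str → Str} {y : Str} {m : ℕ} (h : Agr m R R')
    (hm : bd (G.T R y) < m) : G.g R' y = G.g R y :=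
  (G.loc R R' y fun u hu => h u (lt_of_le_of_lt (le_bd hu) hm)).1

end PRD_

open PRD_ in
theorem p_PRD : T_PRD := by
  intro K hK G q R hR hC
  unfold CorrD at hC
  rw [not_and_or] at hC
  rcases hC with hC | hC
  · push Not at hC
    obtain ⟨x, hx⟩ := hC
    have key : ∀ a, G.g R x = some a → ∃ m, ∀ R', Reg R' → Agr m R R' →
        (Right (AD K R') x a ↔ Right (AD K R) x a) := by
      intro a _
      cases a with
      | accept =>
        exact ⟨x.length, fun R' hR' h => (AD_iff hK hR hR' h le_rfl).symm⟩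
      | reject =>
        exact ⟨x.length, fun R' hR' h => not_congr (AD_iff hK hR hR' h le_rfl).symm⟩
      | ask l =>
        refine ⟨max x.length (bd l.toFinset), fun R' hR' h => ?_⟩
        have h1 := AD_iff hK hR hR' h (le_max_left _ _)
        have h2 : (∃ y ∈ l, y ∈ AD K R') ↔ ∃ y ∈ l, y ∈ AD K R := by
          refine exists_congr fun y => and_congr_right fun hy => ?_
          exact (AD_iff hK hR hR' h ((le_bd (List.mem_toFinset.mpr hy)).trans
            (le_max_right _ _))).symm
        change (x ∈ AD K R' ↔ ∃ y ∈ l, y ∈ AD K R') ↔ (x ∈ AD K R ↔ ∃ y ∈ l, y ∈ AD K R)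
        rw [← h1, h2]
    cases hg : G.g R x with
    | none =>
      refine ⟨bd (G.T R x) + 1, fun R' hR' h hC' => ?_⟩
      obtain ⟨a, h1, -⟩ := hC'.1 x
      rw [g_eq G h (Nat.lt_succ_self _), hg] at h1
      exact absurd h1 (by simp)
    | some a =>
      obtain ⟨m, hm⟩ := key a hg
      refine ⟨max m (bd (G.T R x) + 1), fun R' hR' h hC' => ?_⟩
      obtain ⟨b, h1, h2⟩ := hC'.1 x
      rw [g_eq G h (lt_of_lt_of_le (Nat.lt_succ_self _) (le_max_right _ _)), hg] at h1
      obtain rfl : a = b := Option.some.inj h1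
      exact hx a hg ((hm R' hR' (agr_mono h (le_max_left _ _))).mp h2)
  · push Not at hC
    obtain ⟨c, k, hch, hb⟩ := hC
    refine ⟨(Finset.range k).sup (fun i => bd (G.T R (c i))) + 1, fun R' hR' h hC' => ?_⟩
    have h1 : Chn G R' c k := by
      intro i hi
      obtain ⟨l, h2, h3⟩ := hch i hi
      refine ⟨l, ?_, h3⟩
      rw [g_eq G h ?_, h2]
      exact Nat.lt_succ_of_le (Finset.le_sup (f := fun i => bd (G.T R (c i)))
        (Finset.mem_range.mpr hi))
    obtain ⟨h4, h5⟩ := hC'.2 c k h1
    exact absurd h5 (not_le.mpr (hb h4))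

end Pool.Agent.RAD
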