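import Pool.Agent.RAD.Targets
import Pool.Agent.RTS.P_SEL

set_option autoImplicit false

/-!
# RAD, target SED: a good oracle
-/

namespace Pool.Agent.RAD

open Pool.Agent.DSR (Lang PolyTime encPair encBool Ans Letter encAns)
open Pool.Agent.RDS
open Pool.Agent.RTS (Cer SS join asked TurChain GenTuringSelfRed)

namespace SED_

theorem swap {Ω : Type*} [Fintype Ω] (F : Finset Str) (p : Str → Ω → Prop) :
    ∑ ω : Ω, {ψ | ψ ∈ F ∧ p ψ ω}.ncard = ∑ ψ ∈ F, {ω | p ψ ω}.ncard := by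
  classical
  have h1 : ∀ ω : Ω, {ψ | ψ ∈ F ∧ p ψ ω}.ncard = ∑ ψ ∈ F, if p ψ ω then 1 else 0 := by
    intro ω
    rw [← Finset.card_filter, ← Set.ncard_coe_finset]
    congr 1
    ext ψ
    simp
  have h2 : ∀ ψ : Str, {ω | p ψ ω}.ncard = ∑ ω : Ω, if p ψ ω then 1 else 0 := by
    intro ψ
    rw [← Finset.card_filter, ← Set.ncard_coe_finset]
    congr 1
    ext ω
    simp
  simp only [h1, h2]
  exact Finset.sum_comm

end SED_

open SED_ in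
theorem p_SED (h1 : T_IND) (h2 : Pool.Agent.RDS.T_INJC) : T_SED := by
  intro G R₀ hR₀ m N s hm1 hNs hsm hP
  classical
  have hC : 0 < Fintype.card (Om m N) :=
    Fintype.card_pos_iff.2 ⟨fun u => List.Vector.replicate _ false⟩
  set C := Fintype.card (Om m N) with hCdef
  have hb1 : {ω : Om m N | ¬ Reg (ex R₀ ω)}.ncard * 8 ≤ C :=
    h2 R₀ m N hR₀ hm1 (hNs.trans (Nat.pow_le_pow_right (by norm_num) hsm))
  have hb2 : {ω : Om m N | 2 * 2 ^ (3 * s + 3) <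
      {ψ | ψ ∈ FF m N ∧ ψ ∈ TD G (ex R₀ ω) (s + 1) (ex R₀ ω ψ)}.ncard}.ncard * 2 ≤ C := by
    refine Pool.Agent.RTS.SEL_.markov
      (fun ω : Om m N => {ψ | ψ ∈ FF m N ∧ ψ ∈ TD G (ex R₀ ω) (s + 1) (ex R₀ ω ψ)}.ncard)
      (2 ^ (3 * s + 3)) C (by positivity) ?_
    rw [swap (FF m N) fun ψ (ω : Om m N) => ψ ∈ TD G (ex R₀ ω) (s + 1) (ex R₀ ω ψ)]
    refine (h1 G R₀ m N s (s + 1) hP).trans ?_
    refine Nat.mul_le_mul_right _ ?_
    have h3 : 1 + 2 ^ (s + 1 + 1) ≤ 2 ^ (s + 3) := by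
      have h4 : 1 ≤ 2 ^ s := Nat.one_le_two_pow
      rw [pow_add 2 s 3, show s + 1 + 1 = s + 2 from rfl, pow_add 2 s 2]
      omega
    calc N * (2 ^ s * (1 + 2 ^ (s + 1 + 1))) ≤ 2 ^ s * (2 ^ s * 2 ^ (s + 3)) :=
          Nat.mul_le_mul hNs (Nat.mul_le_mul_left _ h3)
      _ = 2 ^ (3 * s + 3) := by
          rw [← pow_add, ← pow_add]
          congr 1
          ring
  obtain ⟨ω, ha, hb⟩ : ∃ ω : Om m N, Reg (ex R₀ ω) ∧
      {ψ | ψ ∈ FF m N ∧ ψ ∈ TD G (ex R₀ ω) (s + 1) (ex R₀ ω ψ)}.ncard ≤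
        2 * 2 ^ (3 * s + 3) := by
    by_contra hcon
    push Not at hcon
    set B1 := {ω : Om m N | ¬ Reg (ex R₀ ω)} with hB1
    set B2 := {ω : Om m N | 2 * 2 ^ (3 * s + 3) <
      {ψ | ψ ∈ FF m N ∧ ψ ∈ TD G (ex R₀ ω) (s + 1) (ex R₀ ω ψ)}.ncard} with hB2
    have hU : (Set.univ : Set (Om m N)) ⊆ B1 ∪ B2 := by
      intro ω _
      by_cases c1 : Reg (ex R₀ ω)
      · exact Or.inr (hcon ω c1)
      · exact Or.inl c1
    have h5 := Set.ncard_le_ncard hU (Set.toFinite _)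
    rw [Set.ncard_univ, Nat.card_eq_fintype_card, ← hCdef] at h5
    have h6 := Set.ncard_union_le B1 B2
    omega
  have hagr : Agr (m + 1) R₀ (ex R₀ ω) := by
    intro u hu
    unfold ex
    rw [dif_neg]
    rw [mem_FF]
    omega
  refine ⟨ex R₀ ω, ha, hagr, hb.trans (le_of_eq ?_)⟩
  rw [show 3 * s + 4 = (3 * s + 3) + 1 from rfl, pow_succ]
  ring

end Pool.Agent.RAD
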