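import Pool.Agent.RAD.Targets

set_option autoImplicit false

/-!
# The chains of the adaptive self-reduction
-/

namespace Pool.Agent.RAD

open Pool.Agent.DSR (Lang PolyTime encPair encBool Ans Letter encAns)
open Pool.Agent.RDS
open Pool.Agent.RTS (Cer SS)

namespace TCH_

theorem fmt_length {χ p : Str} (h : p.length ≤ χ.length) :
    (fmt χ p).length = 2 * χ.length + 2 := by
  unfold fmt
  simp only [List.length_append, List.length_cons, List.length_replicate, List.length_nil]
  omega

theorem pq_length (y p : Str) : (pq y p).length = 2 * p.length + y.length + 1 := by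
  unfold pq
  simp only [List.length_append, List.length_cons, List.length_replicate]
  omega

theorem pv_length (v : Str) : (pv v).1.length ≤ v.length := by
  unfold pv
  simp only [List.length_drop]
  omega

theorem snoc_length (p : Str) (b : Bool) : (p ++ [b]).length = p.length + 1 := by simp

/-- the invariant -/
def Inv (R : Str → Str) (L : ℕ) (i : ℕ) (x : Str) : Prop :=
  (∃ χ p : Str, x = false :: R (fmt χ p) ∧ i ≤ p.length ∧ p.length ≤ χ.length ∧
    20 * χ.length + 22 ≤ L) ∨
  ∃ (y p : Str) (s : ℕ), x = true :: pq y p ∧ y.length ≤ L ∧ 10 * p.length < y.length + 10 ∧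
    i ≤ s + p.length ∧ 20 * s ≤ L

theorem base {R : Str → Str} (hR : Reg R) {x x' : Str} (h : Nxt R x x') :
    Inv R x.length 1 x' := by
  rcases h with ⟨y, p, b, rfl, hp, hx⟩ | ⟨χ, p, b, hp, rfl, rfl⟩
  · refine Or.inr ⟨y, p ++ [b], 0, rfl, ?_, ?_, ?_, ?_⟩
    · rcases hx with rfl | ⟨v, rfl, hv⟩
      · rw [List.length_cons]
        omega
      · have h1 : y.length ≤ v.length := by
          have h2 := pv_length v
          rw [hv] at h2
          exact h2
        rw [List.length_cons]
        omega
    · rw [snoc_length]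
      omega
    · rw [snoc_length]
      omega
    · omega
  · refine Or.inl ⟨χ, p ++ [b], rfl, ?_, ?_, ?_⟩
    · rw [snoc_length]
      omega
    · rw [snoc_length]
      omega
    · rw [List.length_cons, hR.len, fmt_length hp.le]
      omega

theorem step (h_FMT : T_FMT) {R : Str → Str} (hR : Reg R) {L i : ℕ} {x x' : Str}
    (hi : Inv R L i x) (h : Nxt R x x') : Inv R L (i + 1) x' := by
  rcases hi with ⟨χ, p, rfl, h1, h2, h3⟩ | ⟨y, p, s, rfl, h1, h2, h3, h4⟩
  · rcases h with ⟨y', p', b, rfl, hp, hx⟩ | ⟨χ', p', b, hp, hx, rfl⟩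
    · rcases hx with hx | ⟨v, hv, -⟩
      · have hy : R (fmt χ p) = y' := (List.cons.inj hx).2
        have hl : y'.length = 20 * χ.length + 21 := by
          rw [← hy, hR.len, fmt_length h2]
          omega
        refine Or.inr ⟨y', p' ++ [b], i, rfl, ?_, ?_, ?_, ?_⟩
        · omega
        · rw [snoc_length]
          omega
        · rw [snoc_length]
          omega
        · omega
      · exact absurd (List.cons.inj hv).1 (by decide)
    · have hy : R (fmt χ p) = R (fmt χ' p') := (List.cons.inj hx).2
      obtain ⟨rfl, rfl⟩ := h_FMT.1 χ p χ' p' h2 hp.le (hR.inj hy)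
      refine Or.inl ⟨χ, p ++ [b], rfl, ?_, ?_, h3⟩
      · rw [snoc_length]
        omega
      · rw [snoc_length]
        omega
  · rcases h with ⟨y', p', b, rfl, hp, hx⟩ | ⟨χ', p', b, hp, hx, rfl⟩
    · rcases hx with hx | ⟨v, hv, hpv⟩
      · exact absurd (List.cons.inj hx).1 (by decide)
      · have hv' : pq y p = v := (List.cons.inj hv).2
        rw [← hv', pv_pq, Prod.mk.injEq] at hpv
        obtain ⟨rfl, rfl⟩ := hpv
        refine Or.inr ⟨y, p ++ [b], s, rfl, h1, ?_, ?_, h4⟩
        · rw [snoc_length]
          omega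
        · rw [snoc_length]
          omega
    · exact absurd (List.cons.inj hx).1 (by decide)

theorem inv (h_FMT : T_FMT) {R : Str → Str} (hR : Reg R) {c : ℕ → Str} {k : ℕ}
    (h : ∀ i < k, Nxt R (c i) (c (i + 1))) :
    ∀ i < k, Inv R (c 0).length (i + 1) (c (i + 1)) := by
  intro i
  induction i with
  | zero =>
    intro h0
    exact base hR (h 0 h0)
  | succ j ih =>
    intro hj
    exact step h_FMT hR (ih (by omega)) (h (j + 1) hj)

end TCH_

/-- The chains of the adaptive self-reduction. -/
theorem p_TCH (h1 : T_FMT) : T_TCH := by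
  intro R hR c k h
  rcases Nat.eq_zero_or_pos k with rfl | hk
  · omega
  · obtain ⟨j, rfl⟩ : ∃ j, k = j + 1 := ⟨k - 1, by omega⟩
    rcases TCH_.inv h1 hR h j (by omega) with ⟨χ, p, hx, h2, h3, h4⟩ | ⟨y, p, s, hx, h2, h3, h4, h5⟩
    · rw [hx, List.length_cons, hR.len, TCH_.fmt_length h3]
      omega
    · rw [hx, List.length_cons, TCH_.pq_length]
      omega

end Pool.Agent.RAD
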