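import Pool.Agent.RAD.Targets

set_option autoImplicit false

/-!
# RAD, TOD: few strings are nearly given
-/

namespace Pool.Agent.RAD

open Pool.Agent.DSR (Lang PolyTime encPair encBool Ans Letter encAns)
open Pool.Agent.RDS
open Pool.Agent.RTS (Cer SS join asked TurChain GenTuringSelfRed)

namespace TOD_

/-- the strings of length at most `e` -/
noncomputable def short (e : ℕ) : Finset Str :=
  (Finset.range (e + 1)).biUnion fun j =>
    (Finset.univ : Finset (List.Vector Bool j)).image fun w => w.toList

theorem mem_short {e : ℕ} {s : Str} (h : s.length ≤ e) : s ∈ short e := by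
  unfold short
  refine Finset.mem_biUnion.2 ⟨s.length, Finset.mem_range.2 (by omega), ?_⟩
  exact Finset.mem_image.2 ⟨⟨s, rfl⟩, Finset.mem_univ _, rfl⟩

theorem card_short (e : ℕ) : (short e).card ≤ 2 ^ (e + 1) := by
  unfold short
  refine Finset.card_biUnion_le.trans ?_
  calc ∑ j ∈ Finset.range (e + 1),
        ((Finset.univ : Finset (List.Vector Bool j)).image fun w => w.toList).card
      ≤ ∑ j ∈ Finset.range (e + 1), 2 ^ j := by
        refine Finset.sum_le_sum fun j _ => Finset.card_image_le.trans ?_
        rw [Finset.card_univ, card_vector, Fintype.card_bool]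
    _ ≤ 2 ^ (e + 1) := by
        have h := Nat.geomSum_lt (m := 2) (n := e + 1) (s := Finset.range (e + 1)) le_rfl
          (fun j hj => Finset.mem_range.1 hj)
        exact h.le

open Classical in
/-- the strings which are nearly given by the question `x` -/
noncomputable def near (e : ℕ) (x : Str) : Finset Str :=
  (short e).image fun s => (pv x.tail).2 ++ s

theorem card_near (e : ℕ) (x : Str) : (near e x).card ≤ 2 ^ (e + 1) :=
  Finset.card_image_le.trans (card_short e)

theorem mem_near {e : ℕ} {v ψ : Str} (h1 : (pv v).2 <+: ψ)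
    (h2 : ψ.length ≤ (pv v).2.length + e) : ψ ∈ near e (true :: v) := by
  obtain ⟨s, hs⟩ := h1
  unfold near
  refine Finset.mem_image.2 ⟨s, mem_short ?_, ?_⟩
  · have h := congrArg List.length hs
    rw [List.length_append] at h
    omega
  · rw [List.tail_cons]
    exact hs

end TOD_

theorem p_TOD : T_TOD := by
  classical
  intro G R e y
  have hTc : (G.T R (false :: y)).card ≤ G.P.eval (y.length + 1) := by
    have h := G.cardT R (false :: y)
    rwa [List.length_cons] at h
  obtain ⟨L, hL, hLc⟩ : ∃ L : Finset Str, (∀ l, G.g R (false :: y) = some (.ask l) →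
      ∀ x ∈ l, x ∈ L) ∧ L.card ≤ G.P.eval (y.length + 1) := by
    by_cases h : ∃ l, G.g R (false :: y) = some (.ask l)
    · obtain ⟨l, hl⟩ := h
      refine ⟨l.toFinset, fun l' hl' x hx => ?_, ?_⟩
      · rw [hl] at hl'
        cases hl'
        exact List.mem_toFinset.2 hx
      · have h := G.kids R (false :: y) l hl
        rw [List.length_cons] at h
        exact (List.toFinset_card_le l).trans h
    · exact ⟨∅, fun l hl => absurd ⟨l, hl⟩ h, by simp⟩
  have hsub : TD G R e y ⊆
      ((G.T R (false :: y) ∪ L.biUnion (TOD_.near e) : Finset Str) : Set Str) := by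
    rintro ψ (h | ⟨l, v, h1, h2, h3, h4⟩)
    · exact Finset.mem_coe.2 (Finset.mem_union_left _ h)
    · exact Finset.mem_coe.2 (Finset.mem_union_right _
        (Finset.mem_biUnion.2 ⟨true :: v, hL l h1 _ h2, TOD_.mem_near h3 h4⟩))
  have hcard : (G.T R (false :: y) ∪ L.biUnion (TOD_.near e)).card ≤
      G.P.eval (y.length + 1) * (1 + 2 ^ (e + 1)) := by
    have h1 : (L.biUnion (TOD_.near e)).card ≤ L.card * 2 ^ (e + 1) :=
      Finset.card_biUnion_le_card_mul _ _ _ fun x _ => TOD_.card_near e x
    have h2 : L.card * 2 ^ (e + 1) ≤ G.P.eval (y.length + 1) * 2 ^ (e + 1) :=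
      Nat.mul_le_mul_right _ hLc
    have h3 := Finset.card_union_le (G.T R (false :: y)) (L.biUnion (TOD_.near e))
    rw [Nat.mul_add, Nat.mul_one]
    omega
  refine ⟨(Finset.finite_toSet _).subset hsub, ?_⟩
  refine le_trans ?_ hcard
  have h := Set.ncard_le_ncard hsub (Finset.finite_toSet _)
  rwa [Set.ncard_coe_finset] at h

end Pool.Agent.RAD
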