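import Pool.Agent.RAD.Targets
import Pool.Agent.RAD.P_FMT
import Pool.Agent.RDS.P_MEM
import Pool.Agent.RDS.P_CNV

set_option autoImplicit false
set_option linter.unusedSectionVars false

/-!
# TSR: the adaptive self-reduction (project RAD, block by helper36)
-/

namespace Pool.Agent.RAD

open Pool.Agent.DSR (Lang PolyTime encPair encBool Ans Letter encAns tree toStr toStrs toStr_enc
  toStrs_enc cod tree_cod cod_length pt_tree pt_toStr pt_toStrs pt_fst pt_snd codF_pair codF_list
  codF_bool CodF)
open Pool.Agent.PT (Dat PolyF PolyB D Core sz sz_pair sz_cons sz_nil sz_pos sz_drop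
  sz_bits_le length_lt_sz sz_bool)
open Pool.Agent.PT.Dat (enc)
open Pool.Agent.RDS
open Pool.Agent.RDS.MEM_ (hst hst_length run_eq orc_qst dr dr_eq UU_cde cod_inj)
open Pool.Agent.RTS (join asked)

namespace TSR_

/-! ### Parts of strings -/

/-- the first `|z|` members of `h` -/
def tk (z h : Str) : Str := (z.zip h).map Prod.snd

theorem tk_eq (z h : Str) : tk z h = h.take z.length := by
  unfold tk
  induction z generalizing h with
  | nil => simp
  | cons b z ih =>
    cases h with
    | nil => simp
    | cons c h =>
      rw [List.zip_cons_cons, List.map_cons, ih, List.length_cons, List.take_succ_cons]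

theorem tk_app {z a r : Str} (h : a.length = z.length) : tk z (a ++ r) = a := by
  rw [tk_eq, ← h, List.take_left]

theorem dr_app {z a r : Str} (h : a.length = z.length) : dr z (a ++ r) = r := by
  rw [dr_eq, ← h, List.drop_left]

theorem lt_app {z a r : Str} (h : a.length = z.length) :
    decide ((a ++ r).length < z.length) = false := by
  rw [List.length_append]
  exact decide_eq_false (by omega)

theorem filt (c n : ℕ) : ((List.range n).filter (fun i => decide (i < c))).length = min c n := by
  induction n with
  | zero => simp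
  | succ n ih =>
    rw [List.range_succ, List.filter_append, List.length_append, ih, List.filter_cons,
      List.filter_nil]
    by_cases h : n < c
    · simp only [h, decide_true, if_true, List.length_cons, List.length_nil]
      omega
    · simp only [h, decide_false]
      simp
      omega

/-- a string of the length `(|y| - 1) / 10` -/
def mz (y : Str) : Str :=
  ((List.range y.length).filter fun i =>
    decide (i + i + i + i + i + i + i + i + i + i + 1 < y.length)).map fun _ => true

theorem mz_length (y : Str) : (mz y).length = (y.length + 8) / 10 := by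
  unfold mz
  rw [List.length_map]
  have h : (List.range y.length).filter (fun i =>
      decide (i + i + i + i + i + i + i + i + i + i + 1 < y.length)) =
      (List.range y.length).filter (fun i => decide (i < (y.length + 8) / 10)) := by
    refine List.filter_congr fun i _ => ?_
    rw [Bool.eq_iff_iff, decide_eq_true_eq, decide_eq_true_eq]
    omega
  rw [h, filt]
  omega

/-- a string of the length `(|s| - 2) / 2` -/
def hz (s : Str) : Str :=
  ((List.range s.length).filter fun i => decide (i + i + 2 < s.length)).map fun _ => true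

theorem hz_length (s : Str) : (hz s).length = (s.length - 1) / 2 := by
  unfold hz
  rw [List.length_map]
  have h : (List.range s.length).filter (fun i => decide (i + i + 2 < s.length)) =
      (List.range s.length).filter (fun i => decide (i < (s.length - 1) / 2)) := by
    refine List.filter_congr fun i _ => ?_
    rw [Bool.eq_iff_iff, decide_eq_true_eq, decide_eq_true_eq]
    omega
  rw [h, filt]
  omega

/-! ### The parts of an instance -/

/-- one step of the search of the last `1` -/
def st (s : Bool × Str) (c : Bool) : Bool × Str := (s.1 || c, cond s.1 (c :: s.2) s.2)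

theorem st_true (r a : Str) : r.foldl st (true, a) = (true, r.reverse ++ a) := by
  induction r generalizing a with
  | nil => rfl
  | cons b r ih =>
    rw [List.foldl_cons]
    have : st (true, a) b = (true, b :: a) := by simp [st]
    rw [this, ih]
    simp

theorem st_all (k : ℕ) (r : Str) :
    (List.replicate k false ++ true :: r).foldl st (false, []) = (true, r.reverse) := by
  induction k with
  | zero =>
    rw [List.replicate_zero, List.nil_append, List.foldl_cons]
    have : st (false, []) true = (true, []) := by simp [st]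
    rw [this, st_true, List.append_nil]
  | succ k ih =>
    rw [List.replicate_succ, List.cons_append, List.foldl_cons]
    have : st (false, []) false = (false, []) := by simp [st]
    rw [this, ih]

/-- the base of an instance -/
def xi (s : Str) : Str := tk (hz s) s

/-- the beginning of the certificate -/
def pp (s : Str) : Str := ((dr (hz s) s).reverse.tail.foldl st (false, [])).2

theorem hz_fmt {χ p : Str} (hp : p.length ≤ χ.length) : χ.length = (hz (fmt χ p)).length := by
  rw [hz_length, FMT_.fmt_length χ p hp]
  omega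

theorem xi_fmt {χ p : Str} (hp : p.length ≤ χ.length) : xi (fmt χ p) = χ := by
  unfold xi
  conv_lhs => rw [show fmt χ p = χ ++ (p ++ true :: (List.replicate (χ.length - p.length) false
    ++ [true])) from rfl]
  exact tk_app (hz_fmt hp)

theorem pp_fmt {χ p : Str} (hp : p.length ≤ χ.length) : pp (fmt χ p) = p := by
  have h : dr (hz (fmt χ p)) (fmt χ p) = p ++ true ::
      (List.replicate (χ.length - p.length) false ++ [true]) := by
    conv_lhs => rw [show fmt χ p = χ ++ (p ++ true :: (List.replicate (χ.length - p.length) false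
      ++ [true])) from rfl]
    exact dr_app (hz_fmt hp)
  unfold pp
  rw [h, FMT_.rev_tail, List.tail_cons, st_all, List.reverse_reverse]

/-- the ones at the beginning -/
def tw (v : Str) : Str := (v.foldl (fun (s : Bool × Str) c =>
  (s.1 && c, cond (s.1 && c) (true :: s.2) s.2)) (true, [])).2

theorem tw_false (v a : Str) : (v.foldl (fun (s : Bool × Str) c =>
    (s.1 && c, cond (s.1 && c) (true :: s.2) s.2)) (false, a)).2 = a := by
  induction v generalizing a with
  | nil => rfl
  | cons b v ih =>
    rw [List.foldl_cons]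
    exact ih a

theorem tw_true (v a : Str) : (v.foldl (fun (s : Bool × Str) c =>
    (s.1 && c, cond (s.1 && c) (true :: s.2) s.2)) (true, a)).2.length =
    (v.takeWhile id).length + a.length := by
  induction v generalizing a with
  | nil => simp
  | cons b v ih =>
    rw [List.foldl_cons]
    cases b
    · simp only [Bool.and_false, cond_false, List.takeWhile_cons, id_eq]
      rw [tw_false]
      simp
    · simp only [Bool.and_true, cond_true, List.takeWhile_cons, id_eq, if_true]
      rw [ih]
      simp only [List.length_cons]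
      omega

theorem tw_length (v : Str) : (tw v).length = (v.takeWhile id).length := by
  unfold tw
  rw [tw_true]
  simp

/-- the parts of `1^|p| 0 p y` -/
def qv (v : Str) : Str × Str := (dr (tw v) (dr (tw v) v).tail, tk (tw v) (dr (tw v) v).tail)

theorem qv_eq (v : Str) : qv v = pv v := by
  unfold qv pv
  rw [tk_eq, dr_eq, dr_eq, tw_length, List.tail_drop]

/-! ### The algorithm at `0 y` -/

/-- the first component of a certificate -/
def wd (p : Str) : Str := toStr (tree p).fst

/-- the second component -/
def vd (p : Str) : List Str := toStrs (tree p).snd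

/-- the answers of part 1 -/
def s1 (y h : Str) : Str := tk (mz y) h

/-- the rest -/
def t1 (y h : Str) : Str := dr (mz y) h

/-- the answers of part 2 -/
def s2 (y h : Str) : Str := tk y (t1 y h)

/-- the rest -/
def t2 (y h : Str) : Str := dr y (t1 y h)

/-- the answers of part 3 -/
def s3 (y h : Str) : Str := tk (mz y) (t2 y h)

/-- the rest -/
def t3 (y h : Str) : Str := dr (mz y) (t2 y h)

/-- the rest -/
def t4 (y h : Str) : Str := dr [true] (t3 y h)

/-- the answers of part 5 -/
def s5 (y h : Str) : Str := tk y (t4 y h)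

/-- the rest -/
def t5 (y h : Str) : Str := dr y (t4 y h)

/-- the rest -/
def t6 (y h : Str) : Str := dr [true] (t5 y h)

/-- the answers of part 7 -/
def s7 (y h : Str) : Str := tk y (t6 y h)

/-- the rest -/
def t7 (y h : Str) : Str := dr y (t6 y h)

/-- the string `y` is the value at the string `P` with the right format, if `a` is this value -/
def okk (y P a : Str) : Bool :=
  decide (y.length = 10 * (mz y).length + 1) && (decide (a = y) &&
    (decide (fmt (xi P) (pp P) = P) && decide ((pp P).length ≤ (xi P).length)))

/-- the same, and the certificate is not complete -/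
def goo (y P a : Str) : Bool := okk y P a && decide ((pp P).length < (xi P).length)

/-- the answers which belong to the certificate -/
def bsa (P a : Str) : Str := tk ((vd (pp P)).map fun _ => true) a

/-- the questions -/
def Q0 (y h : Str) : Str :=
  cond (decide (h.length < (mz y).length)) (true :: true :: pq y (h.map not ++ [false]))
    (cond (decide ((t1 y h).length < y.length)) (false :: qst (t1 y h).length ((s1 y h).map not))
    (cond (decide ((t2 y h).length < (mz y).length))
      (false :: (vd (pp ((s1 y h).map not))).getD (t2 y h).length [])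
    (cond (decide ((t3 y h).length < ([true] : Str).length))
      (false :: true :: cde (xi ((s1 y h).map not), wd (pp ((s1 y h).map not)),
        vd (pp ((s1 y h).map not)), bsa ((s1 y h).map not) (s3 y h)))
    (cond (decide ((t4 y h).length < y.length))
      (false :: qst (t4 y h).length (fmt (xi ((s1 y h).map not))
        (pp ((s1 y h).map not) ++ [false])))
    (cond (decide ((t5 y h).length < ([true] : Str).length))
      (cond (goo y ((s1 y h).map not) (s2 y h)) (true :: false :: s5 y h) [false])
    (cond (decide ((t6 y h).length < y.length))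
      (false :: qst (t6 y h).length (fmt (xi ((s1 y h).map not))
        (pp ((s1 y h).map not) ++ [true])))
      (cond (goo y ((s1 y h).map not) (s2 y h)) (true :: false :: s7 y h) [false])))))))

/-- the certificate is complete -/
def cmp (P : Str) : Bool :=
  decide (cd (wd (pp P), vd (pp P)) = pp P) &&
    decide (tsz (wd (pp P)) (vd (pp P)) ≤ (xi P).length)

/-- the result -/
def F0 (y h : Str) : Bool :=
  okk y ((s1 y h).map not) (s2 y h) && ((cmp ((s1 y h).map not) && (t3 y h).headD false) ||
    (decide ((pp ((s1 y h).map not)).length < (xi ((s1 y h).map not)).length) &&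
      ((t5 y h).headD false || (t7 y h).headD false)))

/-- the number of the questions -/
def N0 (y : Str) : ℕ :=
  (mz y).length + y.length + (mz y).length + 1 + y.length + 1 + y.length + 1

/-! ### The algorithm at `1 v` -/

/-- the questions are asked -/
def g1 (y p : Str) : Bool :=
  decide (y.length = 10 * (mz y).length + 1) && decide (p.length < (mz y).length)

/-- the questions -/
def Q1 (y p h : Str) : Str :=
  cond (decide (h.length < y.length)) (false :: qst h.length p)
    (cond (decide ((dr y h).length < ([true] : Str).length))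
      (cond (g1 y p) (true :: true :: pq y (p ++ [false])) [false])
      (cond (g1 y p) (true :: true :: pq y (p ++ [true])) [false]))

/-- the result -/
def F1 (y p h : Str) : Bool :=
  decide (y.length = 10 * (mz y).length + 1) &&
    ((decide (p.length = (mz y).length) && decide (tk y h = y)) ||
      (decide (p.length < (mz y).length) &&
        ((dr y h).headD false || (dr y h).tail.headD false)))

/-- the number of the questions -/
def N1 (y : Str) : ℕ := y.length + 2

/-! ### The algorithm -/

/-- the number of the questions -/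
def NX (x : Str) : ℕ := cond (x.headD false) (N1 (qv x.tail).1) (N0 x.tail)

/-- the questions -/
def QX (x h : Str) : Str :=
  cond (x.headD false) (Q1 (qv x.tail).1 (qv x.tail).2 h) (Q0 x.tail h)

/-- the result -/
def FX (x h : Str) : Bool :=
  cond (x.headD false) (F1 (qv x.tail).1 (qv x.tail).2 h) (F0 x.tail h)

/-- the algorithm -/
def AL (q : Str × List Bool) : Bool × Str × Bool :=
  (decide (q.2.length < NX q.1), QX q.1 q.2, FX q.1 q.2)

/-! ### Polynomial time -/

section
variable [hC : Fact Core]

variable {γ : Type} [Dat γ]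

theorem pt_tk {f g : γ → Str} (hf : PolyF f) (hg : PolyF g) :
    PolyF (fun x => tk (f x) (g x)) := by
  unfold tk
  exact PolyF.map (f := fun (_ : γ) (c : Bool × Bool) => c.2) (by fun_prop) (hf.zip hg)

theorem pt_ones {α : Type} [Dat α] {f : γ → List α} (hf : PolyF f) :
    PolyF (fun x => (f x).map fun _ => true) :=
  PolyF.map (f := fun (_ : γ) (_ : α) => true) (PolyF.const _) hf

theorem pt_dr' {f g : γ → Str} (hf : PolyF f) (hg : PolyF g) :
    PolyF (fun x => dr (f x) (g x)) := Pool.Agent.RDS.MEM_.pt_dr hf hg

theorem pt_mz : PolyF mz := by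
  unfold mz
  refine PolyF.map (f := fun (_ : Str) (_ : ℕ) => true) (PolyF.const _) ?_
  refine PolyF.filter (f := fun (y : Str) (i : ℕ) =>
    decide (i + i + i + i + i + i + i + i + i + i + 1 < y.length)) ?_ ?_
  · fun_prop
  · exact PolyF.range_length PolyF.id

theorem pt_hz : PolyF hz := by
  unfold hz
  refine PolyF.map (f := fun (_ : Str) (_ : ℕ) => true) (PolyF.const _) ?_
  refine PolyF.filter (f := fun (y : Str) (i : ℕ) => decide (i + i + 2 < y.length)) ?_ ?_
  · fun_prop
  · exact PolyF.range_length PolyF.id

theorem pt_xi : PolyF xi := pt_tk pt_hz PolyF.id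

theorem pt_st : PolyF (fun l : Str => l.foldl st (false, [])) := by
  refine PolyF.foldl (f := fun (_ : Str) (s : Bool × Str) (c : Bool) => st s c) ?_
    (by fun_prop) (by fun_prop) (fun l => 4 + 3 * sz l) ?_ ?_
  · unfold st
    fun_prop
  · exact (PolyB.const 4).add ((PolyB.const 3).mul (PolyB.sz (α := Str)))
  · intro l l₁ hl₁
    have h : ∀ (m : Str) (s : Bool × Str), sz (m.foldl st s) ≤ 3 + sz s.2 + 1 + sz m := by
      intro m
      induction m with
      | nil =>
        intro s
        rw [List.foldl_nil, sz_nil]
        have := sz_pair s.1 s.2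
        have h2 := sz_bool s.1
        have h3 : sz s = sz s.1 + sz s.2 + 1 := this
        omega
      | cons b m ih =>
        intro s
        rw [List.foldl_cons, sz_cons]
        have h1 := ih (st s b)
        have h2 : sz (st s b).2 ≤ sz b + sz s.2 + 1 := by
          unfold st
          cases s.1
          · simp only [cond_false]
            omega
          · simp only [cond_true]
            rw [sz_cons]
        omega
    have h1 := h l₁ (false, [])
    have h2 := Pool.Agent.PT.sz_le_of_prefix hl₁
    have h3 : sz ([] : Str) = 1 := sz_nil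
    have h4 := sz_pos l
    change sz (l₁.foldl st (false, [])) ≤ _
    simp only at h1
    omega

theorem pt_pp : PolyF pp := by
  unfold pp
  exact (pt_st.comp (PolyF.tail (PolyF.reverse (pt_dr' pt_hz PolyF.id)))).snd

theorem pt_tw : PolyF tw := by
  unfold tw
  refine PolyF.snd ?_
  refine PolyF.foldl (f := fun (_ : Str) (s : Bool × Str) (c : Bool) =>
    (s.1 && c, cond (s.1 && c) (true :: s.2) s.2)) ?_
    (by fun_prop) (by fun_prop) (fun l => 10 + 6 * sz l) ?_ ?_
  · fun_prop
  · exact (PolyB.const 10).add ((PolyB.const 6).mul (PolyB.sz (α := Str)))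
  · intro l l₁ hl₁
    have h : ∀ (m : Str) (s : Bool × Str), sz (m.foldl (fun (s : Bool × Str) c =>
        (s.1 && c, cond (s.1 && c) (true :: s.2) s.2)) s) ≤ 3 + sz s.2 + 1 + 4 * m.length := by
      intro m
      induction m with
      | nil =>
        intro s
        rw [List.foldl_nil]
        have h2 := sz_bool s.1
        have h3 : sz s = sz s.1 + sz s.2 + 1 := sz_pair s.1 s.2
        simp only [List.length_nil]
        omega
      | cons b m ih =>
        intro s
        rw [List.foldl_cons, List.length_cons]
        have h1 := ih (s.1 && b, cond (s.1 && b) (true :: s.2) s.2)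
        have h2 : sz (cond (s.1 && b) (true :: s.2) s.2) ≤ 3 + sz s.2 + 1 := by
          cases (s.1 && b)
          · simp only [cond_false]
            omega
          · simp only [cond_true]
            rw [sz_cons]
            have := sz_bool true
            omega
        simp only at h1
        omega
    have h1 := h l₁ (true, [])
    have h2 := hl₁.length_le
    have h3 : sz ([] : Str) = 1 := sz_nil
    have h4 := Pool.Agent.PT.le_sz_bits l
    simp only at h1
    change sz (l₁.foldl _ _) ≤ _
    omega

theorem pt_qv : PolyF qv := by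
  have h : PolyF (fun v => (dr (tw v) v).tail) := PolyF.tail (pt_dr' pt_tw PolyF.id)
  unfold qv
  exact (pt_dr' pt_tw h).pair (pt_tk pt_tw h)

theorem pt_fmt {f g : γ → Str} (hf : PolyF f) (hg : PolyF g) :
    PolyF (fun x => fmt (f x) (g x)) := by
  have h : PolyF (fun x => f x ++ (g x ++ true :: ((dr (g x) (f x)).map (fun _ => false) ++
      [true]))) := by
    refine PolyF.append hf (PolyF.append hg (PolyF.cons (PolyF.const _) (PolyF.append ?_
      (PolyF.const _))))
    exact PolyF.map (f := fun (_ : γ) (_ : Bool) => false) (PolyF.const _) (pt_dr' hg hf)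
  refine h.congr fun x => ?_
  unfold fmt
  rw [List.map_const', dr_eq, List.length_drop]

theorem pt_qst {f g : γ → Str} (hf : PolyF f) (hg : PolyF g) :
    PolyF (fun x => qst (f x).length (g x)) := by
  have h : PolyF (fun x => false :: ((f x).map (fun _ => true) ++ false :: g x)) :=
    PolyF.cons (PolyF.const _) (PolyF.append (pt_ones hf) (PolyF.cons (PolyF.const _) hg))
  refine h.congr fun x => ?_
  unfold qst
  rw [List.map_const']

theorem pt_pq {f g : γ → Str} (hf : PolyF f) (hg : PolyF g) :
    PolyF (fun x => pq (f x) (g x)) := by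
  have h : PolyF (fun x => (g x).map (fun _ => true) ++ false :: (g x ++ f x)) :=
    PolyF.append (pt_ones hg) (PolyF.cons (PolyF.const _) (PolyF.append hg hf))
  refine h.congr fun x => ?_
  unfold pq
  rw [List.map_const']

theorem pt_neg {f : γ → Str} (hf : PolyF f) : PolyF (fun x => (f x).map not) :=
  PolyF.map (f := fun (_ : γ) (b : Bool) => !b) (by fun_prop) hf

theorem pt_wd : PolyF wd := pt_toStr (pt_fst pt_tree)

theorem pt_vd : PolyF vd := pt_toStrs (pt_snd pt_tree)

theorem pt_cd : PolyF cd := codF_pair (codF_list codF_bool) (codF_list (codF_list codF_bool))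

theorem pt_len10 {f : γ → Str} (hf : PolyF f) :
    PolyF (fun x => decide ((f x).length = 10 * (mz (f x)).length + 1)) := by
  have hm : PolyF (fun x => (mz (f x)).length) := PolyF.length (pt_mz.comp hf)
  have h : PolyF (fun x => (mz (f x)).length + (mz (f x)).length + (mz (f x)).length +
      (mz (f x)).length + (mz (f x)).length + (mz (f x)).length + (mz (f x)).length +
      (mz (f x)).length + (mz (f x)).length + (mz (f x)).length + 1) := by
    refine PolyF.nat_add ?_ (PolyF.const _)
    exact ((((((((hm.nat_add hm).nat_add hm).nat_add hm).nat_add hm).nat_add hm).nat_add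
      hm).nat_add hm).nat_add hm).nat_add hm
  refine (PolyF.eq_nat (PolyF.length hf) h).congr fun x => ?_
  rw [Bool.eq_iff_iff, decide_eq_true_eq, decide_eq_true_eq]
  omega

theorem pt_okk {f g a : γ → Str} (hf : PolyF f) (hg : PolyF g) (ha : PolyF a) :
    PolyF (fun x => okk (f x) (g x) (a x)) := by
  unfold okk
  have h1 : PolyF (fun x => xi (g x)) := pt_xi.comp hg
  have h2 : PolyF (fun x => pp (g x)) := pt_pp.comp hg
  exact PolyF.and (pt_len10 hf) (PolyF.and (PolyF.eq ha hf) (PolyF.and
    (PolyF.eq (pt_fmt h1 h2) hg) (PolyF.nat_le h2.length h1.length)))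

theorem pt_lt {f g : γ → Str} (hf : PolyF f) (hg : PolyF g) :
    PolyF (fun x => decide ((f x).length < (g x).length)) :=
  PolyF.nat_lt hf.length hg.length

theorem pt_goo {f g a : γ → Str} (hf : PolyF f) (hg : PolyF g) (ha : PolyF a) :
    PolyF (fun x => goo (f x) (g x) (a x)) := by
  unfold goo
  exact PolyF.and (pt_okk hf hg ha) (pt_lt (pt_pp.comp hg) (pt_xi.comp hg))

theorem pt_cmp {g : γ → Str} (hg : PolyF g) : PolyF (fun x => cmp (g x)) := by
  unfold cmp
  have h1 : PolyF (fun x => xi (g x)) := pt_xi.comp hg
  have h2 : PolyF (fun x => pp (g x)) := pt_pp.comp hg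
  have h3 : PolyF (fun x => wd (pp (g x))) := pt_wd.comp h2
  have h4 : PolyF (fun x => vd (pp (g x))) := pt_vd.comp h2
  exact PolyF.and (PolyF.eq (pt_cd.comp (h3.pair h4)) h2)
    (PolyF.nat_le (Pool.Agent.RDS.MEM_.pt_tsz h3 h4) h1.length)

end

section
variable [hC : Fact Core]

theorem pt_s1 : PolyF (fun q : Str × Str => s1 q.1 q.2) :=
  pt_tk (pt_mz.comp (by fun_prop)) (by fun_prop)

theorem pt_t1 : PolyF (fun q : Str × Str => t1 q.1 q.2) :=
  pt_dr' (pt_mz.comp (by fun_prop)) (by fun_prop)

theorem pt_s2 : PolyF (fun q : Str × Str => s2 q.1 q.2) := pt_tk (by fun_prop) pt_t1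

theorem pt_t2 : PolyF (fun q : Str × Str => t2 q.1 q.2) := pt_dr' (by fun_prop) pt_t1

theorem pt_s3 : PolyF (fun q : Str × Str => s3 q.1 q.2) :=
  pt_tk (pt_mz.comp (by fun_prop)) pt_t2

theorem pt_t3 : PolyF (fun q : Str × Str => t3 q.1 q.2) :=
  pt_dr' (pt_mz.comp (by fun_prop)) pt_t2

theorem pt_t4 : PolyF (fun q : Str × Str => t4 q.1 q.2) := pt_dr' (PolyF.const _) pt_t3

theorem pt_s5 : PolyF (fun q : Str × Str => s5 q.1 q.2) := pt_tk (by fun_prop) pt_t4

theorem pt_t5 : PolyF (fun q : Str × Str => t5 q.1 q.2) := pt_dr' (by fun_prop) pt_t4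

theorem pt_t6 : PolyF (fun q : Str × Str => t6 q.1 q.2) := pt_dr' (PolyF.const _) pt_t5

theorem pt_s7 : PolyF (fun q : Str × Str => s7 q.1 q.2) := pt_tk (by fun_prop) pt_t6

theorem pt_t7 : PolyF (fun q : Str × Str => t7 q.1 q.2) := pt_dr' (by fun_prop) pt_t6

theorem pt_Q0 : PolyF (fun q : Str × Str => Q0 q.1 q.2) := by
  have hy : PolyF (fun q : Str × Str => q.1) := by fun_prop
  have hh : PolyF (fun q : Str × Str => q.2) := by fun_prop
  have hm : PolyF (fun q : Str × Str => mz q.1) := pt_mz.comp hy
  have h1 : PolyF (fun q : Str × Str => ([true] : Str)) := PolyF.const _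
  have hP : PolyF (fun q : Str × Str => (s1 q.1 q.2).map not) := pt_neg pt_s1
  have hX : PolyF (fun q : Str × Str => xi ((s1 q.1 q.2).map not)) := pt_xi.comp hP
  have hp : PolyF (fun q : Str × Str => pp ((s1 q.1 q.2).map not)) := pt_pp.comp hP
  have hw : PolyF (fun q : Str × Str => wd (pp ((s1 q.1 q.2).map not))) := pt_wd.comp hp
  have hv : PolyF (fun q : Str × Str => vd (pp ((s1 q.1 q.2).map not))) := pt_vd.comp hp
  have hb : PolyF (fun q : Str × Str => bsa ((s1 q.1 q.2).map not) (s3 q.1 q.2)) := by
    unfold bsa
    exact pt_tk (pt_ones hv) pt_s3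
  have hg : PolyF (fun q : Str × Str => goo q.1 ((s1 q.1 q.2).map not) (s2 q.1 q.2)) :=
    pt_goo hy hP pt_s2
  unfold Q0
  refine PolyF.cond (pt_lt hh hm) ?_ ?_
  · exact PolyF.cons (PolyF.const _) (PolyF.cons (PolyF.const _)
      (pt_pq hy (PolyF.append (pt_neg hh) (PolyF.const _))))
  refine PolyF.cond (pt_lt pt_t1 hy) (PolyF.cons (PolyF.const _) (pt_qst pt_t1 hP)) ?_
  refine PolyF.cond (pt_lt pt_t2 hm) (PolyF.cons (PolyF.const _)
    (PolyF.getD hv pt_t2.length (PolyF.const _))) ?_
  refine PolyF.cond (pt_lt pt_t3 h1) (PolyF.cons (PolyF.const _) (PolyF.cons (PolyF.const _)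
    (Pool.Agent.RDS.MEM_.pt_cde.comp (hX.pair (hw.pair (hv.pair hb)))))) ?_
  refine PolyF.cond (pt_lt pt_t4 hy) (PolyF.cons (PolyF.const _) (pt_qst pt_t4
    (pt_fmt hX (PolyF.append hp (PolyF.const _))))) ?_
  refine PolyF.cond (pt_lt pt_t5 h1) (PolyF.cond hg (PolyF.cons (PolyF.const _)
    (PolyF.cons (PolyF.const _) pt_s5)) (PolyF.const _)) ?_
  refine PolyF.cond (pt_lt pt_t6 hy) (PolyF.cons (PolyF.const _) (pt_qst pt_t6
    (pt_fmt hX (PolyF.append hp (PolyF.const _))))) ?_
  exact PolyF.cond hg (PolyF.cons (PolyF.const _)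
    (PolyF.cons (PolyF.const _) pt_s7)) (PolyF.const _)

theorem pt_F0 : PolyF (fun q : Str × Str => F0 q.1 q.2) := by
  have hy : PolyF (fun q : Str × Str => q.1) := by fun_prop
  have hP : PolyF (fun q : Str × Str => (s1 q.1 q.2).map not) := pt_neg pt_s1
  have hX : PolyF (fun q : Str × Str => xi ((s1 q.1 q.2).map not)) := pt_xi.comp hP
  have hp : PolyF (fun q : Str × Str => pp ((s1 q.1 q.2).map not)) := pt_pp.comp hP
  unfold F0
  exact PolyF.and (pt_okk hy hP pt_s2) (PolyF.or (PolyF.and (pt_cmp hP)
    (PolyF.headD pt_t3 (PolyF.const _))) (PolyF.and (pt_lt hp hX)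
      (PolyF.or (PolyF.headD pt_t5 (PolyF.const _)) (PolyF.headD pt_t7 (PolyF.const _)))))

theorem pt_N0 : PolyF N0 := by
  unfold N0
  have hm : PolyF (fun y : Str => (mz y).length) := PolyF.length pt_mz
  have hy : PolyF (fun y : Str => y.length) := PolyF.length PolyF.id
  exact (((((((hm.nat_add hy).nat_add hm).nat_add (PolyF.const _)).nat_add hy).nat_add
    (PolyF.const _)).nat_add hy).nat_add (PolyF.const _))

theorem pt_Q1 {γ : Type} [Dat γ] {f g h : γ → Str} (hf : PolyF f) (hg : PolyF g)
    (hh : PolyF h) : PolyF (fun x => Q1 (f x) (g x) (h x)) := by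
  have h1 : PolyF (fun _ : γ => ([true] : Str)) := PolyF.const _
  have hG : PolyF (fun x => g1 (f x) (g x)) := by
    unfold g1
    exact PolyF.and (pt_len10 hf) (pt_lt hg (pt_mz.comp hf))
  unfold Q1
  refine PolyF.cond (pt_lt hh hf) (PolyF.cons (PolyF.const _) (pt_qst hh hg)) ?_
  refine PolyF.cond (pt_lt (pt_dr' hf hh) h1) ?_ ?_
  · exact PolyF.cond hG (PolyF.cons (PolyF.const _) (PolyF.cons (PolyF.const _)
      (pt_pq hf (PolyF.append hg (PolyF.const _))))) (PolyF.const _)
  · exact PolyF.cond hG (PolyF.cons (PolyF.const _) (PolyF.cons (PolyF.const _)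
      (pt_pq hf (PolyF.append hg (PolyF.const _))))) (PolyF.const _)

theorem pt_F1 {γ : Type} [Dat γ] {f g h : γ → Str} (hf : PolyF f) (hg : PolyF g)
    (hh : PolyF h) : PolyF (fun x => F1 (f x) (g x) (h x)) := by
  have hm : PolyF (fun x => mz (f x)) := pt_mz.comp hf
  have hd : PolyF (fun x => dr (f x) (h x)) := pt_dr' hf hh
  unfold F1
  exact PolyF.and (pt_len10 hf) (PolyF.or
    (PolyF.and (PolyF.eq_nat hg.length hm.length) (PolyF.eq (pt_tk hf hh) hf))
    (PolyF.and (pt_lt hg hm) (PolyF.or (PolyF.headD hd (PolyF.const _))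
      (PolyF.headD (PolyF.tail hd) (PolyF.const _)))))

theorem pt_AL : PolyF AL := by
  have hx : PolyF (fun q : Str × List Bool => q.1) := by fun_prop
  have hh : PolyF (fun q : Str × List Bool => q.2) := by fun_prop
  have ht : PolyF (fun q : Str × List Bool => q.1.tail) := by fun_prop
  have hb : PolyF (fun q : Str × List Bool => q.1.headD false) := by fun_prop
  have hv : PolyF (fun q : Str × List Bool => qv q.1.tail) := pt_qv.comp ht
  unfold AL
  refine PolyF.pair ?_ (PolyF.pair ?_ ?_)
  · refine PolyF.nat_lt hh.length ?_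
    unfold NX
    refine PolyF.cond hb ?_ (pt_N0.comp ht)
    unfold N1
    exact PolyF.nat_add hv.fst.length (PolyF.const _)
  · unfold QX
    exact PolyF.cond hb (pt_Q1 hv.fst hv.snd hh) (pt_Q0.comp (ht.pair hh))
  · unfold FX
    exact PolyF.cond hb (pt_F1 hv.fst hv.snd hh) (pt_F0.comp (ht.pair hh))

end

/-- the second part of CNV for functions with a bit as the result -/
theorem cnv (F : Str × List Bool → Bool × Str × Bool) (hF : @PolyF _ _ _ _ F) :
    PolyTime (encH (id : Str → Str)) (encMv encBool) fun p => mvOf (F p) := by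
  have hC : Fact Core := ⟨Pool.Agent.PT.core⟩
  obtain ⟨d1⟩ := Pool.Agent.CookLevin.exists_dat (Bool ⊕ Bool)
  obtain ⟨d3⟩ := Pool.Agent.CookLevin.exists_dat (Option Bool ⊕ Bool)
  have he : PolyF encBool := PolyF.finite _
  refine Pool.Agent.PT.tm_of_polyF ((CNV_.pt_enc he).comp (hF.comp Pool.Agent.DSR.pt_dec))
    (encH (id : Str → Str)) (encMv encBool) (fun p => mvOf (F p)) fun p => ?_
  simp only [CNV_.dec2]

/-! ### Stages -/

theorem stage (O : Orc) (Q : Str → Str) {h0 : Str} {k0 : ℕ} (hk : hst O Q k0 = h0) {L : ℕ}
    {q : Str → Str} (hq : ∀ r : Str, r.length < L → Q (h0 ++ r) = q r) :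
    ∀ j, j ≤ L → hst O Q (k0 + j) = h0 ++ hst O q j := by
  intro j
  induction j with
  | zero =>
    intro _
    rw [Nat.add_zero, hk]
    simp [hst]
  | succ j ih =>
    intro hj
    have e := ih (by omega)
    rw [← Nat.add_assoc, hst, e, hq _ (by rw [hst_length]; omega), List.append_assoc]
    rfl

theorem hst_na (O : Orc) (q : Str → Str) (f : ℕ → Bool) (L : ℕ)
    (h : ∀ r : Str, r.length < L → O (q r) = f r.length) :
    ∀ j, j ≤ L → hst O q j = (List.range j).map f := by
  intro j
  induction j with
  | zero => intro _; rfl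
  | succ j ih =>
    intro hj
    rw [hst, h _ (by rw [hst_length]; omega), hst_length, ih (by omega), List.range_succ,
      List.map_append]
    rfl

theorem hst_one' (O : Orc) (q : Str → Str) : hst O q 1 = [O (q [])] := rfl

theorem asked_mem {α β : Type} (O : Orc) (G : α × List Bool → Mv β) (a : α) (N : ℕ)
    (Q : List Bool → List Bool) (f : List Bool → β)
    (h1 : ∀ h : List Bool, h.length < N → G (a, h) = .ask (Q h))
    (h2 : ∀ h : List Bool, h.length = N → G (a, h) = .out (f h)) :
    ∀ (n k : ℕ), k ≤ N → ∀ v ∈ asked O G a n (hst O Q k), ∃ j, j < N ∧ v = Q (hst O Q j) := by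
  intro n
  induction n with
  | zero =>
    intro k _ v hv
    simp [asked] at hv
  | succ n ih =>
    intro k hk v hv
    rcases hk.lt_or_eq with h | h
    · rw [asked, h1 _ (by rw [hst_length]; exact h)] at hv
      simp only [List.mem_cons] at hv
      rcases hv with rfl | hv
      · exact ⟨k, h, rfl⟩
      · exact ih (k + 1) h v hv
    · rw [asked, h2 _ (by rw [hst_length]; exact h)] at hv
      simp at hv

/-! ### The oracle -/

section
variable (O : Orc) (A : Lang)

theorem join_false (v : Str) : join O A (false :: v) = O v := rfl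

open Classical in
theorem join_true (v : Str) : join O A (true :: v) = decide (v ∈ A) := rfl

theorem join_true_iff (v : Str) : join O A (true :: v) = true ↔ v ∈ A := by
  classical
  rw [join_true, decide_eq_true_eq]

end

/-- the first bits of a value -/
def rd (R : Str → Str) (u : Str) (n : ℕ) : Str := (List.range n).map fun i => (R u).getD i false

theorem rd_length (R : Str → Str) (u : Str) (n : ℕ) : (rd R u n).length = n := by
  unfold rd
  rw [List.length_map, List.length_range]

theorem rd_eq (R : Str → Str) (u : Str) {n : ℕ} (h : (R u).length = n) : rd R u n = R u := by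
  refine List.ext_getElem ?_ ?_
  · rw [rd_length, h]
  · intro i h1 h2
    unfold rd
    rw [List.getElem_map, List.getElem_range, List.getD_eq_getElem _ _ h2]

theorem hst_rd (U : Str → Bool) (R : Str → Str) (A : Lang) (u : Str) (L : ℕ) :
    hst (join (orc U R) A) (fun r => false :: qst r.length u) L = rd R u L := by
  refine hst_na _ _ (fun i => (R u).getD i false) L (fun r _ => ?_) L le_rfl
  rw [join_false, orc_qst]

/-! ### The questions at the parts of the history -/

section
variable {y a1 a2 a3 a4 a5 a6 a7 r : Str}

theorem Q0_1 (h : r.length < (mz y).length) :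
    Q0 y ([] ++ r) = true :: true :: pq y (r.map not ++ [false]) := by
  unfold Q0
  rw [List.nil_append, decide_eq_true h, cond_true]

theorem Q0_2 (h1 : a1.length = (mz y).length) (h : r.length < y.length) :
    Q0 y (a1 ++ r) = false :: qst r.length (a1.map not) := by
  unfold Q0
  simp only [s1, t1, lt_app h1, tk_app h1, dr_app h1, cond_false]
  rw [decide_eq_true h, cond_true]

theorem Q0_3 (h1 : a1.length = (mz y).length) (h2 : a2.length = y.length)
    (h : r.length < (mz y).length) :
    Q0 y ((a1 ++ a2) ++ r) = false :: (vd (pp (a1.map not))).getD r.length [] := by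
  unfold Q0
  simp only [s1, t1, t2, List.append_assoc, lt_app h1, tk_app h1, dr_app h1, lt_app h2,
    dr_app h2, cond_false]
  rw [decide_eq_true h, cond_true]

theorem Q0_4 (h1 : a1.length = (mz y).length) (h2 : a2.length = y.length)
    (h3 : a3.length = (mz y).length) (h : r.length < 1) :
    Q0 y (((a1 ++ a2) ++ a3) ++ r) = false :: true :: cde (xi (a1.map not),
      wd (pp (a1.map not)), vd (pp (a1.map not)), bsa (a1.map not) a3) := by
  have h' : r.length < ([true] : Str).length := h
  unfold Q0
  simp only [s1, t1, t2, s3, t3, List.append_assoc, lt_app h1, tk_app h1, dr_app h1, lt_app h2,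
    dr_app h2, lt_app h3, dr_app h3, tk_app h3, cond_false]
  rw [decide_eq_true h', cond_true]

theorem Q0_5 (h1 : a1.length = (mz y).length) (h2 : a2.length = y.length)
    (h3 : a3.length = (mz y).length) (h4 : a4.length = ([true] : Str).length)
    (h : r.length < y.length) :
    Q0 y ((((a1 ++ a2) ++ a3) ++ a4) ++ r) = false :: qst r.length
      (fmt (xi (a1.map not)) (pp (a1.map not) ++ [false])) := by
  unfold Q0
  simp only [s1, t1, t2, s3, t3, t4, List.append_assoc, lt_app h1, tk_app h1, dr_app h1,
    lt_app h2, dr_app h2, lt_app h3, dr_app h3, tk_app h3, lt_app h4, dr_app h4, cond_false]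
  rw [decide_eq_true h, cond_true]

theorem Q0_6 (h1 : a1.length = (mz y).length) (h2 : a2.length = y.length)
    (h3 : a3.length = (mz y).length) (h4 : a4.length = ([true] : Str).length)
    (h5 : a5.length = y.length) (h : r.length < 1) :
    Q0 y (((((a1 ++ a2) ++ a3) ++ a4) ++ a5) ++ r) =
      cond (goo y (a1.map not) a2) (true :: false :: a5) [false] := by
  have h' : r.length < ([true] : Str).length := h
  unfold Q0
  simp only [s1, t1, s2, t2, s3, t3, t4, s5, t5, List.append_assoc, lt_app h1, tk_app h1,
    dr_app h1, tk_app h2, lt_app h2, dr_app h2, lt_app h3, dr_app h3, tk_app h3, lt_app h4,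
    dr_app h4, lt_app h5, tk_app h5, dr_app h5, cond_false]
  rw [decide_eq_true h', cond_true]

theorem Q0_7 (h1 : a1.length = (mz y).length) (h2 : a2.length = y.length)
    (h3 : a3.length = (mz y).length) (h4 : a4.length = ([true] : Str).length)
    (h5 : a5.length = y.length) (h6 : a6.length = ([true] : Str).length)
    (h : r.length < y.length) :
    Q0 y ((((((a1 ++ a2) ++ a3) ++ a4) ++ a5) ++ a6) ++ r) = false :: qst r.length
      (fmt (xi (a1.map not)) (pp (a1.map not) ++ [true])) := by
  unfold Q0
  simp only [s1, t1, t2, s3, t3, t4, s5, t5, t6, List.append_assoc, lt_app h1, tk_app h1,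
    dr_app h1, lt_app h2, dr_app h2, lt_app h3, dr_app h3, tk_app h3, lt_app h4,
    dr_app h4, lt_app h5, tk_app h5, dr_app h5, lt_app h6, dr_app h6, cond_false]
  rw [decide_eq_true h, cond_true]

theorem Q0_8 (h1 : a1.length = (mz y).length) (h2 : a2.length = y.length)
    (h3 : a3.length = (mz y).length) (h4 : a4.length = ([true] : Str).length)
    (h5 : a5.length = y.length) (h6 : a6.length = ([true] : Str).length)
    (h7 : a7.length = y.length) :
    Q0 y (((((((a1 ++ a2) ++ a3) ++ a4) ++ a5) ++ a6) ++ a7) ++ r) =
      cond (goo y (a1.map not) a2) (true :: false :: a7) [false] := by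
  unfold Q0
  simp only [s1, t1, s2, t2, s3, t3, t4, s5, t5, t6, s7, List.append_assoc, lt_app h1,
    tk_app h1, dr_app h1, tk_app h2, lt_app h2, dr_app h2, lt_app h3, dr_app h3, tk_app h3,
    lt_app h4, dr_app h4, lt_app h5, tk_app h5, dr_app h5, lt_app h6, dr_app h6, lt_app h7,
    tk_app h7, cond_false]

theorem hd_app {a r : Str} (h : a.length = ([true] : Str).length) :
    (a ++ r).headD false = a.headD false := by
  cases a with
  | nil => simp at h
  | cons b a => rfl

theorem F0_eq {a8 : Str} (h1 : a1.length = (mz y).length) (h2 : a2.length = y.length)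
    (h3 : a3.length = (mz y).length) (h4 : a4.length = ([true] : Str).length)
    (h5 : a5.length = y.length) (h6 : a6.length = ([true] : Str).length)
    (h7 : a7.length = y.length) :
    F0 y (((((((a1 ++ a2) ++ a3) ++ a4) ++ a5) ++ a6) ++ a7) ++ a8) =
      (okk y (a1.map not) a2 && ((cmp (a1.map not) && a4.headD false) ||
        (decide ((pp (a1.map not)).length < (xi (a1.map not)).length) &&
          (a6.headD false || a8.headD false)))) := by
  unfold F0
  simp only [s1, t1, s2, t2, t3, t4, t5, t6, t7, List.append_assoc,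
    tk_app h1, dr_app h1, tk_app h2, dr_app h2, dr_app h3, dr_app h4, hd_app h4,
    dr_app h5, dr_app h6, hd_app h6, dr_app h7]

end

/-! ### The run at `0 y` -/

section
variable (U : Str → Bool) (R : Str → Str) (A : Lang) (y : Str)

/-- the answers of part 1 -/
noncomputable def b1 : Str := hst (join (orc U R) A)
  (fun r => true :: true :: pq y (r.map not ++ [false])) (mz y).length

/-- the string found in part 1 -/
noncomputable def PP : Str := (b1 U R A y).map not

/-- the answers of part 2 -/
noncomputable def b2 : Str := rd R (PP U R A y) y.length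

/-- the answers of part 3 -/
noncomputable def b3 : Str := (List.range (mz y).length).map fun j =>
  orc U R ((vd (pp (PP U R A y))).getD j [])

/-- the answers of part 4 -/
noncomputable def b4 : Str := [U (cde (xi (PP U R A y), wd (pp (PP U R A y)),
  vd (pp (PP U R A y)), bsa (PP U R A y) (b3 U R A y)))]

/-- the answers of part 5 and of part 7 -/
noncomputable def b5 (b : Bool) : Str :=
  rd R (fmt (xi (PP U R A y)) (pp (PP U R A y) ++ [b])) y.length

/-- the answers of part 6 and of part 8 -/
noncomputable def b6 (b : Bool) : Str := [join (orc U R) A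
  (cond (goo y (PP U R A y) (b2 U R A y)) (true :: false :: b5 U R A y b) [false])]

theorem l1 : (b1 U R A y).length = (mz y).length := hst_length _ _ _

theorem l2 : (b2 U R A y).length = y.length := rd_length _ _ _

theorem l3 : (b3 U R A y).length = (mz y).length := by
  unfold b3
  rw [List.length_map, List.length_range]

theorem l4 : (b4 U R A y).length = ([true] : Str).length := rfl

theorem l5 (b : Bool) : (b5 U R A y b).length = y.length := rd_length _ _ _

theorem l6 (b : Bool) : (b6 U R A y b).length = ([true] : Str).length := rfl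

theorem H1 : hst (join (orc U R) A) (Q0 y) (mz y).length = b1 U R A y := by
  have h := stage (join (orc U R) A) (Q0 y) (h0 := []) (k0 := 0) rfl
    (L := (mz y).length) (q := fun r => true :: true :: pq y (r.map not ++ [false]))
    (fun r hr => Q0_1 hr) _ le_rfl
  rw [Nat.zero_add, List.nil_append] at h
  exact h

theorem H2 : hst (join (orc U R) A) (Q0 y) ((mz y).length + y.length) =
    b1 U R A y ++ b2 U R A y := by
  have h := stage (join (orc U R) A) (Q0 y) (H1 U R A y)
    (L := y.length) (q := fun r => false :: qst r.length (PP U R A y))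
    (fun r hr => Q0_2 (l1 U R A y) hr) _ le_rfl
  rw [h, hst_rd]
  rfl

theorem H3 : hst (join (orc U R) A) (Q0 y) ((mz y).length + y.length + (mz y).length) =
    (b1 U R A y ++ b2 U R A y) ++ b3 U R A y := by
  have h := stage (join (orc U R) A) (Q0 y) (H2 U R A y)
    (L := (mz y).length) (q := fun r => false :: (vd (pp (PP U R A y))).getD r.length [])
    (fun r hr => Q0_3 (l1 U R A y) (l2 U R A y) hr) _ le_rfl
  have e := hst_na (join (orc U R) A)
    (fun r : Str => false :: (vd (pp (PP U R A y))).getD r.length [])
    (fun j => orc U R ((vd (pp (PP U R A y))).getD j [])) (mz y).length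
    (fun r _ => rfl) _ le_rfl
  rw [h, e]
  rfl

theorem H4 : hst (join (orc U R) A) (Q0 y) ((mz y).length + y.length + (mz y).length + 1) =
    ((b1 U R A y ++ b2 U R A y) ++ b3 U R A y) ++ b4 U R A y := by
  have h := stage (join (orc U R) A) (Q0 y) (H3 U R A y)
    (L := 1) (q := fun _ => false :: true :: cde (xi (PP U R A y), wd (pp (PP U R A y)),
      vd (pp (PP U R A y)), bsa (PP U R A y) (b3 U R A y)))
    (fun r hr => Q0_4 (l1 U R A y) (l2 U R A y) (l3 U R A y) hr) _ le_rfl
  rw [h]
  rfl

theorem H5 : hst (join (orc U R) A) (Q0 y)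
    ((mz y).length + y.length + (mz y).length + 1 + y.length) =
    (((b1 U R A y ++ b2 U R A y) ++ b3 U R A y) ++ b4 U R A y) ++ b5 U R A y false := by
  have h := stage (join (orc U R) A) (Q0 y) (H4 U R A y)
    (L := y.length) (q := fun r => false :: qst r.length
      (fmt (xi (PP U R A y)) (pp (PP U R A y) ++ [false])))
    (fun r hr => Q0_5 (l1 U R A y) (l2 U R A y) (l3 U R A y) (l4 U R A y) hr) _ le_rfl
  rw [h, hst_rd]
  rfl

theorem H6 : hst (join (orc U R) A) (Q0 y)
    ((mz y).length + y.length + (mz y).length + 1 + y.length + 1) =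
    ((((b1 U R A y ++ b2 U R A y) ++ b3 U R A y) ++ b4 U R A y) ++ b5 U R A y false) ++
      b6 U R A y false := by
  have h := stage (join (orc U R) A) (Q0 y) (H5 U R A y)
    (L := 1) (q := fun _ => cond (goo y (PP U R A y) (b2 U R A y))
      (true :: false :: b5 U R A y false) [false])
    (fun r hr => Q0_6 (l1 U R A y) (l2 U R A y) (l3 U R A y) (l4 U R A y)
      (l5 U R A y false) hr) _ le_rfl
  rw [h]
  rfl

theorem H7 : hst (join (orc U R) A) (Q0 y)
    ((mz y).length + y.length + (mz y).length + 1 + y.length + 1 + y.length) =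
    (((((b1 U R A y ++ b2 U R A y) ++ b3 U R A y) ++ b4 U R A y) ++ b5 U R A y false) ++
      b6 U R A y false) ++ b5 U R A y true := by
  have h := stage (join (orc U R) A) (Q0 y) (H6 U R A y)
    (L := y.length) (q := fun r => false :: qst r.length
      (fmt (xi (PP U R A y)) (pp (PP U R A y) ++ [true])))
    (fun r hr => Q0_7 (l1 U R A y) (l2 U R A y) (l3 U R A y) (l4 U R A y)
      (l5 U R A y false) (l6 U R A y false) hr) _ le_rfl
  rw [h, hst_rd]
  rfl

theorem H8 : hst (join (orc U R) A) (Q0 y) (N0 y) =
    ((((((b1 U R A y ++ b2 U R A y) ++ b3 U R A y) ++ b4 U R A y) ++ b5 U R A y false) ++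
      b6 U R A y false) ++ b5 U R A y true) ++ b6 U R A y true := by
  have h := stage (join (orc U R) A) (Q0 y) (H7 U R A y)
    (L := 1) (q := fun _ => cond (goo y (PP U R A y) (b2 U R A y))
      (true :: false :: b5 U R A y true) [false])
    (fun r _ => Q0_8 (l1 U R A y) (l2 U R A y) (l3 U R A y) (l4 U R A y)
      (l5 U R A y false) (l6 U R A y false) (l5 U R A y true)) _ le_rfl
  unfold N0
  rw [h]
  rfl

theorem F0_fin : F0 y (hst (join (orc U R) A) (Q0 y) (N0 y)) =
    (okk y (PP U R A y) (b2 U R A y) && ((cmp (PP U R A y) && (b4 U R A y).headD false) ||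
      (decide ((pp (PP U R A y)).length < (xi (PP U R A y)).length) &&
        ((b6 U R A y false).headD false || (b6 U R A y true).headD false)))) := by
  rw [H8]
  exact F0_eq (l1 U R A y) (l2 U R A y) (l3 U R A y) (l4 U R A y) (l5 U R A y false)
    (l6 U R A y false) (l5 U R A y true)

end

/-! ### Part 1 finds the string -/

theorem take_snoc {u : Str} {j : ℕ} (h : j < u.length) : u.take (j + 1) = u.take j ++ [u[j]] := by
  rw [List.take_add_one, List.getElem?_eq_getElem h]
  rfl

theorem snoc_pre {u : Str} {j : ℕ} (h : j < u.length) (b : Bool) :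
    u.take j ++ [b] <+: u ↔ u[j] = b := by
  rw [List.prefix_iff_eq_take]
  have e : (u.take j ++ [b]).length = j + 1 := by
    rw [List.length_append, List.length_take, List.length_singleton]
    omega
  rw [e, take_snoc h, List.append_cancel_left_eq]
  simp [eq_comm]

theorem mz_of {y u : Str} {R : Str → Str} (hR : Reg R) (h : R u = y) :
    (mz y).length = u.length := by
  rw [mz_length, ← h, hR.len]
  omega

theorem PP_eq (K : (Str → Str) → Set Str) (U : Str → Bool) {R : Str → Str} (hR : Reg R)
    {u y : Str} (h : R u = y) : PP U R (AD K R) y = u := by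
  have key : ∀ j, j ≤ u.length → (hst (join (orc U R) (AD K R))
      (fun r => true :: true :: pq y (r.map not ++ [false])) j).map not = u.take j := by
    intro j
    induction j with
    | zero => intro _; rfl
    | succ j ih =>
      intro hj
      have hj' : j < u.length := by omega
      rw [hst, List.map_append, ih (by omega), take_snoc hj']
      congr 1
      simp only [List.map_cons, List.map_nil, List.cons.injEq, and_true]
      have h1 : join (orc U R) (AD K R) (true :: true :: pq y (u.take j ++ [false])) = true ↔
          u[j] = false := by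
        rw [join_true_iff, true_AD, pv_pq]
        rw [← snoc_pre hj' false]
        constructor
        · rintro ⟨w, hw, hw'⟩
          have : w = u := hR.inj (by rw [hw', h])
          rw [← this]
          rw [← this] at hw
          exact hw
        · intro hw
          exact ⟨u, hw, h⟩
      cases hb : u[j]
      · rw [h1.2 hb]
        rfl
      · have : join (orc U R) (AD K R) (true :: true :: pq y (u.take j ++ [false])) = false := by
          rw [← Bool.not_eq_true, h1, hb]
          simp
        rw [this]
        rfl
  unfold PP b1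
  rw [mz_of hR h, key _ le_rfl, List.take_length]

/-! ### The result at `0 y` -/

theorem wd_cd (w : Str) (vs : List Str) : wd (cd (w, vs)) = w := by
  unfold wd cd
  have h : tree (cod (enc (w, vs))) = enc (w, vs) := by
    have := tree_cod (enc (w, vs)) []
    rwa [List.append_nil] at this
  rw [h]
  exact toStr_enc w

theorem vd_cd (w : Str) (vs : List Str) : vd (cd (w, vs)) = vs := by
  unfold vd cd
  have h : tree (cod (enc (w, vs))) = enc (w, vs) := by
    have := tree_cod (enc (w, vs)) []
    rwa [List.append_nil] at this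
  rw [h]
  exact toStrs_enc vs

theorem length_le_tsz (w : Str) (vs : List Str) : vs.length ≤ tsz w vs := by
  unfold tsz
  have h : vs.length ≤ (vs.map fun v => v.length + 1).sum := by
    induction vs with
    | nil => simp
    | cons v vs ih =>
      rw [List.map_cons, List.sum_cons, List.length_cons]
      omega
  omega

theorem bsa_eq (U : Str → Bool) (R : Str → Str) (A : Lang) (y : Str)
    (h : (vd (pp (PP U R A y))).length ≤ (mz y).length) :
    bsa (PP U R A y) (b3 U R A y) = (vd (pp (PP U R A y))).map (orc U R) := by
  unfold bsa b3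
  rw [tk_eq, List.length_map, ← List.map_take, List.take_range, min_eq_left h]
  refine List.ext_getElem ?_ ?_
  · simp
  · intro i h1 h2
    rw [List.length_map] at h2
    rw [List.getElem_map, List.getElem_map, List.getElem_range, List.getD_eq_getElem _ _ h2]

theorem okk_iff {y P a : Str} : okk y P a = true ↔ y.length = 10 * (mz y).length + 1 ∧ a = y ∧
    fmt (xi P) (pp P) = P ∧ (pp P).length ≤ (xi P).length := by
  unfold okk
  simp only [Bool.and_eq_true, decide_eq_true_eq]

theorem okk_fin (U : Str → Bool) {R : Str → Str} (hR : Reg R) (A : Lang) (y : Str)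
    (h : okk y (PP U R A y) (b2 U R A y) = true) : R (PP U R A y) = y ∧
    y.length = 10 * (PP U R A y).length + 1 ∧
    fmt (xi (PP U R A y)) (pp (PP U R A y)) = PP U R A y ∧
    (pp (PP U R A y)).length ≤ (xi (PP U R A y)).length ∧
    (PP U R A y).length = 2 * (xi (PP U R A y)).length + 2 := by
  rw [okk_iff] at h
  obtain ⟨e1, e2, e3, e4⟩ := h
  have e5 : (PP U R A y).length = (mz y).length := by
    unfold PP
    rw [List.length_map, l1]
  have e6 : (R (PP U R A y)).length = y.length := by
    rw [hR.len, e5, e1]
  refine ⟨?_, by rw [e5, e1], e3, e4, ?_⟩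
  · have e7 : b2 U R A y = R (PP U R A y) := rd_eq R _ e6
    rw [← e7, e2]
  · have := FMT_.fmt_length _ _ e4
    rwa [e3] at this

theorem b5_fin (U : Str → Bool) {R : Str → Str} (hR : Reg R) (A : Lang) (y : Str) (b : Bool)
    (h : goo y (PP U R A y) (b2 U R A y) = true) :
    b5 U R A y b = R (fmt (xi (PP U R A y)) (pp (PP U R A y) ++ [b])) := by
  unfold goo at h
  rw [Bool.and_eq_true, decide_eq_true_eq] at h
  obtain ⟨-, e2, -, -, e5⟩ := okk_fin U hR A y h.1
  refine rd_eq R _ ?_
  rw [hR.len, FMT_.fmt_length _ _ (by rw [List.length_append, List.length_singleton]; omega)]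
  omega

theorem b6_iff (E : ℕ → Ver) {R : Str → Str} (hR : Reg R) (y : Str) (b : Bool)
    (h : goo y (PP (UU E) R (AD (K3 E (UU E)) R) y) (b2 (UU E) R (AD (K3 E (UU E)) R) y) = true) :
    (b6 (UU E) R (AD (K3 E (UU E)) R) y b).headD false = true ↔
      fmt (xi (PP (UU E) R (AD (K3 E (UU E)) R) y))
        (pp (PP (UU E) R (AD (K3 E (UU E)) R) y) ++ [b]) ∈ K3 E (UU E) R := by
  unfold b6
  rw [h, cond_true, List.headD_cons, join_true_iff, false_AD,
    b5_fin _ hR _ _ _ h]
  constructor
  · rintro ⟨w, hw, hw'⟩
    rw [← hR.inj hw']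
    exact hw
  · intro hw
    exact ⟨_, hw, rfl⟩

theorem corr0 (h2 : T_FMT) (E : ℕ → Ver) {R : Str → Str} (hR : Reg R) (y : Str) :
    F0 y (hst (join (orc (UU E) R) (AD (K3 E (UU E)) R)) (Q0 y) (N0 y)) = true ↔
      ∃ ψ ∈ K3 E (UU E) R, R ψ = y := by
  rw [F0_fin]
  constructor
  · intro h
    rw [Bool.and_eq_true] at h
    obtain ⟨h1, h3⟩ := h
    obtain ⟨e1, e2, e3, e4, e5⟩ := okk_fin _ hR _ _ h1
    refine ⟨_, ?_, e1⟩
    rw [← e3, h2.2 E (UU E) R _ _ e4]
    rw [Bool.or_eq_true] at h3
    rcases h3 with h3 | h3
    · left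
      rw [Bool.and_eq_true] at h3
      obtain ⟨h4, h5⟩ := h3
      unfold cmp at h4
      rw [Bool.and_eq_true, decide_eq_true_eq, decide_eq_true_eq] at h4
      refine ⟨_, _, h4.1, h4.2, ?_⟩
      unfold b4 at h5
      rw [List.headD_cons, UU_cde, bsa_eq] at h5
      · exact h5
      · have h6 := length_le_tsz (wd (pp (PP (UU E) R (AD (K3 E (UU E)) R) y)))
          (vd (pp (PP (UU E) R (AD (K3 E (UU E)) R) y)))
        have h7 := mz_of hR e1
        omega
    · right
      rw [Bool.and_eq_true, decide_eq_true_eq, Bool.or_eq_true] at h3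
      have hg : goo y (PP (UU E) R (AD (K3 E (UU E)) R) y)
          (b2 (UU E) R (AD (K3 E (UU E)) R) y) = true := by
        unfold goo
        rw [Bool.and_eq_true, decide_eq_true_eq]
        exact ⟨h1, h3.1⟩
      rw [b6_iff E hR y _ hg, b6_iff E hR y _ hg] at h3
      exact h3
  · rintro ⟨ψ, hψ, hy⟩
    have hP : PP (UU E) R (AD (K3 E (UU E)) R) y = ψ := PP_eq _ _ hR hy
    obtain ⟨χ, p, c, hfm, hpc, hcl, hV⟩ := id hψ
    have hpl : p.length ≤ χ.length := hpc.length_le.trans hcl
    have hxi : xi ψ = χ := by rw [hfm]; exact xi_fmt hpl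
    have hpp : pp ψ = p := by rw [hfm]; exact pp_fmt hpl
    have hm := mz_of hR hy
    have hyl : y.length = 10 * ψ.length + 1 := by rw [← hy, hR.len]
    have hok : okk y (PP (UU E) R (AD (K3 E (UU E)) R) y)
        (b2 (UU E) R (AD (K3 E (UU E)) R) y) = true := by
      rw [okk_iff]
      unfold b2
      rw [hP, hxi, hpp]
      refine ⟨by omega, ?_, hfm.symm, hpl⟩
      rw [rd_eq R ψ (by rw [hy]), hy]
    rw [hok, Bool.true_and, Bool.or_eq_true]
    rw [hfm, h2.2 E (UU E) R _ _ hpl] at hψ
    rcases hψ with ⟨w, vs, h3, h4, h5⟩ | ⟨h3, h4⟩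
    · left
      rw [Bool.and_eq_true]
      have hw : wd (pp ψ) = w := by rw [hpp, ← h3, wd_cd]
      have hv : vd (pp ψ) = vs := by rw [hpp, ← h3, vd_cd]
      constructor
      · unfold cmp
        rw [Bool.and_eq_true, decide_eq_true_eq, decide_eq_true_eq, hP, hw, hv, hpp, hxi]
        exact ⟨h3, h4⟩
      · unfold b4
        rw [List.headD_cons, UU_cde, bsa_eq, hP, hxi, hw, hv]
        · exact h5
        · rw [hP, hv]
          have h6 := length_le_tsz w vs
          have h7 := FMT_.fmt_length χ p hpl
          rw [← hfm] at h7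
          omega
    · right
      rw [Bool.and_eq_true, decide_eq_true_eq, Bool.or_eq_true]
      have hg : goo y (PP (UU E) R (AD (K3 E (UU E)) R) y)
          (b2 (UU E) R (AD (K3 E (UU E)) R) y) = true := by
        unfold goo
        rw [Bool.and_eq_true, decide_eq_true_eq, hP, hxi, hpp]
        rw [hP] at hok
        exact ⟨hok, h3⟩
      rw [b6_iff E hR y _ hg, b6_iff E hR y _ hg, hP, hxi, hpp]
      exact ⟨h3, h4⟩

/-! ### The questions at `0 y` -/

theorem Q0_true {y h x' : Str} (hq : Q0 y h = true :: x') :
    (h.length < (mz y).length ∧ x' = true :: pq y (h.map not ++ [false])) ∨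
    h.length = (mz y).length + y.length + (mz y).length + 1 + y.length ∨
    (mz y).length + y.length + (mz y).length + 1 + y.length + 1 + y.length ≤ h.length := by
  have e1 : (t1 y h).length = h.length - (mz y).length := by
    unfold t1; rw [dr_eq, List.length_drop]
  have e2 : (t2 y h).length = h.length - (mz y).length - y.length := by
    unfold t2; rw [dr_eq, List.length_drop, e1]
  have e3 : (t3 y h).length = h.length - (mz y).length - y.length - (mz y).length := by
    unfold t3; rw [dr_eq, List.length_drop, e2]
  have e4 : (t4 y h).length = h.length - (mz y).length - y.length - (mz y).length - 1 := by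
    unfold t4; rw [dr_eq, List.length_drop, e3]; rfl
  have e5 : (t5 y h).length = h.length - (mz y).length - y.length - (mz y).length - 1 -
      y.length := by
    unfold t5; rw [dr_eq, List.length_drop, e4]
  have e6 : (t6 y h).length = h.length - (mz y).length - y.length - (mz y).length - 1 -
      y.length - 1 := by
    unfold t6; rw [dr_eq, List.length_drop, e5]; rfl
  unfold Q0 at hq
  by_cases c1 : h.length < (mz y).length
  · rw [decide_eq_true c1, cond_true] at hq
    left
    exact ⟨c1, (List.cons.inj hq).2.symm⟩
  rw [decide_eq_false c1, cond_false] at hq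
  by_cases c2 : (t1 y h).length < y.length
  · rw [decide_eq_true c2, cond_true] at hq
    simp at hq
  rw [decide_eq_false c2, cond_false] at hq
  by_cases c3 : (t2 y h).length < (mz y).length
  · rw [decide_eq_true c3, cond_true] at hq
    simp at hq
  rw [decide_eq_false c3, cond_false] at hq
  by_cases c4 : (t3 y h).length < ([true] : Str).length
  · rw [decide_eq_true c4, cond_true] at hq
    simp at hq
  rw [decide_eq_false c4, cond_false] at hq
  by_cases c5 : (t4 y h).length < y.length
  · rw [decide_eq_true c5, cond_true] at hq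
    simp at hq
  rw [decide_eq_false c5, cond_false] at hq
  have c4' : ¬ (t3 y h).length < 1 := c4
  by_cases c6 : (t5 y h).length < ([true] : Str).length
  · right
    left
    have c6' : (t5 y h).length < 1 := c6
    omega
  rw [decide_eq_false c6, cond_false] at hq
  have c6' : ¬ (t5 y h).length < 1 := c6
  by_cases c7 : (t6 y h).length < y.length
  · rw [decide_eq_true c7, cond_true] at hq
    simp at hq
  · right
    right
    omega

theorem Nxt_goo (U : Str → Bool) {R : Str → Str} (hR : Reg R) (A : Lang) (y : Str) (b : Bool)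
    (x' : Str) (h : cond (goo y (PP U R A y) (b2 U R A y)) (true :: false :: b5 U R A y b)
      [false] = true :: x') : Nxt R (false :: y) x' ∧ y ≠ [] := by
  cases hg : goo y (PP U R A y) (b2 U R A y)
  · rw [hg, cond_false] at h
    simp at h
  · rw [hg, cond_true] at h
    have h1 := (List.cons.inj h).2
    have hk := hg
    unfold goo at hk
    rw [Bool.and_eq_true, decide_eq_true_eq] at hk
    obtain ⟨e1, e2, e3, -, -⟩ := okk_fin U hR A y hk.1
    refine ⟨Or.inr ⟨xi (PP U R A y), pp (PP U R A y), b, hk.2, ?_, ?_⟩, ?_⟩
    · rw [e3, e1]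
    · rw [← h1, b5_fin U hR A y b hg]
    · rintro rfl
      simp at e2

theorem Nxt0 (U : Str → Bool) {R : Str → Str} (hR : Reg R) (A : Lang) (y : Str) (j : ℕ)
    (hj : j < N0 y) (x' : Str)
    (hq : Q0 y (hst (join (orc U R) A) (Q0 y) j) = true :: x') :
    Nxt R (false :: y) x' ∧ y ≠ [] := by
  have hq' := hq
  rcases Q0_true hq with ⟨h1, h2⟩ | h1 | h1
  · rw [hst_length] at h1
    have h3 := mz_length y
    refine ⟨Or.inl ⟨y, (hst (join (orc U R) A) (Q0 y) j).map not, false, h2, ?_, Or.inl rfl⟩, ?_⟩
    · rw [List.length_map, hst_length]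
      omega
    · rintro rfl
      rw [h3] at h1
      simp at h1
  · rw [hst_length] at h1
    rw [h1, H5, ← List.append_nil (((((b1 U R A y ++ b2 U R A y) ++ b3 U R A y) ++
      b4 U R A y) ++ b5 U R A y false))] at hq'
    rw [Q0_6 (l1 U R A y) (l2 U R A y) (l3 U R A y) (l4 U R A y) (l5 U R A y false)
      (by simp)] at hq'
    exact Nxt_goo U hR A y false x' hq'
  · rw [hst_length] at h1
    have h2 : j = (mz y).length + y.length + (mz y).length + 1 + y.length + 1 + y.length := by
      unfold N0 at hj
      omega
    rw [h2, H7, ← List.append_nil ((((((b1 U R A y ++ b2 U R A y) ++ b3 U R A y) ++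
      b4 U R A y) ++ b5 U R A y false) ++ b6 U R A y false) ++ b5 U R A y true)] at hq'
    rw [Q0_8 (l1 U R A y) (l2 U R A y) (l3 U R A y) (l4 U R A y) (l5 U R A y false)
      (l6 U R A y false) (l5 U R A y true)] at hq'
    exact Nxt_goo U hR A y true x' hq'

/-! ### The run at `1 v` -/

section
variable {y p r a : Str}

theorem Q1_1 (h : r.length < y.length) : Q1 y p ([] ++ r) = false :: qst r.length p := by
  unfold Q1
  rw [List.nil_append, decide_eq_true h, cond_true]

theorem Q1_2 (h1 : a.length = y.length) (h : r.length < 1) : Q1 y p (a ++ r) =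
    cond (g1 y p) (true :: true :: pq y (p ++ [false])) [false] := by
  have h' : r.length < ([true] : Str).length := h
  unfold Q1
  rw [lt_app h1, cond_false, dr_app h1, decide_eq_true h', cond_true]

theorem Q1_3 {c : Str} (h1 : a.length = y.length) (h2 : c.length = ([true] : Str).length) :
    Q1 y p ((a ++ c) ++ r) = cond (g1 y p) (true :: true :: pq y (p ++ [true])) [false] := by
  unfold Q1
  rw [List.append_assoc, lt_app h1, cond_false, dr_app h1, lt_app h2, cond_false]

end

section
variable (U : Str → Bool) (R : Str → Str) (A : Lang) (y p : Str)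

/-- the answers to the last questions -/
noncomputable def d2 (b : Bool) : Str :=
  [join (orc U R) A (cond (g1 y p) (true :: true :: pq y (p ++ [b])) [false])]

theorem G1 : hst (join (orc U R) A) (Q1 y p) y.length = rd R p y.length := by
  have h := stage (join (orc U R) A) (Q1 y p) (h0 := []) (k0 := 0) rfl
    (L := y.length) (q := fun r => false :: qst r.length p)
    (fun r hr => Q1_1 hr) _ le_rfl
  rw [Nat.zero_add, List.nil_append, hst_rd] at h
  exact h

theorem G2 : hst (join (orc U R) A) (Q1 y p) (y.length + 1) =
    rd R p y.length ++ d2 U R A y p false := by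
  have h := stage (join (orc U R) A) (Q1 y p) (G1 U R A y p)
    (L := 1) (q := fun _ => cond (g1 y p) (true :: true :: pq y (p ++ [false])) [false])
    (fun r hr => Q1_2 (rd_length _ _ _) hr) _ le_rfl
  rw [h]
  rfl

theorem G3 : hst (join (orc U R) A) (Q1 y p) (N1 y) =
    (rd R p y.length ++ d2 U R A y p false) ++ d2 U R A y p true := by
  have h := stage (join (orc U R) A) (Q1 y p) (G2 U R A y p)
    (L := 1) (q := fun _ => cond (g1 y p) (true :: true :: pq y (p ++ [true])) [false])
    (fun r _ => Q1_3 (rd_length _ _ _) rfl) _ le_rfl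
  unfold N1
  rw [show y.length + 2 = y.length + 1 + 1 from rfl, h]
  rfl

theorem F1_fin : F1 y p (hst (join (orc U R) A) (Q1 y p) (N1 y)) =
    (decide (y.length = 10 * (mz y).length + 1) &&
      ((decide (p.length = (mz y).length) && decide (rd R p y.length = y)) ||
        (decide (p.length < (mz y).length) && ((d2 U R A y p false).headD false ||
          (d2 U R A y p true).headD false)))) := by
  rw [G3]
  unfold F1
  rw [List.append_assoc, tk_app (rd_length _ _ _), dr_app (rd_length _ _ _)]
  rfl

end

theorem d2_iff (K : (Str → Str) → Set Str) (U : Str → Bool) (R : Str → Str) (y p : Str)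
    (b : Bool) (h : g1 y p = true) : (d2 U R (AD K R) y p b).headD false = true ↔
      ∃ ψ, p ++ [b] <+: ψ ∧ R ψ = y := by
  unfold d2
  rw [h, cond_true, List.headD_cons, join_true_iff, true_AD, pv_pq]

theorem corr1 (K : (Str → Str) → Set Str) (U : Str → Bool) {R : Str → Str} (hR : Reg R)
    (y p : Str) : F1 y p (hst (join (orc U R) (AD K R)) (Q1 y p) (N1 y)) = true ↔
      ∃ ψ, p <+: ψ ∧ R ψ = y := by
  rw [F1_fin, Bool.and_eq_true, decide_eq_true_eq, Bool.or_eq_true, Bool.and_eq_true,
    Bool.and_eq_true, decide_eq_true_eq, decide_eq_true_eq, decide_eq_true_eq]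
  constructor
  · rintro ⟨h1, h2 | h2⟩
    · refine ⟨p, List.prefix_rfl, ?_⟩
      rw [← rd_eq R p (n := y.length) (by rw [hR.len, h2.1, h1]), h2.2]
    · have hg : g1 y p = true := by
        unfold g1
        rw [Bool.and_eq_true, decide_eq_true_eq, decide_eq_true_eq]
        exact ⟨h1, h2.1⟩
      rw [Bool.or_eq_true, d2_iff K U R y p _ hg, d2_iff K U R y p _ hg] at h2
      rcases h2.2 with ⟨ψ, h3, h4⟩ | ⟨ψ, h3, h4⟩
      · exact ⟨ψ, (List.prefix_append _ _).trans h3, h4⟩
      · exact ⟨ψ, (List.prefix_append _ _).trans h3, h4⟩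
  · rintro ⟨ψ, h1, h2⟩
    have hm := mz_of hR h2
    have hl : y.length = 10 * ψ.length + 1 := by rw [← h2, hR.len]
    refine ⟨by omega, ?_⟩
    rcases h1.length_le.lt_or_eq with h3 | h3
    · right
      rw [hm]
      refine ⟨h3, ?_⟩
      have hg : g1 y p = true := by
        unfold g1
        rw [Bool.and_eq_true, decide_eq_true_eq, decide_eq_true_eq]
        omega
      rw [Bool.or_eq_true, d2_iff K U R y p _ hg, d2_iff K U R y p _ hg]
      have h4 : p = ψ.take p.length := List.prefix_iff_eq_take.1 h1
      have h5 : p ++ [ψ[p.length]] <+: ψ := by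
        have := (snoc_pre h3 ψ[p.length]).2 rfl
        rwa [← h4] at this
      cases hb : ψ[p.length]
      · rw [hb] at h5
        exact Or.inl ⟨ψ, h5, h2⟩
      · rw [hb] at h5
        exact Or.inr ⟨ψ, h5, h2⟩
    · left
      have h4 : p = ψ := h1.eq_of_length h3
      rw [h4]
      exact ⟨hm.symm, by rw [rd_eq R ψ (by rw [h2]), h2]⟩

theorem Nxt1 {R : Str → Str} {v y p : Str} (hv : pv v = (y, p)) (h x' : Str)
    (hq : Q1 y p h = true :: x') : Nxt R (true :: v) x' := by
  have key : ∀ b : Bool, cond (g1 y p) (true :: true :: pq y (p ++ [b])) [false] = true :: x' →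
      Nxt R (true :: v) x' := by
    intro b hb
    cases hg : g1 y p
    · rw [hg, cond_false] at hb
      simp at hb
    · rw [hg, cond_true] at hb
      unfold g1 at hg
      rw [Bool.and_eq_true, decide_eq_true_eq, decide_eq_true_eq] at hg
      exact Or.inl ⟨y, p, b, (List.cons.inj hb).2.symm, by omega, Or.inr ⟨v, rfl, hv⟩⟩
  unfold Q1 at hq
  by_cases c1 : h.length < y.length
  · rw [decide_eq_true c1, cond_true] at hq
    simp at hq
  rw [decide_eq_false c1, cond_false] at hq
  by_cases c2 : (dr y h).length < ([true] : Str).length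
  · rw [decide_eq_true c2, cond_true] at hq
    exact key _ hq
  · rw [decide_eq_false c2, cond_false] at hq
    exact key _ hq

theorem pv_len (v : Str) : (pv v).1.length ≤ v.length := by
  unfold pv
  simp only [List.length_drop]
  omega

end TSR_

open TSR_ in
theorem p_TSR (_h1 : Pool.Agent.RDS.T_CNV) (h2 : T_FMT) : T_TSR := by
  intro E R hR
  have : Fact Core := ⟨Pool.Agent.PT.core⟩
  have g1 : ∀ (x h : Str), h.length < NX x → mvOf (AL (x, h)) = .ask (QX x h) := by
    intro x h hh
    simp only [AL, mvOf, decide_eq_true hh, cond_true]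
  have g2 : ∀ (x h : Str), h.length = NX x → mvOf (AL (x, h)) = .out (FX x h) := by
    intro x h hh
    simp only [AL, mvOf, decide_eq_false (Nat.not_lt.2 hh.ge), cond_false]
  refine ⟨fun q => mvOf (AL q), 5 * Polynomial.X + 10, cnv AL pt_AL, fun x => ?_,
    fun x x' hx => ?_⟩
  · have hN : NX x < (5 * Polynomial.X + 10 : Polynomial ℕ).eval x.length := by
      simp only [Polynomial.eval_add, Polynomial.eval_mul, Polynomial.eval_ofNat,
        Polynomial.eval_X]
      have ht : x.tail.length ≤ x.length := by simp
      unfold NX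
      cases x.headD false
      · rw [cond_false]
        unfold N0
        have := mz_length x.tail
        omega
      · rw [cond_true]
        unfold N1
        have := pv_len x.tail
        rw [qv_eq]
        omega
    refine ⟨FX x (hst (join (orc (UU E) R) (AD (K3 E (UU E)) R)) (QX x) (NX x)), ?_, ?_⟩
    · exact run_eq (join (orc (UU E) R) (AD (K3 E (UU E)) R)) (fun q => mvOf (AL q)) x (NX x)
        (QX x) (FX x) (g1 x) (g2 x) (NX x) 0 _ (by omega) hN
    · cases x with
      | nil =>
        have := corr0 h2 E hR []
        change F0 [] (hst (join (orc (UU E) R) (AD (K3 E (UU E)) R)) (Q0 []) (N0 [])) = true ↔ _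
        rw [this]
        constructor
        · rintro ⟨ψ, -, h⟩
          have h3 := hR.len ψ
          rw [h] at h3
          simp at h3
        · intro h
          exact absurd h (nil_AD _ _)
      | cons b x =>
        cases b
        · rw [false_AD]
          exact corr0 h2 E hR x
        · rw [true_AD]
          have e := corr1 (K3 E (UU E)) (UU E) hR (pv x).1 (pv x).2
          have e2 := qv_eq x
          change F1 (qv x).1 (qv x).2 (hst (join (orc (UU E) R) (AD (K3 E (UU E)) R))
            (Q1 (qv x).1 (qv x).2) (N1 (qv x).1)) = true ↔ _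
          rw [e2]
          exact e
  · obtain ⟨j, hj, hv⟩ := asked_mem (join (orc (UU E) R) (AD (K3 E (UU E)) R))
      (fun q => mvOf (AL q)) x (NX x) (QX x) (FX x) (g1 x) (g2 x) _ 0 (Nat.zero_le _) _ hx
    cases x with
    | nil =>
      exact absurd rfl (Nxt0 (UU E) hR _ [] j hj x' hv.symm).2
    | cons b x =>
      cases b
      · exact (Nxt0 (UU E) hR _ x j hj x' hv.symm).1
      · have e2 := qv_eq x
        exact Nxt1 (y := (qv x).1) (p := (qv x).2) (by rw [e2]) _ x' hv.symm

end Pool.Agent.RAD
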