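import Pool.Agent.RDS.P_ALG
import Pool.Agent.RDS.P_ASY
import Pool.Agent.RDS.P_CNV
import Pool.Agent.RDS.P_CTB
import Pool.Agent.RDS.P_GEN
import Pool.Agent.RDS.P_INE
import Pool.Agent.RDS.P_INJC
import Pool.Agent.RDS.P_OUTL
import Pool.Agent.RDS.P_UPD
import Pool.Agent.RAD.P_CND
import Pool.Agent.RAD.P_CORE
import Pool.Agent.RAD.P_FMT
import Pool.Agent.RAD.P_HRE
import Pool.Agent.RAD.P_IND
import Pool.Agent.RAD.P_KOD
import Pool.Agent.RAD.P_LND
import Pool.Agent.RAD.P_MAIN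
import Pool.Agent.RAD.P_MED
import Pool.Agent.RAD.P_PRD
import Pool.Agent.RAD.P_SED
import Pool.Agent.RAD.P_TCH
import Pool.Agent.RAD.P_TOD
import Pool.Agent.RAD.P_TSR

set_option autoImplicit false

/-!
# RAD: the main theorem
-/

namespace Pool.Agent.RAD

open Pool.Agent.DSR (Lang)
open Pool.Agent.RDS
open Pool.Agent.RTS (GenTuringSelfRed)

/-- There are an oracle `O` and an NP-complete set relative to `O` which is adaptively
self-reducible relative to `O` in the general sense, but not disjunctively. -/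
theorem main : ∃ (O : Orc) (A : Lang), NPCompleteO O A ∧ GenTuringSelfRed O A ∧
    ¬ GenSelfRed O A :=
  p_MAIN (p_CORE (p_SED (p_IND p_UPD p_TOD) (p_INJC p_UPD)) p_LND p_CND p_ASY) p_PRD p_GEN
    p_KOD p_INE p_CTB (p_ALG p_OUTL) p_CNV (p_MED p_CNV) (p_HRE p_CNV p_OUTL p_FMT)
    (p_TSR p_CNV p_FMT) (p_TCH p_FMT)

end Pool.Agent.RAD
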