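import Pool.Agent.RAD.Targets
import Pool.Agent.RDS.P_MAIN

set_option autoImplicit false

/-!
# RAD, block MAIN: assembly of the main theorem
-/

namespace Pool.Agent.RAD

open Pool.Agent.DSR (Lang PolyTime encPair encBool Ans Letter encAns)
open Pool.Agent.RDS
open Pool.Agent.RTS (join asked TurChain GenTuringSelfRed)

namespace MAIN_

/-- an oracle for which countably many algorithms fail -/
theorem gen (hCORE : T_CORE) (hPRD : T_PRD) (hGEN : Pool.Agent.RDS.T_GEN)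
    {K : (Str → Str) → Set Str} (hK : KOkD K) (S : Set (Alg × Polynomial ℕ))
    (hS : S.Countable) : ∃ R, Reg R ∧ ∀ p ∈ S, ¬ CorrD K p.1 p.2 R := by
  obtain ⟨ν, hν⟩ := Set.countable_iff_exists_injOn.1 hS
  obtain ⟨R, hR, h⟩ := hGEN (fun e R => ∀ p ∈ S, ν p = e → ¬ CorrD K p.1 p.2 R) (by
    intro e R₀ m₀ hR₀
    by_cases h : ∃ p ∈ S, ν p = e
    · obtain ⟨p, hp, hpe⟩ := h
      have h1 := hCORE K hK p.1 p.2 R₀ m₀ hR₀
      unfold HHD at h1
      push Not at h1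
      obtain ⟨R, hR, hRa, hRC⟩ := h1
      obtain ⟨m, hm⟩ := hPRD K hK p.1 p.2 R hR hRC
      refine ⟨R, m, hR, hRa, fun R' hR' hRR' p' hp' hpe' => ?_⟩
      rw [hν hp' hp (hpe'.trans hpe.symm)]
      exact hm R' hR' hRR'
    · exact ⟨R₀, 0, hR₀, fun u _ => rfl, fun R' _ _ p hp hpe => absurd ⟨p, hp, hpe⟩ h⟩)
  exact ⟨R, hR, fun p hp => h (ν p) p hp rfl⟩

end MAIN_

open MAIN_ in
theorem p_MAIN (hCORE : T_CORE) (hPRD : T_PRD) (hGEN : Pool.Agent.RDS.T_GEN) (hKOD : T_KOD)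
    (hINE : Pool.Agent.RDS.T_INE) (hCTB : Pool.Agent.RDS.T_CTB)
    (hALG : Pool.Agent.RDS.T_ALG) (hCNV : Pool.Agent.RDS.T_CNV) (hMED : T_MED)
    (hHRE : T_HRE) (hTSR : T_TSR) (hTCH : T_TCH) : T_MAIN := by
  obtain ⟨E, hE1, hE2⟩ := Pool.Agent.RDS.MAIN_.exE hCTB hINE hCNV
  have hK : KOkD (K3 E (UU E)) := hKOD E (UU E) hE1
  have := Pool.Agent.RDS.MAIN_.cpoly
  have hD : {t : (Str × List Bool → Mv Ans) × (Polynomial ℕ × Polynomial ℕ) |
      PolyTime (encH (id : Str → Str)) (encMv encAns) t.1}.Countable :=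
    Pool.Agent.RDS.MAIN_.enum _
      (hCTB (encH (id : Str → Str)) (encMv encAns) (hINE.1 _ hINE.2.2))
  have hB : ∀ t : (Str × List Bool → Mv Ans) × (Polynomial ℕ × Polynomial ℕ), ∃ B : Alg,
      PolyTime (encH (id : Str → Str)) (encMv encAns) t.1 →
      ∀ R x, B.g R x = run (orc (UU E) R) t.1 x (t.2.1.eval x.length) [] := by
    intro t
    by_cases h : PolyTime (encH (id : Str → Str)) (encMv encAns) t.1
    · obtain ⟨B, hB⟩ := hALG (UU E) t.1 t.2.1 h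
      exact ⟨B, fun _ => hB⟩
    · exact ⟨⟨fun _ _ => none, fun _ _ => ∅, 0, fun _ _ _ _ => ⟨rfl, rfl⟩, by simp, by simp⟩,
        fun h' => absurd h' h⟩
  choose B hB using hB
  obtain ⟨R, hR, hS⟩ := gen hCORE hPRD hGEN hK
    ((fun t => (B t, t.2.2)) '' {t : (Str × List Bool → Mv Ans) ×
        (Polynomial ℕ × Polynomial ℕ) | PolyTime (encH (id : Str → Str)) (encMv encAns) t.1})
    (hD.image _)
  refine ⟨orc (UU E) R, AD (K3 E (UU E)) R, ⟨hMED E R hR, hHRE E hE2 R hR⟩, ?_, ?_⟩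
  · obtain ⟨G, r, hG, hrun, hask⟩ := hTSR E R hR
    refine ⟨G, r, Polynomial.C 4 * Polynomial.X + Polynomial.C 4, hG, hrun, fun c k hc => ?_⟩
    have h := hTCH R hR c k fun i hi => hask _ _ (hc i hi)
    simpa using h
  · rintro ⟨g, q, ⟨G₀, r, hG₀, hrun⟩, hright, hch⟩
    refine hS _ ⟨(G₀, (r, q)), hG₀, rfl⟩ ?_
    have hg : ∀ x, (B (G₀, (r, q))).g R x = some (g x) := fun x => by
      rw [hB (G₀, (r, q)) hG₀ R x]
      exact hrun x
    refine ⟨fun x => ⟨g x, hg x, hright x⟩, fun c k hck => hch c k fun i hi => ?_⟩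
    obtain ⟨l, hl, hm⟩ := hck i hi
    rw [hg] at hl
    exact ⟨l, Option.some_injective _ hl, hm⟩

end Pool.Agent.RAD
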