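import Pool.Agent.RAD.Core

set_option autoImplicit false

/-!
# RAD (MP_f8b4c8_lc): targets

THEOREM (row 5364 of ideas). There are an oracle `O` and an NP-complete set relative to `O` which is
adaptively (Turing) self-reducible in the general sense, but not disjunctively. One file per target,
`Pool/Agent/RAD/P_XXX.lean`, `theorem Pool.Agent.RAD.p_XXX (other targets) : T_XXX`, helper lemmas
in the namespace `Pool.Agent.RAD.XXX_`. The docstrings contain the proofs.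
-/

namespace Pool.Agent.RAD

open Pool.Agent.DSR (Lang PolyTime encPair encBool Ans Letter encAns)
open Pool.Agent.RDS
open Pool.Agent.RTS (Cer SS join asked TurChain GenTuringSelfRed)

/-! ### The negative part -/

/-- **TOD** (20 min). At most `P` strings are in `T`; the list has at most `P` members
(`Alg.kids`), and for each member `1 v` at most `2^(e+1)` strings `ψ` extend `p = (pv v).2` and have
length at most `|p| + e`. -/
def T_TOD : Prop := ∀ (G : Alg) (R : Str → Str) (e : ℕ) (y : Str), (TD G R e y).Finite ∧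
  (TD G R e y).ncard ≤ G.P.eval (y.length + 1) * (1 + 2 ^ (e + 1))

/-- **IND** (45 min; from TOD and `Pool.Agent.RDS.T_UPD` or `Pool.Agent.RTS.T_SWP`). Edit of
`RDS/P_INVC.lean`. `ψ ∈ TD G (up R ψ z) e y ↔ ψ ∈ TD G R e y`: if `ψ ∉ G.T R (0 y)` then `Alg.loc`
gives the same `T`
and `g`; otherwise `ψ` is in both (`Alg.loc` in the other direction). So for `ψ ∈ FF m N` of length
`l`: `#{ω | ψ ∈ TD (ex ω) e (ex ω ψ)} * 2^(10 l + 1) = #{(ω, y) | ψ ∈ TD (ex ω) e y}`; sum over the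
`ψ` of length `l` (TOD): at most `card * 2^(10 l + 1) * 2^s (1 + 2^(e+1))`; sum over `l`. -/
def T_IND : Prop := ∀ (G : Alg) (R₀ : Str → Str) (m N s e : ℕ),
  (∀ l, l ≤ 10 * N + 2 → G.P.eval l ≤ 2 ^ s) →
  ∑ ψ ∈ FF m N, {ω : Om m N | ψ ∈ TD G (ex R₀ ω) e (ex R₀ ω ψ)}.ncard ≤
    N * (2 ^ s * (1 + 2 ^ (e + 1))) * Fintype.card (Om m N)

/-- **SED** (30 min; from IND and `Pool.Agent.RDS.T_INJC`). Edit of `RTS/P_SEL.lean`. With
`e = s + 1` and
`N ≤ 2^s` the sum in IND is at most `2^(3 s + 3) C`; at most `C / 8` of the `ex R₀ ω` are not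
regular; if for all others the number were more than `2^(3 s + 4)` the sum would be larger. -/
def T_SED : Prop := ∀ (G : Alg) (R₀ : Str → Str), Reg R₀ → ∀ m N s : ℕ, 1 ≤ m → N ≤ 2 ^ s →
  s ≤ m → (∀ l, l ≤ 10 * N + 2 → G.P.eval l ≤ 2 ^ s) →
  ∃ R, Reg R ∧ Agr (m + 1) R₀ R ∧
    {ψ | ψ ∈ FF m N ∧ ψ ∈ TD G R (s + 1) (R ψ)}.ncard ≤ 2 ^ (3 * s + 4)

/-- **LND** (60 min). `y = R ψ`, `x = 0 y`. Let `y'` be a string of length `10 |ψ| + 1` which is no
value of `R` (`2^(10 l + 1) > 2^l`), `R' = up R ψ y'`: regular, so `CorrD` holds for `R` and for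
`R'`. `x ∈ AD K R`, `x ∉ AD K R'` (`R' u = y` never). `ψ ∉ G.T R x`, so `G.g R' x = G.g R x`; it is
not REJECT, not ACCEPT, so it is `ask l`, all members of `l` are outside `AD K R'`, some `x₁ ∈ l` is
in `AD K R`. (1) `x₁ = 0 y₁`, `y₁ = R ψ₁`, `ψ₁ ∈ K R`: `ψ₁ ≠ ψ` (otherwise `x₁ = x` and the constant
sequence `x` is a chain of every length), so `R' ψ₁ = y₁`, `ψ₁ ∉ K R'`, so `ψ ∈ SS K R ψ₁`
(`SS_spec`, `R'` and `R` agree outside `ψ`): done. (2) `x₁ = 1 v`, `(pv v).2 <+: ψ₁`,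
`R ψ₁ = (pv v).1`: if `ψ₁ ≠ ψ` then `R' ψ₁ = (pv v).1`, so `x₁ ∈ AD K R'`, contradiction; so
`ψ₁ = ψ`, `(pv v).1 = y`. With `p = (pv v).2`: `|ψ| > |p| + e` (`ψ ∉ TD`). There are
`2^(|ψ| - |p| - 1) ≥ 2^e` strings of length `|ψ|` which extend `p` and have the last bit `0`, more
than `|G.T R x|`: take `ψ₂` among them outside `G.T R x`; `ψ₂ ≠ ψ` and `ψ₂` is in no `K R''`
(`KOkD.last`). `R'' = up R' ψ₂ y` is regular and agrees with `R` outside `ψ`, `ψ₂`, so
`G.g R'' x = ask l`; `x ∉ AD K R''` (only `R'' ψ₂ = y`), but `x₁ ∈ AD K R''`: contradiction. -/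
def T_LND : Prop := ∀ K : (Str → Str) → Set Str, KOkD K → ∀ (G : Alg) (q : Polynomial ℕ)
  (R₀ : Str → Str) (m₀ : ℕ), HHD K G q R₀ m₀ → ∀ R, Reg R → Agr m₀ R₀ R → ∀ (ψ : Str) (e : ℕ),
  m₀ ≤ ψ.length → G.P.eval (10 * ψ.length + 2) < 2 ^ e → ψ ∈ K R → ψ ∉ TD G R e (R ψ) →
  ∃ ψ', ψ' ∈ K R ∧ ψ ∈ SS K R ψ' ∧ Kid G R (false :: R ψ) (false :: R ψ')

/-- **CND** (20 min). Edit of `RTS/P_CNT.lean` (author: helper34): the chain is
`0 R ψ_0, 0 R ψ_1, ...`, `|0 R ψ| = 10 |ψ| + 2`. -/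
def T_CND : Prop := ∀ (K : (Str → Str) → Set Str) (G : Alg) (q : Polynomial ℕ) (R : Str → Str),
  Reg R → CorrD K G q R → ∀ (M N D : ℕ) (I W : Finset Str), q.eval (10 * M + 2) = N →
  N < 2 ^ D → 1 ≤ M → (∀ w ∈ W, w.length = M ∧ w ∈ K R) → (∀ ψ ∈ I, ψ.length ≤ N) →
  (∀ ψ ∈ K R, M ≤ ψ.length → ψ.length ≤ N → ψ ∉ I →
    ∃ ψ', ψ' ∈ K R ∧ ψ ∈ SS K R ψ' ∧ Kid G R (false :: R ψ) (false :: R ψ')) →
  W.card ≤ (D + 1) * (N ^ D * I.card)

/-- **CORE** (assembly, from SED, LND, CND, `RDS.T_ASY`; helper35). -/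
def T_CORE : Prop := ∀ K : (Str → Str) → Set Str, KOkD K → ∀ (G : Alg) (q : Polynomial ℕ)
  (R₀ : Str → Str) (m₀ : ℕ), Reg R₀ → ¬ HHD K G q R₀ m₀

/-- **PRD** (30 min). Edit of `RDS/P_PERS.lean` (author: helper72). For regular `R`, `R'` which
agree below
`|x|`: `x ∈ AD K R ↔ x ∈ AD K R'` (`x = 0 y`: as there; `x = 1 v`: `|ψ| < |R ψ| = |(pv v).1| ≤
|v|`). -/
def T_PRD : Prop := ∀ K : (Str → Str) → Set Str, KOkD K → ∀ (G : Alg) (q : Polynomial ℕ)
  (R : Str → Str), Reg R → ¬ CorrD K G q R →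
  ∃ m, ∀ R', Reg R' → Agr m R R' → ¬ CorrD K G q R'

/-- **KOD** (30 min). Edit of `RTS/P_KOT.lean` (author: helper74). `cert`: `S` = the strings `key v`
for the
questions `0 v` in `vs`; `|S| ≤ |vs| ≤ tsz w vs ≤ |χ|`, `|key v| < tsz w vs ≤ |χ|`, `|fmt χ p| ≥
2 |χ| + 2`. `last`: by definition of `fmt`. `many`: `fmt (ins i 0 x) []` with
`|ins i 0 x| = n`, certificate `cd ([], [])`, `c = i + 2 + |cd ([], [])|`. -/
def T_KOD : Prop := ∀ (E : ℕ → Ver) (U : Str → Bool),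
  (∃ i, E i = (fun _ => Mv.out true, 0)) → KOkD (K3 E U)

/-! ### The positive part -/

/-- **FMT** (25 min). `fmt` is injective for `|p| ≤ |χ|` (the length gives `|χ|`; the last `1`
before the final block `0^k 1` ends `p`). `fmt χ p ∈ K3` iff `p` is a certificate or one of the two
extensions is in `K3` (a string `c` which extends `p` is `p` or extends `p b`). -/
def T_FMT : Prop :=
  (∀ χ p χ' p' : Str, p.length ≤ χ.length → p'.length ≤ χ'.length → fmt χ p = fmt χ' p' →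
    χ = χ' ∧ p = p') ∧
  ∀ (E : ℕ → Ver) (U : Str → Bool) (R : Str → Str) (χ p : Str), p.length ≤ χ.length →
    (fmt χ p ∈ K3 E U R ↔ Val E U R χ p ∨ (p.length < χ.length ∧
      (fmt χ (p ++ [false]) ∈ K3 E U R ∨ fmt χ (p ++ [true]) ∈ K3 E U R)))

/-- **MED** (60 min; from `Pool.Agent.RDS.T_CNV`). As `RDS/P_MEM.lean` (author: helper63). Witness:
the code of
`(ψ, χ, p, w, vs)` (or parts of it). At `x = 0 y` check `R ψ = y` by reading `R ψ` with the
questions `qst j ψ`, `j < |y|`, `|y| = 10 |ψ| + 1`, `ψ = fmt χ p`, `p <+: cd (w, vs)`,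
`|cd (w, vs)| ≤ |χ|`, `tsz w vs ≤ |χ|`, ask the `vs` and `1 cde (χ, w, vs, answers)`. At `x = 1 v`
check `R ψ = (pv v).1`, `(pv v).2 <+: ψ`. -/
def T_MED : Prop := ∀ (E : ℕ → Ver) (R : Str → Str), Reg R →
  InNPO (orc (UU E) R) (AD (K3 E (UU E)) R)

/-- **HRE** (45 min; from `Pool.Agent.RDS.T_CNV`, `Pool.Agent.RDS.T_OUTL`, FMT). As
`RDS/P_HRD.lean` (author:
helper23). `f x = 0 R (fmt (ins i t x) [])`, `t = t(|x|)` bounds `tsz w vs` and `|cd (w, vs)|` for
all `|w| ≤ q |x|` and the questions `vs` of the run. -/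
def T_HRE : Prop := ∀ E : ℕ → Ver,
  (∀ v : Ver, PolyTime (encH encPair) (encMv encBool) v.1 → ∃ i, E i = v) →
  ∀ R : Str → Str, Reg R → ∀ B : Lang, InNPO (orc (UU E) R) B →
    ReducesO (orc (UU E) R) B (AD (K3 E (UU E)) R)

/-- **TSR** (90 min; from `Pool.Agent.RDS.T_CNV`, FMT). The adaptive self-reduction; technique as in
`RDS/P_MEM.lean`. `O = orc (UU E) R`, `A = AD (K3 ..) R`, questions to `join O A` are `0 v` (to `O`)
and
`1 x'` (to `A`). At `x = 1 v`, `(y, p) = pv v`: result `false` unless `|y| = 10 m + 1`, `|p| ≤ m`;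
if `|p| = m` read `R p` (`|y|` questions `0 (qst j p)`) and compare with `y`; if `|p| < m` ask
`1 (1 pq y (p ++ [false]))`, `1 (1 pq y (p ++ [true]))`, the result is the disjunction. At
`x = 0 y`: `false` unless `|y| = 10 m + 1`. (1) `m` questions `1 (1 pq y (p_j ++ [false]))`, where
`p_j` = the negations of the first `j` answers; `ψ` = the negations of the first `m` answers (if
`y = R ψ'` then `ψ' = ψ`, as `p_j` is the beginning of `ψ'`, by injectivity of `R`). (2) read `R ψ`;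
`false` if it is not `y` or if `ψ` is not `fmt χ p` with `|p| ≤ |χ|`. (3) If `p = cd (w, vs)` with
`tsz w vs ≤ |χ|`: ask `0 v` for all `v` in `vs`, then `0 (1 cde (χ, w, vs, answers))`; if the
answer is yes the result is `true`. (4) If `|p| < |χ|`: for `b = false, true` read
`y_b = R (fmt χ (p ++ [b]))` and ask `1 (0 y_b)`; the result is the disjunction; otherwise `false`.
The last conjunct: all questions `1 x'` are of the two kinds in `Nxt`. -/
def T_TSR : Prop := ∀ (E : ℕ → Ver) (R : Str → Str), Reg R →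
  ∃ (G : Str × List Bool → Mv Bool) (r : Polynomial ℕ),
    PolyTime (encH (id : Str → Str)) (encMv encBool) G ∧
    (∀ x, ∃ b, run (join (orc (UU E) R) (AD (K3 E (UU E)) R)) G x (r.eval x.length) [] = some b ∧
      (b = true ↔ x ∈ AD (K3 E (UU E)) R)) ∧
    ∀ x x', true :: x' ∈ asked (join (orc (UU E) R) (AD (K3 E (UU E)) R)) G x
      (r.eval x.length) [] → Nxt R x x'

/-- **TCH** (35 min; from FMT). A chain of steps `Nxt`: first steps of the second kind (`χ` is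
constant, `|p|`
increases, `|p| ≤ |χ|`; all strings have the same length; `R` and `fmt` are injective), then steps
of the first kind (`y` is constant, `|p|` increases, `10 |p| + 1 < |y|`,
`|1 pq y p| = 2 |p| + 2 + |y|`; `pv_pq`; `|y| ≤ |v|` for `pv v = (y, p)`). -/
def T_TCH : Prop := ∀ R : Str → Str, Reg R → ∀ (c : ℕ → Str) (k : ℕ),
  (∀ i < k, Nxt R (c i) (c (i + 1))) →
  k ≤ 4 * (c 0).length + 4 ∧ (c k).length ≤ 4 * (c 0).length + 4

/-- **MAIN** (assembly, helper35). -/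
def T_MAIN : Prop := ∃ (O : Orc) (A : Lang), NPCompleteO O A ∧ GenTuringSelfRed O A ∧
  ¬ GenSelfRed O A

end Pool.Agent.RAD
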